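import Mathlib

/-!
# Divisorial gonality of finite graphs and of their unit-length metric graphs

Basic definitions: finite connected loopless multigraphs, divisors on them, chip-firing
equivalence, rank at least one, divisorial gonality; and the same for the metric graph in
which every edge is a segment of length one.
-/

set_option autoImplicit false

namespace Pool.Agent.H44.Gon

/-- A finite connected multigraph without loops. `E` is the type of edges (so parallel edges are
allowed); each edge `e` joins the two distinct vertices `src e` and `tgt e` (which of the two ends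
is called `src` is irrelevant). -/
structure MGraph where
  /-- vertices -/
  V : Type
  /-- edges -/
  E : Type
  [fintypeV : Fintype V]
  [fintypeE : Fintype E]
  /-- first end of an edge -/
  src : E → V
  /-- second end of an edge -/
  tgt : E → V
  loopless : ∀ e, src e ≠ tgt e
  nonempty : Nonempty V
  connected : ∀ u v : V, Relation.EqvGen (fun a b => ∃ e, src e = a ∧ tgt e = b) u v

attribute [instance] MGraph.fintypeV MGraph.fintypeE

namespace MGraph

variable (G : MGraph)

/-! ### Divisors on the finite graph -/

open Classical in
/-- The Laplacian of `G` applied to `φ`: at `v` it is the sum, over all edges at `v`, of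
`φ v - φ w`, where `w` is the other end of the edge. Firing every vertex `v` exactly `φ v` times
changes a divisor `D` to `D - G.lap φ`. -/
noncomputable def lap (φ : G.V → ℤ) (v : G.V) : ℤ :=
  ∑ e : G.E, ((if G.src e = v then φ v - φ (G.tgt e) else 0) +
    (if G.tgt e = v then φ v - φ (G.src e) else 0))

/-- Two divisors on `G` are equivalent if they differ by an integer combination of the columns of
the Laplacian. -/
def DEquiv (D D' : G.V → ℤ) : Prop :=
  ∃ φ : G.V → ℤ, ∀ v, D' v = D v - G.lap φ v

open Classical in
/-- `D` has rank at least one: for every vertex `v` the divisor `D - v` is equivalent to an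
effective divisor. -/
def RankPos (D : G.V → ℤ) : Prop :=
  ∀ v : G.V, ∃ D' : G.V → ℤ, (∀ u, 0 ≤ D' u) ∧ G.DEquiv (fun u => D u - if u = v then 1 else 0) D'

/-- The divisorial gonality of the finite graph `G`: the minimum degree of a divisor on `G` of rank
at least one. -/
noncomputable def dgon : ℕ :=
  sInf {d : ℕ | ∃ D : G.V → ℤ, ∑ v, D v = (d : ℤ) ∧ G.RankPos D}

/-! ### The metric graph with unit edge lengths -/

/-- The points of the metric graph `Γ(G)`: the vertices of `G` and, for each edge `e` and each
`t` with `0 < t < 1`, the point of `e` at distance `t` from `src e`. -/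
abbrev Pt : Type := G.V ⊕ (G.E × Set.Ioo (0 : ℝ) 1)

/-- For a function `f` on the points of `Γ(G)`, its restriction to the closed edge `e`, as a
function of the distance `t ∈ [0,1]` from `src e` (constant beyond the ends, which plays no
role). -/
noncomputable def onEdge (f : G.Pt → ℝ) (e : G.E) (t : ℝ) : ℝ :=
  if h : t ∈ Set.Ioo (0 : ℝ) 1 then f (Sum.inr (e, ⟨t, h⟩))
  else if t ≤ 0 then f (Sum.inl (G.src e)) else f (Sum.inl (G.tgt e))

/-- `F` is, on `[0,1]`, continuous and piecewise linear with finitely many pieces and integer
slopes: there is a finite set `S` of break points such that on every closed subinterval of `[0,1]`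
whose interior misses `S`, `F` is affine with an integer slope. -/
def IsPL (F : ℝ → ℝ) : Prop :=
  ∃ S : Finset ℝ, ∀ a b : ℝ, 0 ≤ a → a < b → b ≤ 1 → (∀ s ∈ S, s ∉ Set.Ioo a b) →
    ∃ m : ℤ, ∀ t ∈ Set.Icc a b, F t = F a + m * (t - a)

/-- A rational function on `Γ(G)`: a continuous, piecewise linear function with finitely many
pieces and integer slopes. -/
def IsRational (f : G.Pt → ℝ) : Prop := ∀ e, IsPL (G.onEdge f e)

/-- The slope of `F` at `t` in the direction of increasing parameter, leaving `t`. -/
noncomputable def slopeR (F : ℝ → ℝ) (t : ℝ) : ℝ := derivWithin F (Set.Ici t) t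

/-- The slope of `F` at `t` in the direction of decreasing parameter, leaving `t`. -/
noncomputable def slopeL (F : ℝ → ℝ) (t : ℝ) : ℝ := -derivWithin F (Set.Iic t) t

open Classical in
/-- The divisor of `f`: at each point, the sum of the slopes of `f` in all directions leaving that
point. -/
noncomputable def divF (f : G.Pt → ℝ) : G.Pt → ℝ
  | Sum.inl v => ∑ e : G.E, ((if G.src e = v then slopeR (G.onEdge f e) 0 else 0) +
      (if G.tgt e = v then slopeL (G.onEdge f e) 1 else 0))
  | Sum.inr (e, t) => slopeR (G.onEdge f e) t + slopeL (G.onEdge f e) t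

/-- Two divisors on `Γ(G)` (finitely supported integer functions on its points) are equivalent if
their difference is the divisor of a rational function. -/
def MEquiv (D D' : G.Pt →₀ ℤ) : Prop :=
  ∃ f : G.Pt → ℝ, G.IsRational f ∧ ∀ x, ((D x - D' x : ℤ) : ℝ) = G.divF f x

/-- The degree of a divisor on `Γ(G)`. -/
noncomputable def mdeg (D : G.Pt →₀ ℤ) : ℤ := D.sum fun _ n => n

open Classical in
/-- `D` has rank at least one on `Γ(G)`: for every point `x` of `Γ(G)` the divisor `D - x` is
equivalent to an effective divisor. -/
def MRankPos (D : G.Pt →₀ ℤ) : Prop :=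
  ∀ x : G.Pt, ∃ D' : G.Pt →₀ ℤ, (∀ y, 0 ≤ D' y) ∧ G.MEquiv (D - Finsupp.single x 1) D'

/-- The divisorial gonality of the metric graph `Γ(G)`: the minimum degree of a divisor on `Γ(G)`
of rank at least one. -/
noncomputable def dgonMetric : ℕ :=
  sInf {d : ℕ | ∃ D : G.Pt →₀ ℤ, G.mdeg D = (d : ℤ) ∧ G.MRankPos D}

end MGraph

end Pool.Agent.H44.Gon
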