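import Pool.Agent.H44.Gon.Defs

set_option autoImplicit false

namespace Pool.Agent.H44.Gon

namespace MGraph

variable (G : MGraph)

/-- summation by parts -/
theorem wsum_lap (w φ : G.V → ℤ) :
    ∑ v, w v * G.lap φ v = ∑ e, (w (G.src e) - w (G.tgt e)) * (φ (G.src e) - φ (G.tgt e)) := by
  classical
  unfold lap
  simp only [Finset.mul_sum]
  rw [Finset.sum_comm]
  refine Finset.sum_congr rfl (fun e _ => ?_)
  simp only [mul_add, mul_ite, mul_zero, Finset.sum_add_distrib]
  simp
  ring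

theorem sum_lap (φ : G.V → ℤ) : ∑ v, G.lap φ v = 0 := by
  have := G.wsum_lap (fun _ => 1) φ
  simpa using this

theorem lap_add (φ ψ : G.V → ℤ) (v : G.V) : G.lap (fun u => φ u + ψ u) v = G.lap φ v + G.lap ψ v := by
  classical
  unfold lap
  rw [← Finset.sum_add_distrib]
  refine Finset.sum_congr rfl (fun e _ => ?_)
  split_ifs <;> ring

theorem lap_sub (φ ψ : G.V → ℤ) (v : G.V) : G.lap (fun u => φ u - ψ u) v = G.lap φ v - G.lap ψ v := by
  classical
  unfold lap
  rw [← Finset.sum_sub_distrib]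
  refine Finset.sum_congr rfl (fun e _ => ?_)
  split_ifs <;> ring

theorem lap_zero (v : G.V) : G.lap (fun _ => 0) v = 0 := by
  classical
  unfold lap
  simp

/-- From a divisor of rank at least one to an effective one, with reachable effective divisors. -/
theorem exists_eff {D : G.V → ℤ} (hD : G.RankPos D) :
    ∃ D0 : G.V → ℤ, (∀ v, 0 ≤ D0 v) ∧ ∑ v, D0 v = ∑ v, D v ∧
      ∀ v, ∃ φ : G.V → ℤ, (∀ u, 0 ≤ D0 u + G.lap φ u) ∧ 1 ≤ D0 v + G.lap φ v := by
  classical
  obtain ⟨v0⟩ := G.nonempty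
  obtain ⟨E0, hE0, φ0, hφ0⟩ := hD v0
  refine ⟨fun u => E0 u + if u = v0 then 1 else 0, ?_, ?_, ?_⟩
  · intro v
    have := hE0 v
    show 0 ≤ E0 v + if v = v0 then 1 else 0
    split_ifs <;> omega
  · have h1 : ∀ u, (E0 u + if u = v0 then 1 else 0) = D u - G.lap φ0 u := by
      intro u
      rw [hφ0 u]; ring
    rw [Finset.sum_congr rfl (fun u _ => h1 u), Finset.sum_sub_distrib, G.sum_lap]
    ring
  · intro v
    obtain ⟨E, hE, φ, hφ⟩ := hD v
    have h1 : ∀ u, (E0 u + if u = v0 then 1 else 0) + G.lap (fun u => φ0 u - φ u) u =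
        E u + if u = v then 1 else 0 := by
      intro u
      rw [G.lap_sub, hφ0 u, hφ u]; ring
    refine ⟨fun u => φ0 u - φ u, ?_, ?_⟩
    · intro u
      rw [h1]
      have := hE u
      split_ifs <;> omega
    · rw [h1]
      have := hE v
      simp
      omega

/-- Potentials do not change along thick bundles of edges. -/
theorem thick {D0 : G.V → ℤ} (h0 : ∀ v, 0 ≤ D0 v) {φ : G.V → ℤ}
    (hφ : ∀ v, 0 ≤ D0 v + G.lap φ v) {T : ℕ} (hT : ∑ v, D0 v < T) {u w : G.V}
    (g : Fin T → G.E) (hg : Function.Injective g) (hgu : ∀ k, G.src (g k) = u)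
    (hgw : ∀ k, G.tgt (g k) = w) : φ u = φ w := by
  classical
  by_contra hne
  set θ := max (φ u) (φ w) with hθ
  set W : G.V → ℤ := fun x => if θ ≤ φ x then 1 else 0 with hW
  have h1 := G.wsum_lap W φ
  have hterm : ∀ e, 0 ≤ (W (G.src e) - W (G.tgt e)) * (φ (G.src e) - φ (G.tgt e)) := by
    intro e
    simp only [hW]
    by_cases ha : θ ≤ φ (G.src e)
    · by_cases hb : θ ≤ φ (G.tgt e)
      · simp [ha, hb]
      · push Not at hb
        simp only [ha, not_le.2 hb, if_true, if_false]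
        nlinarith
    · by_cases hb : θ ≤ φ (G.tgt e)
      · push Not at ha
        simp only [not_le.2 ha, hb, if_true, if_false]
        nlinarith
      · simp [ha, hb]
  have hone : ∀ k, 1 ≤ (W (G.src (g k)) - W (G.tgt (g k))) *
      (φ (G.src (g k)) - φ (G.tgt (g k))) := by
    intro k
    rw [hgu k, hgw k]
    simp only [hW]
    rcases lt_or_gt_of_ne hne with h | h
    · have e1 : θ = φ w := max_eq_right h.le
      rw [e1]
      simp only [not_le.2 h, le_refl, if_true, if_false]
      omega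
    · have e1 : θ = φ u := max_eq_left h.le
      rw [e1]
      simp only [not_le.2 h, le_refl, if_true, if_false]
      omega
  have h2 : (T : ℤ) ≤ ∑ e, (W (G.src e) - W (G.tgt e)) * (φ (G.src e) - φ (G.tgt e)) := by
    calc (T : ℤ) = ∑ _k : Fin T, (1 : ℤ) := by simp
      _ ≤ ∑ k : Fin T, (W (G.src (g k)) - W (G.tgt (g k))) *
          (φ (G.src (g k)) - φ (G.tgt (g k))) := Finset.sum_le_sum (fun k _ => hone k)
      _ = ∑ e ∈ Finset.univ.image g, (W (G.src e) - W (G.tgt e)) *
          (φ (G.src e) - φ (G.tgt e)) := by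
          rw [Finset.sum_image (fun a _ b _ h => hg h)]
      _ ≤ _ := Finset.sum_le_sum_of_subset_of_nonneg (Finset.subset_univ _)
          (fun e _ _ => hterm e)
  have h3 : ∑ v, W v * G.lap φ v ≤ ∑ v, D0 v := by
    have h4 : ∀ v, W v * G.lap φ v ≤ D0 v + G.lap φ v := by
      intro v
      simp only [hW]
      have := h0 v
      have := hφ v
      split_ifs
      · linarith
      · linarith
    calc _ ≤ ∑ v, (D0 v + G.lap φ v) := Finset.sum_le_sum (fun v _ => h4 v)
      _ = ∑ v, D0 v := by rw [Finset.sum_add_distrib, G.sum_lap, add_zero]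
  linarith

/-- The set defining the gonality of a finite graph is nonempty. -/
theorem dgon_mem : ∃ D : G.V → ℤ, ∑ v, D v = (G.dgon : ℤ) ∧ G.RankPos D := by
  classical
  refine Nat.sInf_mem (s := {d : ℕ | ∃ D : G.V → ℤ, ∑ v, D v = (d : ℤ) ∧ G.RankPos D})
    ⟨Fintype.card G.V, fun _ => 1, by simp, fun v => ?_⟩
  refine ⟨fun u => 1 - if u = v then 1 else 0, fun u => ?_, fun _ => 0, fun u => ?_⟩
  · show 0 ≤ 1 - if u = v then 1 else 0
    split_ifs <;> norm_num
  · rw [G.lap_zero]; ring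

end MGraph

end Pool.Agent.H44.Gon
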