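import Pool.Agent.H44.Gon.LowerB

set_option autoImplicit false

namespace Pool.Agent.H44.Gon

section lowerC

variable {m r L κ T : ℕ} [NeZero r] (hκ : 0 < κ) (hT : 0 < T)
variable {D0 : Vx m r L → ℤ}

open Classical in
theorem grp_total (v : Vx m r L) : ∑ c : Fin L, ∑ P ∈ Finset.univ.filter
    (fun P : Wd L r => trunc c P = P), grp c P v ≤
    match v with
    | Sum.inl _ => 1
    | Sum.inr (Sum.inl _) => 1
    | Sum.inr (Sum.inr _) => 0 := by
  have hconv : ∀ (Q : Fin L → Wd L r → Prop) [∀ c P, Decidable (Q c P)],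
      ∑ c : Fin L, ∑ P ∈ Finset.univ.filter (fun P : Wd L r => trunc c P = P),
        (if Q c P then (1 : ℤ) else 0) =
      ((Finset.univ.filter (fun q : Fin L × Wd L r => trunc q.1 q.2 = q.2 ∧ Q q.1 q.2)).card : ℤ) := by
    intro Q _
    rw [Finset.card_filter]
    push_cast
    rw [Fintype.sum_prod_type]
    refine Finset.sum_congr rfl (fun c _ => ?_)
    rw [Finset.sum_filter]
    refine Finset.sum_congr rfl (fun P _ => ?_)
    by_cases h1 : trunc (c : ℕ) P = P
    · by_cases h2 : Q c P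
      · simp [h1, h2]
      · simp [h2]
    · simp [h1]
  rcases v with n | n | p
  · have h1 : ∑ c : Fin L, ∑ P ∈ Finset.univ.filter (fun P : Wd L r => trunc c P = P),
        grp (m := m) c P (Sum.inl n) = ∑ c : Fin L, ∑ P ∈ Finset.univ.filter
          (fun P : Wd L r => trunc c P = P), (if n = nd c P then (1 : ℤ) else 0) := rfl
    rw [h1, hconv (fun c P => n = nd c P)]
    have : (Finset.univ.filter (fun q : Fin L × Wd L r => trunc q.1 q.2 = q.2 ∧
        n = nd q.1 q.2)).card ≤ 1 := by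
      rw [Finset.card_le_one]
      rintro ⟨c, P⟩ h2 ⟨c', P'⟩ h3
      simp only [Finset.mem_filter, Finset.mem_univ, true_and] at h2 h3
      obtain ⟨h4, h5⟩ := h2
      obtain ⟨h6, h7⟩ := h3
      rw [h5, nd_eq_iff] at h7
      have h8 := c.2
      have h9 := c'.2
      have h10 : (c : ℕ) = c' := by omega
      have h11 : P = P' := by
        rw [← h4, ← h6, ← h10, trunc_eq_iff]
        exact h7.2
      rw [h11, Fin.ext h10]
    show (_ : ℤ) ≤ 1
    exact_mod_cast this
  · have h1 : ∑ c : Fin L, ∑ P ∈ Finset.univ.filter (fun P : Wd L r => trunc c P = P),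
        grp (m := m) c P (Sum.inr (Sum.inl n)) = ∑ c : Fin L, ∑ P ∈ Finset.univ.filter
          (fun P : Wd L r => trunc c P = P), (if (n.1.1 : ℕ) = c + 1 ∧
            trunc c n.1.2 = trunc c P then (1 : ℤ) else 0) := rfl
    rw [h1, hconv (fun c P => (n.1.1 : ℕ) = c + 1 ∧ trunc c n.1.2 = trunc c P)]
    have : (Finset.univ.filter (fun q : Fin L × Wd L r => trunc q.1 q.2 = q.2 ∧
        ((n.1.1 : ℕ) = q.1 + 1 ∧ trunc q.1 n.1.2 = trunc q.1 q.2))).card ≤ 1 := by
      rw [Finset.card_le_one]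
      rintro ⟨c, P⟩ h2 ⟨c', P'⟩ h3
      simp only [Finset.mem_filter, Finset.mem_univ, true_and] at h2 h3
      obtain ⟨h4, h5, h5'⟩ := h2
      obtain ⟨h6, h7, h7'⟩ := h3
      have h10 : (c : ℕ) = c' := by omega
      have h11 : P = P' := by
        rw [← h4, ← h6, ← h10, ← h5', h10, ← h7', ← h10]
      rw [h11, Fin.ext h10]
    show (_ : ℤ) ≤ 1
    exact_mod_cast this
  · have h1 : ∑ c : Fin L, ∑ P ∈ Finset.univ.filter (fun P : Wd L r => trunc c P = P),
        grp (m := m) c P (Sum.inr (Sum.inr p)) = ∑ c : Fin L, ∑ P ∈ Finset.univ.filter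
          (fun P : Wd L r => trunc c P = P), (0 : ℤ) := rfl
    rw [h1]
    simp

theorem sum_Sc_le (h0 : ∀ v, 0 ≤ D0 v) :
    ∑ c : Fin L, Sc D0 c ≤ ∑ n : Node L r, D0 (vH n) + ∑ n : Node L r, D0 (vB n) := by
  classical
  have h1 : ∑ c : Fin L, Sc D0 c = ∑ v, (∑ c : Fin L, ∑ P ∈ Finset.univ.filter
    (fun P : Wd L r => trunc c P = P), grp c P v) * D0 v := by
    unfold Sc
    simp only [Finset.sum_mul]
    rw [Finset.sum_comm' (s := Finset.univ) (t := fun _ => Finset.univ)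
      (s' := fun _ => Finset.univ) (t' := Finset.univ) (by simp)]
    refine Finset.sum_congr rfl (fun c _ => ?_)
    rw [Finset.sum_comm]
  have h2 : ∑ v : Vx m r L, (∑ c : Fin L, ∑ P ∈ Finset.univ.filter
    (fun P : Wd L r => trunc c P = P), grp c P v) * D0 v =
      ∑ n : Node L r, (∑ c : Fin L, ∑ P ∈ Finset.univ.filter
    (fun P : Wd L r => trunc c P = P), grp (m := m) c P (vH n)) * D0 (vH n) +
      (∑ n : Node L r, (∑ c : Fin L, ∑ P ∈ Finset.univ.filter
    (fun P : Wd L r => trunc c P = P), grp (m := m) c P (vB n)) * D0 (vB n) +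
      ∑ p : MIdx m r L × Bool, (∑ c : Fin L, ∑ P ∈ Finset.univ.filter
    (fun P : Wd L r => trunc c P = P), grp (m := m) c P (Sum.inr (Sum.inr p))) *
        D0 (Sum.inr (Sum.inr p))) := by
    rw [Fintype.sum_sum_type, Fintype.sum_sum_type]
    rfl
  rw [h1, h2]
  have e1 : ∑ n : Node L r, (∑ c : Fin L, ∑ P ∈ Finset.univ.filter
    (fun P : Wd L r => trunc c P = P), grp (m := m) c P (vH n)) * D0 (vH n) ≤
      ∑ n : Node L r, D0 (vH n) := by
    refine Finset.sum_le_sum (fun n _ => ?_)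
    have := grp_total (m := m) (Sum.inl n)
    have h3 := h0 (vH n)
    have h4 : (∑ c : Fin L, ∑ P ∈ Finset.univ.filter
      (fun P : Wd L r => trunc c P = P), grp (m := m) c P (vH n)) ≤ 1 := this
    nlinarith
  have e2 : ∑ n : Node L r, (∑ c : Fin L, ∑ P ∈ Finset.univ.filter
    (fun P : Wd L r => trunc c P = P), grp (m := m) c P (vB n)) * D0 (vB n) ≤
      ∑ n : Node L r, D0 (vB n) := by
    refine Finset.sum_le_sum (fun n _ => ?_)
    have := grp_total (m := m) (Sum.inr (Sum.inl n))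
    have h3 := h0 (vB n)
    have h4 : (∑ c : Fin L, ∑ P ∈ Finset.univ.filter
      (fun P : Wd L r => trunc c P = P), grp (m := m) c P (vB n)) ≤ 1 := this
    nlinarith
  have e3 : ∑ p : MIdx m r L × Bool, (∑ c : Fin L, ∑ P ∈ Finset.univ.filter
    (fun P : Wd L r => trunc c P = P), grp (m := m) c P (Sum.inr (Sum.inr p))) *
        D0 (Sum.inr (Sum.inr p)) = 0 := by
    refine Finset.sum_eq_zero (fun p _ => ?_)
    have : (∑ c : Fin L, ∑ P ∈ Finset.univ.filter
      (fun P : Wd L r => trunc c P = P), grp (m := m) c P (Sum.inr (Sum.inr p))) = 0 := by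
      refine Finset.sum_eq_zero (fun c _ => Finset.sum_eq_zero (fun P _ => rfl))
    rw [this, zero_mul]
  rw [e3]
  linarith

open Classical in
/-- number of exceptional pairs in a window -/
noncomputable def nexc (D0 : Vx m r L → ℤ) (a : Fin m) (t : Fin L) : ℕ :=
  (Finset.univ.filter (fun p : Wd L r × Wd L r => Exc hκ hT D0 (wst m a t)
    (wst m a t + m ^ (a : ℕ)) p.1 (splice (wst m a t) p.1 p.2))).card

open Classical in
theorem nexc_le (h0 : ∀ v, 0 ≤ D0 v) (hdeg : ∑ v, D0 v < T) (a : Fin m) (t : Fin L) :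
    (κ : ℤ) * nexc hκ hT D0 a t ≤ 2 * (κ : ℤ) * (Finset.univ.filter (fun p : Wd L r × Wd L r =>
      ¬ Hit (Mov hκ hT D0) (wst m a t) (wst m a t + m ^ (a : ℕ)) p.1 ∧
      Hit (Mov hκ hT D0) (wst m a t) (wst m a t + m ^ (a : ℕ))
        (splice (wst m a t) p.1 p.2))).card +
      2 * ((Fintype.card (Wd L r) : ℤ) * ∑ c : Fin L, Sc D0 c) := by
  set j := wst m a t with hj
  set i := j + m ^ (a : ℕ) with hi
  have hsw : ∀ p : Wd L r × Wd L r, (swapTail j p).1 = splice j p.1 p.2 := fun _ => rfl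
  have hsw2 : ∀ p : Wd L r × Wd L r, splice j (swapTail j p).1 (swapTail j p).2 = p.1 := by
    intro p
    exact splice_splice j p.1 p.2
  -- the two symmetric halves
  have s1 : (Finset.univ.filter (fun p : Wd L r × Wd L r =>
      Hit (Mov hκ hT D0) j i p.1 ∧ ¬ Hit (Mov hκ hT D0) j i (splice j p.1 p.2))).card =
      (Finset.univ.filter (fun p : Wd L r × Wd L r =>
      ¬ Hit (Mov hκ hT D0) j i p.1 ∧ Hit (Mov hκ hT D0) j i (splice j p.1 p.2))).card := by
    rw [← card_swap j (fun p : Wd L r × Wd L r =>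
      ¬ Hit (Mov hκ hT D0) j i p.1 ∧ Hit (Mov hκ hT D0) j i (splice j p.1 p.2))]
    congr 1
    ext p
    simp only [Finset.mem_filter, Finset.mem_univ, true_and]
    rw [hsw2, hsw]
    exact and_comm
  have s2 : (Finset.univ.filter (fun p : Wd L r × Wd L r =>
      ∃ c, j ≤ c ∧ c < i ∧ Raised hκ hT D0 (cho hκ hT D0 j i (splice j p.1 p.2)) c p.1)).card =
      (Finset.univ.filter (fun p : Wd L r × Wd L r =>
      ∃ c, j ≤ c ∧ c < i ∧ Raised hκ hT D0 (cho hκ hT D0 j i p.1) c (splice j p.1 p.2))).card := by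
    rw [← card_swap j (fun p : Wd L r × Wd L r =>
      ∃ c, j ≤ c ∧ c < i ∧ Raised hκ hT D0 (cho hκ hT D0 j i p.1) c (splice j p.1 p.2))]
    congr 1
    ext p
    simp only [Finset.mem_filter, Finset.mem_univ, true_and]
    rw [hsw2, hsw]
  have hb := bad_count hκ hT h0 hdeg (cho hκ hT D0 j i) (cho_mem hκ hT h0 j i) j i
  have hle : nexc hκ hT D0 a t ≤
      (Finset.univ.filter (fun p : Wd L r × Wd L r =>
      ¬ Hit (Mov hκ hT D0) j i p.1 ∧ Hit (Mov hκ hT D0) j i (splice j p.1 p.2))).card +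
      (Finset.univ.filter (fun p : Wd L r × Wd L r =>
      Hit (Mov hκ hT D0) j i p.1 ∧ ¬ Hit (Mov hκ hT D0) j i (splice j p.1 p.2))).card +
      ((Finset.univ.filter (fun p : Wd L r × Wd L r =>
      ∃ c, j ≤ c ∧ c < i ∧ Raised hκ hT D0 (cho hκ hT D0 j i p.1) c (splice j p.1 p.2))).card +
      (Finset.univ.filter (fun p : Wd L r × Wd L r =>
      ∃ c, j ≤ c ∧ c < i ∧ Raised hκ hT D0 (cho hκ hT D0 j i (splice j p.1 p.2)) c p.1)).card) := by
    refine le_trans ?_ (add_le_add (Finset.card_union_le _ _) (Finset.card_union_le _ _))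
    refine le_trans ?_ (Finset.card_union_le _ _)
    apply Finset.card_le_card
    intro p hp
    rw [Finset.mem_filter] at hp
    have hp2 := hp.2
    unfold Exc at hp2
    rw [Finset.mem_union, Finset.mem_union, Finset.mem_union, Finset.mem_filter,
      Finset.mem_filter, Finset.mem_filter, Finset.mem_filter]
    rcases hp2 with h | h | h | h
    · left; left; exact ⟨Finset.mem_univ _, h⟩
    · left; right; exact ⟨Finset.mem_univ _, h⟩
    · right; left; exact ⟨Finset.mem_univ _, h⟩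
    · right; right; exact ⟨Finset.mem_univ _, h⟩
  rw [s1, s2] at hle
  have hle' : (nexc hκ hT D0 a t : ℤ) ≤
      2 * (Finset.univ.filter (fun p : Wd L r × Wd L r =>
      ¬ Hit (Mov hκ hT D0) j i p.1 ∧ Hit (Mov hκ hT D0) j i (splice j p.1 p.2))).card +
      2 * (Finset.univ.filter (fun p : Wd L r × Wd L r =>
      ∃ c, j ≤ c ∧ c < i ∧ Raised hκ hT D0 (cho hκ hT D0 j i p.1) c (splice j p.1 p.2))).card := by
    have : (nexc hκ hT D0 a t : ℤ) ≤ ((Finset.univ.filter (fun p : Wd L r × Wd L r =>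
      ¬ Hit (Mov hκ hT D0) j i p.1 ∧ Hit (Mov hκ hT D0) j i (splice j p.1 p.2))).card +
      (Finset.univ.filter (fun p : Wd L r × Wd L r =>
      ¬ Hit (Mov hκ hT D0) j i p.1 ∧ Hit (Mov hκ hT D0) j i (splice j p.1 p.2))).card +
      ((Finset.univ.filter (fun p : Wd L r × Wd L r =>
      ∃ c, j ≤ c ∧ c < i ∧ Raised hκ hT D0 (cho hκ hT D0 j i p.1) c (splice j p.1 p.2))).card +
      (Finset.univ.filter (fun p : Wd L r × Wd L r =>
      ∃ c, j ≤ c ∧ c < i ∧ Raised hκ hT D0 (cho hκ hT D0 j i p.1) c (splice j p.1 p.2))).card)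
        : ℕ) := by exact_mod_cast hle
    push_cast at this
    linarith
  have hκ' : (0 : ℤ) ≤ κ := by positivity
  have := mul_le_mul_of_nonneg_left hle' hκ'
  linarith

theorem main_lower (hm : 0 < m) (hL : L = m ^ m)
    (hκeq : κ = 2 * m * L * Fintype.card (Wd L r))
    (h0 : ∀ v, 0 ≤ D0 v) (hdeg : ∑ v, D0 v < T)
    (hcov : ∀ v, ∃ φ ∈ St hκ hT D0, 1 ≤ D0 v + lp hκ hT φ v) :
    2 * (Fintype.card (MIdx m r L) : ℤ) ≤ ∑ v, D0 v + 4 * L * (Fintype.card (Wd L r)) ^ 2 := by
  classical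
  -- total degree
  have htot : ∑ v, D0 v = (∑ n : Node L r, D0 (vH n) + ∑ n : Node L r, D0 (vB n)) +
      ∑ μ : MIdx m r L, (D0 (vX μ false) + D0 (vX μ true)) := by
    rw [Fintype.sum_sum_type, Fintype.sum_sum_type, Fintype.sum_prod_type, ← add_assoc]
    congr 1
    refine Finset.sum_congr rfl (fun μ _ => ?_)
    rw [Fintype.sum_bool]
    exact add_comm _ _
  have hS := sum_Sc_le h0
  -- exceptional crossing edges
  have hge : ∀ μ : MIdx m r L, 2 - (if D0 (vX μ false) + D0 (vX μ true) = 1 then (1 : ℤ) else 0) ≤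
      D0 (vX μ false) + D0 (vX μ true) := by
    intro μ
    have := cover_ge_one hκ hT h0 hdeg hcov μ
    split_ifs with h
    · omega
    · omega
  have hsum := Finset.sum_le_sum (s := (Finset.univ : Finset (MIdx m r L))) (fun μ _ => hge μ)
  rw [Finset.sum_sub_distrib, Finset.sum_const, Finset.card_univ] at hsum
  have hcard : (∑ μ : MIdx m r L, if D0 (vX μ false) + D0 (vX μ true) = 1 then (1 : ℤ) else 0) =
      ((Finset.univ.filter (fun μ : MIdx m r L =>
        D0 (vX μ false) + D0 (vX μ true) = 1)).card : ℤ) := by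
    rw [Finset.card_filter]; push_cast; rfl
  have hinj : (Finset.univ.filter (fun μ : MIdx m r L =>
        D0 (vX μ false) + D0 (vX μ true) = 1)).card ≤ ∑ a : Fin m, ∑ t : Fin L,
        nexc hκ hT D0 a t := by
    have h1 : ∑ a : Fin m, ∑ t : Fin L, nexc hκ hT D0 a t =
        (Finset.univ.filter (fun q : Fin m × Fin L × Wd L r × Wd L r =>
          Exc hκ hT D0 (wst m q.1 q.2.1) (wst m q.1 q.2.1 + m ^ (q.1 : ℕ)) q.2.2.1
            (splice (wst m q.1 q.2.1) q.2.2.1 q.2.2.2))).card := by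
      unfold nexc
      simp only [Finset.card_filter]
      rw [Fintype.sum_prod_type]
      refine Finset.sum_congr rfl (fun a _ => ?_)
      rw [Fintype.sum_prod_type]
    rw [h1]
    refine Finset.card_le_card_of_injOn (fun μ => μ.1) ?_ (fun a _ b _ h => Subtype.ext h)
    intro μ hμ
    have hμ' := (Finset.mem_filter.1 hμ).2
    refine Finset.mem_coe.2 (Finset.mem_filter.2 ⟨Finset.mem_univ _, ?_⟩)
    exact cover_one_exc hκ hT h0 hdeg hcov μ hμ'
  -- counting
  have hcount : (κ : ℤ) * (∑ a : Fin m, ∑ t : Fin L, nexc hκ hT D0 a t : ℕ) ≤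
      κ * (4 * L * (Fintype.card (Wd L r)) ^ 2) + κ * ∑ c : Fin L, Sc D0 c := by
    have h1 : (κ : ℤ) * (∑ a : Fin m, ∑ t : Fin L, nexc hκ hT D0 a t : ℕ) ≤
        ∑ a : Fin m, ∑ t : Fin L, (2 * (κ : ℤ) * (Finset.univ.filter
          (fun p : Wd L r × Wd L r =>
          ¬ Hit (Mov hκ hT D0) (wst m a t) (wst m a t + m ^ (a : ℕ)) p.1 ∧
          Hit (Mov hκ hT D0) (wst m a t) (wst m a t + m ^ (a : ℕ))
            (splice (wst m a t) p.1 p.2))).card +
          2 * ((Fintype.card (Wd L r) : ℤ) * ∑ c : Fin L, Sc D0 c)) := by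
      push_cast
      rw [Finset.mul_sum]
      refine Finset.sum_le_sum (fun a _ => ?_)
      rw [Finset.mul_sum]
      exact Finset.sum_le_sum (fun t _ => nexc_le hκ hT h0 hdeg a t)
    refine h1.trans ?_
    simp only [Finset.sum_add_distrib]
    have h2 := count_exact (L := L) (r := r) hm hL (Mov hκ hT D0)
      (fun c x x' h hM => Mov.congr hκ hT h hM)
    have h3 : ∑ a : Fin m, ∑ t : Fin L, (2 * (κ : ℤ) * (Finset.univ.filter
          (fun p : Wd L r × Wd L r =>
          ¬ Hit (Mov hκ hT D0) (wst m a t) (wst m a t + m ^ (a : ℕ)) p.1 ∧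
          Hit (Mov hκ hT D0) (wst m a t) (wst m a t + m ^ (a : ℕ))
            (splice (wst m a t) p.1 p.2))).card) =
          2 * (κ : ℤ) * (∑ a : Fin m, ∑ t : Fin L, (Finset.univ.filter
          (fun p : Wd L r × Wd L r =>
          ¬ Hit (Mov hκ hT D0) (wst m a t) (wst m a t + m ^ (a : ℕ)) p.1 ∧
          Hit (Mov hκ hT D0) (wst m a t) (wst m a t + m ^ (a : ℕ))
            (splice (wst m a t) p.1 p.2))).card : ℕ) := by
      push_cast
      rw [Finset.mul_sum]
      refine Finset.sum_congr rfl (fun a _ => ?_)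
      rw [Finset.mul_sum]
    rw [h3]
    have h4 : 2 * (κ : ℤ) * (∑ a : Fin m, ∑ t : Fin L, (Finset.univ.filter
          (fun p : Wd L r × Wd L r =>
          ¬ Hit (Mov hκ hT D0) (wst m a t) (wst m a t + m ^ (a : ℕ)) p.1 ∧
          Hit (Mov hκ hT D0) (wst m a t) (wst m a t + m ^ (a : ℕ))
            (splice (wst m a t) p.1 p.2))).card : ℕ) ≤
          2 * (κ : ℤ) * (2 * L * (Fintype.card (Wd L r)) ^ 2 : ℕ) :=
      mul_le_mul_of_nonneg_left (by exact_mod_cast h2) (by positivity)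
    have h5 : ∑ _a : Fin m, ∑ _t : Fin L, 2 * ((Fintype.card (Wd L r) : ℤ) *
        ∑ c : Fin L, Sc D0 c) = κ * ∑ c : Fin L, Sc D0 c := by
      rw [Finset.sum_const, Finset.sum_const, Finset.card_univ, Finset.card_univ,
        Fintype.card_fin, Fintype.card_fin, hκeq]
      simp only [nsmul_eq_mul]
      push_cast
      ring
    rw [h5]
    have e6 : ((2 * L * (Fintype.card (Wd L r)) ^ 2 : ℕ) : ℤ) =
        2 * L * (Fintype.card (Wd L r) : ℤ) ^ 2 := by push_cast; ring
    rw [e6] at h4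
    linarith
  have hκpos : (0 : ℤ) < κ := by exact_mod_cast hκ
  have hcount' : ((∑ a : Fin m, ∑ t : Fin L, nexc hκ hT D0 a t : ℕ) : ℤ) ≤
      4 * L * (Fintype.card (Wd L r)) ^ 2 + ∑ c : Fin L, Sc D0 c := by
    have : (κ : ℤ) * (∑ a : Fin m, ∑ t : Fin L, nexc hκ hT D0 a t : ℕ) ≤
      κ * (4 * L * (Fintype.card (Wd L r)) ^ 2 + ∑ c : Fin L, Sc D0 c) := by
      rw [mul_add]; exact hcount
    exact le_of_mul_le_mul_left this hκpos
  have hinj' : (((Finset.univ.filter (fun μ : MIdx m r L =>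
        D0 (vX μ false) + D0 (vX μ true) = 1)).card : ℕ) : ℤ) ≤
        ((∑ a : Fin m, ∑ t : Fin L, nexc hκ hT D0 a t : ℕ) : ℤ) := by exact_mod_cast hinj
  rw [hcard] at hsum
  rw [htot]
  simp only [nsmul_eq_mul] at hsum
  push_cast at hsum ⊢
  linarith

/-- The lower bound for the gonality of the finite graph. -/
theorem dgon_theGraph (hm : 0 < m) (hL : L = m ^ m)
    (hκeq : κ = 2 * m * L * Fintype.card (Wd L r))
    (hTeq : T = 2 * Fintype.card (MIdx m r L) + 1) :
    2 * (Fintype.card (MIdx m r L) : ℤ) ≤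
      (theGraph m r L κ T hκ hT).dgon + 4 * L * (Fintype.card (Wd L r)) ^ 2 := by
  classical
  obtain ⟨D, hD, hrank⟩ := (theGraph m r L κ T hκ hT).dgon_mem
  obtain ⟨D0, h0, hsum, hcov⟩ := (theGraph m r L κ T hκ hT).exists_eff hrank
  have hsum' : ∑ v : Vx m r L, (D0 : Vx m r L → ℤ) v = ((theGraph m r L κ T hκ hT).dgon : ℤ) :=
    hsum.trans hD
  by_cases hlt : ∑ v : Vx m r L, (D0 : Vx m r L → ℤ) v < T
  · have h := main_lower (D0 := D0) hκ hT hm hL hκeq h0 hlt (fun v => by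
      obtain ⟨φ, h1, h2⟩ := hcov v
      exact ⟨φ, h1, h2⟩)
    rw [hsum'] at h
    exact h
  · push Not at hlt
    have hT' : (T : ℤ) = 2 * (Fintype.card (MIdx m r L) : ℤ) + 1 := by rw [hTeq]; push_cast; ring
    rw [hsum', hT'] at hlt
    have : (0 : ℤ) ≤ 4 * L * (Fintype.card (Wd L r)) ^ 2 := by positivity
    linarith

end lowerC

end Pool.Agent.H44.Gon
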