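import Pool.Agent.H44.Gon.MetricF
import Pool.Agent.H44.Gon.LowerC

set_option autoImplicit false

namespace Pool.Agent.H44.Gon

/-- The graphs whose ratio of gonalities is close to two. -/
theorem ratio_close (m : ℕ) (hm : 2 ≤ m) : ∃ G : MGraph, ∃ M Y : ℕ, 0 < Y ∧ m * Y ≤ 2 * M ∧
    2 * M ≤ G.dgon + 4 * Y ∧ G.dgonMetric ≤ M + Y := by
  have hm0 : 0 < m := by omega
  obtain ⟨L, hL⟩ : ∃ L : ℕ, L = m ^ m := ⟨_, rfl⟩
  have hL1 : 1 ≤ L := by rw [hL]; exact Nat.pow_pos hm0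
  obtain ⟨r, hr⟩ : ∃ r : ℕ, r = 4 * m * L := ⟨_, rfl⟩
  have hr8 : 8 ≤ r := by
    rw [hr]
    calc 8 = 4 * 2 * 1 := by norm_num
      _ ≤ 4 * m * L := Nat.mul_le_mul (Nat.mul_le_mul_left _ hm) hL1
  have : NeZero r := ⟨by omega⟩
  have hcard : Fintype.card (Wd L r) = r ^ L := by simp [Wd]
  obtain ⟨κ, hκe⟩ : ∃ κ : ℕ, κ = 2 * m * L * Fintype.card (Wd L r) := ⟨_, rfl⟩
  obtain ⟨T, hTe⟩ : ∃ T : ℕ, T = 2 * Fintype.card (MIdx m r L) + 1 := ⟨_, rfl⟩
  have hrL : 0 < r ^ L := Nat.pow_pos (by omega)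
  have hκ : 0 < κ := by
    rw [hκe, hcard]
    positivity
  have hT : 0 < T := by omega
  have hpow : r ^ L = r * r ^ (L - 1) := by
    rw [← pow_succ']
    congr 1
    omega
  have h1 := dgon_theGraph (m := m) (r := r) (L := L) hκ hT hm0 hL hκe hTe
  have h2 := dgonMetric_theGraph (m := m) (r := r) (L := L) hκ hT
  have h3 := card_MIdx m r L
  rw [hcard] at h1
  refine ⟨theGraph m r L κ T hκ hT, Fintype.card (MIdx m r L), L * r ^ L * r ^ L,
    by positivity, ?_, ?_, ?_⟩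
  · have h4 : 2 * (m * L * r ^ L * r ^ (L - 1)) ≤ m * L * r ^ L * r ^ L := by
      calc 2 * (m * L * r ^ L * r ^ (L - 1)) = m * L * r ^ L * (2 * r ^ (L - 1)) := by ring
        _ ≤ m * L * r ^ L * (r * r ^ (L - 1)) :=
            Nat.mul_le_mul_left _ (Nat.mul_le_mul_right _ (by omega))
        _ = m * L * r ^ L * r ^ L := by rw [← hpow]
    have h5 : m * (L * r ^ L * r ^ L) = m * L * r ^ L * r ^ L := by ring
    omega
  · have h4 : (2 * (Fintype.card (MIdx m r L) : ℤ)) ≤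
        ((theGraph m r L κ T hκ hT).dgon : ℤ) + 4 * ((L * r ^ L * r ^ L : ℕ) : ℤ) := by
      refine h1.trans (le_of_eq ?_)
      push_cast
      ring
    exact_mod_cast h4
  · refine h2.trans ?_
    have h4 : 2 * (L * (κ * r ^ (L - 1))) = L * r ^ L * r ^ L := by
      rw [hκe, hcard]
      calc 2 * (L * (2 * m * L * r ^ L * r ^ (L - 1))) =
            L * r ^ L * ((4 * m * L) * r ^ (L - 1)) := by ring
        _ = L * r ^ L * r ^ L := by rw [← hr, ← hpow]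
    have h5 : 2 * (r ^ L + (L + 1) * r ^ L) ≤ L * r ^ L * r ^ L := by
      have h6 : 8 ≤ r ^ L := by
        rw [hpow]
        calc 8 ≤ r := hr8
          _ = r * 1 := (mul_one r).symm
          _ ≤ r * r ^ (L - 1) := Nat.mul_le_mul_left _ (Nat.pow_pos (by omega))
      calc 2 * (r ^ L + (L + 1) * r ^ L) = (2 * L + 4) * r ^ L := by ring
        _ ≤ (L * r ^ L) * r ^ L := by
            refine Nat.mul_le_mul_right _ ?_
            calc 2 * L + 4 ≤ L * 8 := by omega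
              _ ≤ L * r ^ L := Nat.mul_le_mul_left _ h6
        _ = L * r ^ L * r ^ L := by ring
    omega

/-- No constant below two works. -/
theorem two_le_of_bound {c : ℝ}
    (hc : ∀ G : MGraph, (G.dgon : ℝ) ≤ c * (G.dgonMetric : ℝ)) : 2 ≤ c := by
  by_contra hlt
  push Not at hlt
  obtain ⟨c', hc1, hc2, hc3⟩ : ∃ c' : ℝ, c ≤ c' ∧ 0 ≤ c' ∧ c' < 2 :=
    ⟨max c 0, le_max_left _ _, le_max_right _ _, max_lt hlt (by norm_num)⟩
  have hδ : 0 < 2 - c' := by linarith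
  obtain ⟨n, hn⟩ := exists_nat_gt (12 / (2 - c'))
  obtain ⟨G, M, Y, hY, hmY, h1, h2⟩ := ratio_close (max n 2) (le_max_right _ _)
  have h3 := hc G
  have hn' : 12 / (2 - c') < ((max n 2 : ℕ) : ℝ) :=
    lt_of_lt_of_le hn (by exact_mod_cast le_max_left _ _)
  rw [div_lt_iff₀ hδ] at hn'
  have hY' : (0 : ℝ) < Y := by exact_mod_cast hY
  have hmY' : ((max n 2 : ℕ) : ℝ) * Y ≤ 2 * M := by exact_mod_cast hmY
  have h1' : (2 : ℝ) * M ≤ G.dgon + 4 * Y := by exact_mod_cast h1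
  have h2' : (G.dgonMetric : ℝ) ≤ M + Y := by exact_mod_cast h2
  have h4 : c * (G.dgonMetric : ℝ) ≤ c' * (M + Y) := by
    calc c * (G.dgonMetric : ℝ) ≤ c' * G.dgonMetric :=
          mul_le_mul_of_nonneg_right hc1 (by positivity)
      _ ≤ c' * (M + Y) := mul_le_mul_of_nonneg_left h2' hc2
  have h5 : c' * Y ≤ 2 * Y := mul_le_mul_of_nonneg_right hc3.le hY'.le
  have h6 : (2 - c') * M ≤ 6 * Y := by
    have : 2 * (M : ℝ) - 4 * Y ≤ c' * M + 2 * Y := by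
      calc 2 * (M : ℝ) - 4 * Y ≤ G.dgon := by linarith
        _ ≤ c' * (M + Y) := h3.trans h4
        _ = c' * M + c' * Y := by ring
        _ ≤ c' * M + 2 * Y := by linarith
    linarith
  have h7 : (2 - c') * (((max n 2 : ℕ) : ℝ) * Y) ≤ (2 - c') * (2 * M) :=
    mul_le_mul_of_nonneg_left hmY' hδ.le
  have h8 : 12 * (Y : ℝ) < ((max n 2 : ℕ) : ℝ) * (2 - c') * Y :=
    mul_lt_mul_of_pos_right hn' hY'
  linarith [h7, h8, h6, mul_comm (2 - c') (((max n 2 : ℕ) : ℝ) * Y)]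

end Pool.Agent.H44.Gon
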