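import Mathlib

set_option autoImplicit false

namespace Pool.Agent.H44.Gon

/-- words of length `L` over an alphabet with `r` letters -/
abbrev Wd (L r : ℕ) : Type := Fin L → Fin r

variable {L r : ℕ}

/-- the word with the first `j` letters of `x` and the remaining letters of `y` -/
def splice (j : ℕ) (x y : Wd L r) : Wd L r := fun n => if n.val < j then x n else y n

theorem splice_lt {j : ℕ} {x y : Wd L r} {n : Fin L} (h : n.val < j) : splice j x y n = x n := by
  unfold splice; rw [if_pos h]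

theorem splice_ge {j : ℕ} {x y : Wd L r} {n : Fin L} (h : j ≤ n.val) : splice j x y n = y n := by
  unfold splice; rw [if_neg (not_lt.2 h)]

theorem splice_splice (j : ℕ) (x y : Wd L r) : splice j (splice j x y) (splice j y x) = x := by
  funext n
  unfold splice
  split_ifs <;> rfl

/-- exchange of tails -/
def swapTail (j : ℕ) : Wd L r × Wd L r → Wd L r × Wd L r :=
  fun p => (splice j p.1 p.2, splice j p.2 p.1)

theorem swapTail_swapTail (j : ℕ) (p : Wd L r × Wd L r) : swapTail j (swapTail j p) = p := by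
  rcases p with ⟨x, y⟩
  simp only [swapTail, splice_splice]

/-- exchange of tails as a permutation -/
def swapEquiv (j : ℕ) : (Wd L r × Wd L r) ≃ (Wd L r × Wd L r) where
  toFun := swapTail j
  invFun := swapTail j
  left_inv := swapTail_swapTail j
  right_inv := swapTail_swapTail j

theorem card_swap (j : ℕ) (P : Wd L r × Wd L r → Prop) [DecidablePred P]
    [DecidablePred fun p => P (swapTail j p)] :
    (Finset.univ.filter (fun p => P (swapTail j p))).card = (Finset.univ.filter P).card := by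
  refine Finset.card_bij (fun p _ => swapTail j p) ?_ ?_ ?_
  · intro p hp
    simpa using hp
  · intro p _ q _ h
    have := congrArg (swapTail j) h
    rwa [swapTail_swapTail, swapTail_swapTail] at this
  · intro q hq
    refine ⟨swapTail j q, ?_, swapTail_swapTail j q⟩
    simp only [Finset.mem_filter, Finset.mem_univ, true_and, swapTail_swapTail]
    simpa using hq

/-- start of the window of scale `a` containing `t` -/
def wst (m a t : ℕ) : ℕ := m ^ a * (t / m ^ a)

theorem wst_le (m a t : ℕ) : wst m a t ≤ t := Nat.mul_div_le t (m ^ a)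

theorem lt_wst_add {m : ℕ} (hm : 0 < m) (a t : ℕ) : t < wst m a t + m ^ a := by
  have h := Nat.div_add_mod t (m ^ a)
  have h2 := Nat.mod_lt t (Nat.pow_pos (n := a) hm)
  unfold wst
  omega

theorem wst_succ_le {m : ℕ} (hm : 0 < m) (a t : ℕ) : wst m (a + 1) t ≤ wst m a t := by
  unfold wst
  have h1 : t / m ^ (a + 1) = t / m ^ a / m := by
    rw [pow_succ, Nat.div_div_eq_div_mul]
  rw [h1, pow_succ, mul_assoc]
  exact Nat.mul_le_mul_left _ (Nat.mul_div_le _ _)

theorem wst_end_le {m : ℕ} (hm : 0 < m) (a t : ℕ) :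
    wst m a t + m ^ a ≤ wst m (a + 1) t + m ^ (a + 1) := by
  unfold wst
  have h1 : t / m ^ (a + 1) = t / m ^ a / m := by
    rw [pow_succ, Nat.div_div_eq_div_mul]
  have h2 : t / m ^ a < m * (t / m ^ a / m) + m := by
    have h := Nat.div_add_mod (t / m ^ a) m
    have h2 := Nat.mod_lt (t / m ^ a) hm
    omega
  rw [h1, pow_succ, mul_assoc]
  have : m ^ a * (t / m ^ a) + m ^ a = m ^ a * (t / m ^ a + 1) := by ring
  rw [this, ← Nat.mul_add]
  exact Nat.mul_le_mul_left _ (by omega)

/-- there is a marked letter position in `[i, j)` -/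
def Hit (Mov : ℕ → Wd L r → Prop) (i j : ℕ) (x : Wd L r) : Prop := ∃ c, i ≤ c ∧ c < j ∧ Mov c x

theorem Hit.mono {Mov : ℕ → Wd L r → Prop} {i j i' j' : ℕ} (h1 : i' ≤ i) (h2 : j ≤ j')
    {x : Wd L r} (h : Hit Mov i j x) : Hit Mov i' j' x := by
  obtain ⟨c, hc1, hc2, hc3⟩ := h
  exact ⟨c, h1.trans hc1, lt_of_lt_of_le hc2 h2, hc3⟩

open Classical in
/-- For a fixed word, few times `t` have the first mark of the big window in the small window. -/
theorem card_first {m : ℕ} (hm : 0 < m) (a : ℕ) (ha : a < m) (hL : L = m ^ m)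
    (Mov : ℕ → Wd L r → Prop) (z : Wd L r) :
    (Finset.univ.filter (fun t : Fin L => ¬ Hit Mov (wst m (a + 1) t) (wst m a t) z ∧
      Hit Mov (wst m a t) (wst m a t + m ^ a) z)).card ≤ m ^ (m - 1) := by
  have hcard : (Finset.range (m ^ (m - 1))).card = m ^ (m - 1) := Finset.card_range _
  rw [← hcard]
  refine Finset.card_le_card_of_injOn
    (fun t : Fin L => (t.val / m ^ (a + 1)) * m ^ a + t.val % m ^ a) ?_ ?_
  · intro t _
    rw [Finset.mem_coe, Finset.mem_range]
    have h1 : t.val / m ^ (a + 1) < m ^ (m - 1 - a) := by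
      rw [Nat.div_lt_iff_lt_mul (Nat.pow_pos hm), ← pow_add]
      have : m - 1 - a + (a + 1) = m := by omega
      rw [this, ← hL]
      exact t.2
    have h2 : t.val % m ^ a < m ^ a := Nat.mod_lt _ (Nat.pow_pos hm)
    have h3 : m ^ (m - 1) = m ^ (m - 1 - a) * m ^ a := by
      rw [← pow_add]; congr 1; omega
    rw [h3]
    calc (t.val / m ^ (a + 1)) * m ^ a + t.val % m ^ a
        < (t.val / m ^ (a + 1)) * m ^ a + m ^ a := by omega
      _ = (t.val / m ^ (a + 1) + 1) * m ^ a := by ring
      _ ≤ m ^ (m - 1 - a) * m ^ a := Nat.mul_le_mul_right _ h1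
  · intro t ht t' ht' h
    simp only [Finset.coe_filter, Finset.mem_univ, true_and, Set.mem_ofPred_eq] at ht ht'
    have hpos : 0 < m ^ a := Nat.pow_pos hm
    have hmod : t.val % m ^ a = t'.val % m ^ a := by
      have h' := congrArg (fun u => u % m ^ a) h
      simpa [Nat.mul_add_mod_of_lt, Nat.add_mod, Nat.mul_mod] using h'
    have hdiv : t.val / m ^ (a + 1) = t'.val / m ^ (a + 1) := by
      have h' : t.val / m ^ (a + 1) * m ^ a + t.val % m ^ a =
        t'.val / m ^ (a + 1) * m ^ a + t'.val % m ^ a := h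
      rw [hmod] at h'
      exact Nat.eq_of_mul_eq_mul_right hpos (by omega)
    have hbig : wst m (a + 1) t.val = wst m (a + 1) t'.val := by
      unfold wst; rw [hdiv]
    have hkey : ∀ s s' : Fin L, wst m (a + 1) s.val = wst m (a + 1) s'.val →
        Hit Mov (wst m a s) (wst m a s + m ^ a) z →
        ¬ Hit Mov (wst m (a + 1) s') (wst m a s') z → ¬ (s.val / m ^ a < s'.val / m ^ a) := by
      intro s s' hss' h1 h2 hlt
      apply h2
      refine h1.mono ?_ ?_
      · rw [← hss']; exact wst_succ_le hm a s.val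
      · unfold wst
        have : m ^ a * (s.val / m ^ a) + m ^ a = m ^ a * (s.val / m ^ a + 1) := by ring
        rw [this]
        exact Nat.mul_le_mul_left _ hlt
    have h1 := hkey t t' hbig ht.2 ht'.1
    have h2 := hkey t' t hbig.symm ht'.2 ht.1
    have h3 : t.val / m ^ a = t'.val / m ^ a := by omega
    apply Fin.ext
    rw [← Nat.div_add_mod t.val (m ^ a), ← Nat.div_add_mod t'.val (m ^ a), h3, hmod]

open Classical in
/-- The main counting lemma: pairs with exactly one marked path. -/
theorem count_exact {m : ℕ} (hm : 0 < m) (hL : L = m ^ m) (Mov : ℕ → Wd L r → Prop)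
    (hloc : ∀ c x x', (∀ n : Fin L, n.val ≤ c → x n = x' n) → (Mov c x → Mov c x')) :
    ∑ a : Fin m, ∑ t : Fin L, (Finset.univ.filter (fun p : Wd L r × Wd L r =>
      ¬ Hit Mov (wst m a t) (wst m a t + m ^ (a : ℕ)) p.1 ∧
      Hit Mov (wst m a t) (wst m a t + m ^ (a : ℕ)) (splice (wst m a t) p.1 p.2))).card
    ≤ 2 * L * (Fintype.card (Wd L r)) ^ 2 := by
  -- locality of `Hit`
  have hhit : ∀ i j x y, Hit Mov i j (splice j x y) ↔ Hit Mov i j x := by
    intro i j x y
    constructor
    · rintro ⟨c, h1, h2, h3⟩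
      refine ⟨c, h1, h2, hloc c _ _ (fun n hn => ?_) h3⟩
      exact splice_lt (lt_of_le_of_lt hn h2)
    · rintro ⟨c, h1, h2, h3⟩
      refine ⟨c, h1, h2, hloc c _ _ (fun n hn => ?_) h3⟩
      exact (splice_lt (lt_of_le_of_lt hn h2)).symm
  -- first part
  have hA : ∀ a : Fin m, ∑ t : Fin L, (Finset.univ.filter (fun p : Wd L r × Wd L r =>
      ¬ Hit Mov (wst m (a + 1) t) (wst m a t) p.1 ∧
      Hit Mov (wst m a t) (wst m a t + m ^ (a : ℕ)) (splice (wst m a t) p.1 p.2))).card
      ≤ m ^ (m - 1) * (Fintype.card (Wd L r)) ^ 2 := by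
    intro a
    have h1 : ∀ t : Fin L, (Finset.univ.filter (fun p : Wd L r × Wd L r =>
      ¬ Hit Mov (wst m (a + 1) t) (wst m a t) p.1 ∧
      Hit Mov (wst m a t) (wst m a t + m ^ (a : ℕ)) (splice (wst m a t) p.1 p.2))).card =
      (Finset.univ.filter (fun p : Wd L r × Wd L r =>
      ¬ Hit Mov (wst m (a + 1) t) (wst m a t) p.1 ∧
      Hit Mov (wst m a t) (wst m a t + m ^ (a : ℕ)) p.1)).card := by
      intro t
      rw [← card_swap (wst m a t) (fun p : Wd L r × Wd L r =>
        ¬ Hit Mov (wst m (a + 1) t) (wst m a t) p.1 ∧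
        Hit Mov (wst m a t) (wst m a t + m ^ (a : ℕ)) p.1)]
      congr 1
      ext p
      simp only [Finset.mem_filter, Finset.mem_univ, true_and]
      rw [show (swapTail (wst m a t) p).1 = splice (wst m a t) p.1 p.2 from rfl, hhit]
    rw [Finset.sum_congr rfl (fun t _ => h1 t)]
    simp only [Finset.card_filter]
    rw [Finset.sum_comm]
    have h2 : ∀ p : Wd L r × Wd L r, ∑ t : Fin L, (if
        ¬ Hit Mov (wst m (a + 1) t) (wst m a t) p.1 ∧
        Hit Mov (wst m a t) (wst m a t + m ^ (a : ℕ)) p.1 then 1 else 0) ≤ m ^ (m - 1) := by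
      intro p
      rw [← Finset.card_filter]
      exact card_first hm a a.2 hL Mov p.1
    calc _ ≤ ∑ _p : Wd L r × Wd L r, m ^ (m - 1) := Finset.sum_le_sum (fun p _ => h2 p)
      _ = m ^ (m - 1) * (Fintype.card (Wd L r)) ^ 2 := by
        rw [Finset.sum_const, Finset.card_univ, Fintype.card_prod, smul_eq_mul]
        ring
  -- second part
  have hB : ∀ (t : Fin L) (p : Wd L r × Wd L r), ∑ a : Fin m,
      (if ¬ Hit Mov (wst m a t) (wst m a t + m ^ (a : ℕ)) p.1 ∧
        Hit Mov (wst m (a + 1) t) (wst m (a + 1) t + m ^ ((a : ℕ) + 1)) p.1 then 1 else 0) ≤ 1 := by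
    intro t p
    rw [← Finset.card_filter, Finset.card_le_one]
    have key : ∀ a b : Fin m, a < b →
        Hit Mov (wst m (a + 1) t) (wst m (a + 1) t + m ^ ((a : ℕ) + 1)) p.1 →
        Hit Mov (wst m b t) (wst m b t + m ^ (b : ℕ)) p.1 := by
      intro a b hab h
      have hmono : ∀ k : ℕ, Hit Mov (wst m (a + 1 + k) t)
          (wst m (a + 1 + k) t + m ^ ((a : ℕ) + 1 + k)) p.1 := by
        intro k
        induction k with
        | zero => simpa using h
        | succ k ih =>
          exact ih.mono (wst_succ_le hm _ _) (wst_end_le hm _ _)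
      have := hmono (b - (a + 1))
      have hb : (a : ℕ) + 1 + (b - (a + 1)) = b := by
        have : (a : ℕ) < b := hab
        omega
      rwa [hb] at this
    intro a ha b hb
    simp only [Finset.mem_filter, Finset.mem_univ, true_and] at ha hb
    rcases lt_trichotomy a b with h | h | h
    · exact absurd (key a b h ha.2) hb.1
    · exact h
    · exact absurd (key b a h hb.2) ha.1
  -- combine
  have hpt : ∀ (a : Fin m) (t : Fin L),
      (Finset.univ.filter (fun p : Wd L r × Wd L r =>
      ¬ Hit Mov (wst m a t) (wst m a t + m ^ (a : ℕ)) p.1 ∧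
      Hit Mov (wst m a t) (wst m a t + m ^ (a : ℕ)) (splice (wst m a t) p.1 p.2))).card ≤
      (Finset.univ.filter (fun p : Wd L r × Wd L r =>
      ¬ Hit Mov (wst m (a + 1) t) (wst m a t) p.1 ∧
      Hit Mov (wst m a t) (wst m a t + m ^ (a : ℕ)) (splice (wst m a t) p.1 p.2))).card +
      ∑ p : Wd L r × Wd L r, (if ¬ Hit Mov (wst m a t) (wst m a t + m ^ (a : ℕ)) p.1 ∧
        Hit Mov (wst m (a + 1) t) (wst m (a + 1) t + m ^ ((a : ℕ) + 1)) p.1 then 1 else 0) := by
    intro a t
    rw [← Finset.card_filter]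
    refine le_trans (Finset.card_le_card ?_) (Finset.card_union_le _ _)
    intro p hp
    simp only [Finset.mem_filter, Finset.mem_univ, true_and, Finset.mem_union] at hp ⊢
    by_cases h : Hit Mov (wst m (a + 1) t) (wst m (a + 1) t + m ^ ((a : ℕ) + 1)) p.1
    · right; exact ⟨hp.1, h⟩
    · left
      refine ⟨fun h' => h (h'.mono (le_refl _) ?_), hp.2⟩
      have := wst_end_le hm a t
      omega
  calc _ ≤ ∑ a : Fin m, ∑ t : Fin L, ((Finset.univ.filter (fun p : Wd L r × Wd L r =>
      ¬ Hit Mov (wst m (a + 1) t) (wst m a t) p.1 ∧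
      Hit Mov (wst m a t) (wst m a t + m ^ (a : ℕ)) (splice (wst m a t) p.1 p.2))).card +
      ∑ p : Wd L r × Wd L r, (if ¬ Hit Mov (wst m a t) (wst m a t + m ^ (a : ℕ)) p.1 ∧
        Hit Mov (wst m (a + 1) t) (wst m (a + 1) t + m ^ ((a : ℕ) + 1)) p.1 then 1 else 0)) :=
        Finset.sum_le_sum (fun a _ => Finset.sum_le_sum (fun t _ => hpt a t))
    _ = ∑ a : Fin m, ∑ t : Fin L, (Finset.univ.filter (fun p : Wd L r × Wd L r =>
      ¬ Hit Mov (wst m (a + 1) t) (wst m a t) p.1 ∧
      Hit Mov (wst m a t) (wst m a t + m ^ (a : ℕ)) (splice (wst m a t) p.1 p.2))).card +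
      ∑ t : Fin L, ∑ p : Wd L r × Wd L r, ∑ a : Fin m,
        (if ¬ Hit Mov (wst m a t) (wst m a t + m ^ (a : ℕ)) p.1 ∧
        Hit Mov (wst m (a + 1) t) (wst m (a + 1) t + m ^ ((a : ℕ) + 1)) p.1 then 1 else 0) := by
        simp only [Finset.sum_add_distrib]
        congr 1
        rw [Finset.sum_comm]
        refine Finset.sum_congr rfl (fun t _ => ?_)
        rw [Finset.sum_comm]
    _ ≤ ∑ _a : Fin m, m ^ (m - 1) * (Fintype.card (Wd L r)) ^ 2 +
        ∑ _t : Fin L, ∑ _p : Wd L r × Wd L r, 1 := by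
        refine add_le_add (Finset.sum_le_sum (fun a _ => hA a)) ?_
        exact Finset.sum_le_sum (fun t _ => Finset.sum_le_sum (fun p _ => hB t p))
    _ = 2 * L * (Fintype.card (Wd L r)) ^ 2 := by
        rw [Finset.sum_const, Finset.sum_const, Finset.sum_const, Finset.card_univ,
          Finset.card_univ, Finset.card_univ, Fintype.card_prod, Fintype.card_fin, Fintype.card_fin]
        have : m * m ^ (m - 1) = L := by
          rw [hL, ← pow_succ']
          congr 1
          omega
        simp only [smul_eq_mul]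
        rw [← mul_assoc, this]
        ring

end Pool.Agent.H44.Gon
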