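import Pool.Agent.H44.Gon.Discrete
import Pool.Agent.H44.Gon.Words

set_option autoImplicit false

namespace Pool.Agent.H44.Gon

section construction

variable (m r L κ T : ℕ) [NeZero r]

/-- the letter position at the start of the window of scale `a` around `t` -/
def jw {m L : ℕ} (a : Fin m) (t : Fin L) : Fin L :=
  ⟨wst m a t, lt_of_le_of_lt (wst_le _ _ _) t.2⟩

/-- the words with all letters from position `c` on replaced by the letter `0` -/
def trunc {L r : ℕ} [NeZero r] (c : ℕ) (x : Wd L r) : Wd L r := fun n => if n.val < c then x n else 0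

theorem trunc_eq_iff {L r : ℕ} [NeZero r] {c : ℕ} {x y : Wd L r} :
    trunc c x = trunc c y ↔ ∀ n : Fin L, n.val < c → x n = y n := by
  constructor
  · intro h n hn
    have := congrFun h n
    unfold trunc at this
    rwa [if_pos hn, if_pos hn] at this
  · intro h
    funext n
    unfold trunc
    split_ifs with hn
    · exact h n hn
    · rfl

theorem trunc_trunc {L r : ℕ} [NeZero r] (c d : ℕ) (x : Wd L r) :
    trunc c (trunc d x) = trunc (min c d) x := by
  funext n
  unfold trunc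
  by_cases h1 : n.val < c
  · by_cases h2 : n.val < d
    · rw [if_pos h1, if_pos h2, if_pos (lt_min h1 h2)]
    · rw [if_pos h1, if_neg h2, if_neg (fun h => h2 (lt_of_lt_of_le h (min_le_right _ _)))]
  · rw [if_neg h1, if_neg (fun h => h1 (lt_of_lt_of_le h (min_le_left _ _)))]

theorem trunc_min {L r : ℕ} [NeZero r] (c : ℕ) (x : Wd L r) : trunc (min c L) x = trunc c x := by
  funext n
  unfold trunc
  have := n.2
  by_cases h1 : n.val < c
  · rw [if_pos h1, if_pos (lt_min h1 this)]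
  · rw [if_neg h1, if_neg (fun h => h1 (lt_of_lt_of_le h (min_le_left _ _)))]

/-- nodes of the `r`-ary tree of depth `L` -/
abbrev Node (L r : ℕ) [NeZero r] : Type := {p : Fin (L + 1) × Wd L r // trunc p.1 p.2 = p.2}

/-- the node at depth `c` on the path `x` (depth `L` if `c > L`) -/
def nd {L r : ℕ} [NeZero r] (c : ℕ) (x : Wd L r) : Node L r :=
  ⟨(⟨min c L, by omega⟩, trunc c x), by
    show trunc (min c L) (trunc c x) = trunc c x
    rw [trunc_trunc]
    have : min (min c L) c = min c L := by omega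
    rw [this, trunc_min]⟩

theorem nd_eq_iff {L r : ℕ} [NeZero r] {c d : ℕ} {x y : Wd L r} :
    nd c x = nd d y ↔ min c L = min d L ∧ ∀ n : Fin L, n.val < c → x n = y n := by
  unfold nd
  rw [Subtype.mk.injEq, Prod.mk.injEq, Fin.mk.injEq]
  constructor
  · rintro ⟨h1, h2⟩
    refine ⟨h1, ?_⟩
    rw [← trunc_min c x, ← trunc_min d y, h1, trunc_eq_iff] at h2
    intro n hn
    refine h2 n ?_
    have := n.2
    omega
  · rintro ⟨h1, h2⟩
    refine ⟨h1, ?_⟩
    rw [← trunc_min c x, ← trunc_min d y, ← h1, trunc_eq_iff]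
    intro n hn
    exact h2 n (lt_of_lt_of_le hn (min_le_left _ _))

theorem nd_congr {L r : ℕ} [NeZero r] {c : ℕ} {x y : Wd L r}
    (h : ∀ n : Fin L, n.val < c → x n = y n) : nd c x = nd c y :=
  nd_eq_iff.2 ⟨rfl, h⟩

theorem nd_surj {L r : ℕ} [NeZero r] (n : Node L r) : nd n.1.1 n.1.2 = n := by
  apply Subtype.ext
  have h1 := n.2
  have h2 := n.1.1.2
  apply Prod.ext
  · apply Fin.ext
    show min (n.1.1 : ℕ) L = n.1.1
    omega
  · exact h1

/-- indices of the crossing edges -/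
abbrev MIdx (m r L : ℕ) : Type :=
  {p : Fin m × Fin L × Wd L r × Wd L r // p.2.2.1 (jw p.1 p.2.1) ≠ p.2.2.2 (jw p.1 p.2.1)}

variable {m r L}

/-- start of the window of a crossing edge -/
def sw (μ : MIdx m r L) : ℕ := wst m μ.1.1 μ.1.2.1

/-- end of the window of a crossing edge -/
def ew (μ : MIdx m r L) : ℕ := wst m μ.1.1 μ.1.2.1 + m ^ (μ.1.1 : ℕ)

/-- the two paths of a crossing edge -/
def wd (μ : MIdx m r L) (b : Bool) : Wd L r :=
  if b then splice (sw μ) μ.1.2.2.1 μ.1.2.2.2 else μ.1.2.2.1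

/-- the two nodes joined by a crossing edge -/
def en (μ : MIdx m r L) (b : Bool) : Node L r := nd (ew μ) (wd μ b)

theorem wd_agree (μ : MIdx m r L) (b b' : Bool) (n : Fin L) (hn : n.val < sw μ) :
    wd μ b n = wd μ b' n := by
  unfold wd
  cases b <;> cases b' <;> simp [splice_lt hn]

theorem wd_diff (μ : MIdx m r L) (b b' : Bool) (h : b ≠ b') :
    wd μ b (jw μ.1.1 μ.1.2.1) ≠ wd μ b' (jw μ.1.1 μ.1.2.1) := by
  have h1 := μ.2
  have h2 : splice (sw μ) μ.1.2.2.1 μ.1.2.2.2 (jw μ.1.1 μ.1.2.1) =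
      μ.1.2.2.2 (jw μ.1.1 μ.1.2.1) := splice_ge (le_refl _)
  unfold wd
  cases b <;> cases b'
  · exact absurd rfl h
  · simp only [Bool.false_eq_true, if_false, if_true]
    rw [h2]; exact h1
  · simp only [Bool.false_eq_true, if_false, if_true]
    rw [h2]; exact h1.symm
  · exact absurd rfl h

variable (m r L)

/-- vertices: the loaded vertices, the gate vertices and the ends of the crossing edges -/
abbrev Vx : Type := Node L r ⊕ Node L r ⊕ (MIdx m r L × Bool)

/-- edges: glue at the gates, glue at the ends of the crossing edges, crossing edges, legs -/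
abbrev Ex : Type :=
  (Node L r × Fin T) ⊕ ((MIdx m r L × Bool) × Fin T) ⊕ MIdx m r L ⊕ (Fin L × Wd L r × Fin κ)

variable {m r L}

/-- loaded vertex -/
def vH (n : Node L r) : Vx m r L := Sum.inl n
/-- gate vertex -/
def vB (n : Node L r) : Vx m r L := Sum.inr (Sum.inl n)
/-- end of a crossing edge -/
def vX (μ : MIdx m r L) (b : Bool) : Vx m r L := Sum.inr (Sum.inr (μ, b))

/-- first end of an edge -/
def esrc {κ T : ℕ} : Ex m r L κ T → Vx m r L
  | Sum.inl (n, _) => vB n
  | Sum.inr (Sum.inl ((μ, b), _)) => vX μ b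
  | Sum.inr (Sum.inr (Sum.inl μ)) => vX μ false
  | Sum.inr (Sum.inr (Sum.inr (c, x, _))) => vH (nd c x)

/-- second end of an edge -/
def etgt {κ T : ℕ} : Ex m r L κ T → Vx m r L
  | Sum.inl (n, _) => vH n
  | Sum.inr (Sum.inl ((μ, b), _)) => vH (en μ b)
  | Sum.inr (Sum.inr (Sum.inl μ)) => vX μ true
  | Sum.inr (Sum.inr (Sum.inr (c, x, _))) => vB (nd (c + 1) x)

theorem conn_root {κ T : ℕ} (hκ : 0 < κ) (hT : 0 < T) (c : ℕ) (hc : c ≤ L) (x : Wd L r) :
    Relation.EqvGen (fun a b : Vx m r L => ∃ e : Ex m r L κ T, esrc e = a ∧ etgt e = b)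
      (vH (nd c x)) (vH (nd 0 (fun _ => 0))) := by
  induction c with
  | zero =>
    have : nd 0 x = nd 0 (fun _ => 0) := nd_congr (fun n hn => absurd hn (Nat.not_lt_zero _))
    rw [this]
    exact Relation.EqvGen.refl _
  | succ c ih =>
    refine Relation.EqvGen.trans _ (vB (nd (c + 1) x)) _ ?_ ?_
    · apply Relation.EqvGen.symm
      apply Relation.EqvGen.rel
      exact ⟨Sum.inl (nd (c + 1) x, ⟨0, hT⟩), rfl, rfl⟩
    · refine Relation.EqvGen.trans _ (vH (nd c x)) _ ?_ (ih (by omega))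
      apply Relation.EqvGen.symm
      apply Relation.EqvGen.rel
      exact ⟨Sum.inr (Sum.inr (Sum.inr (⟨c, by omega⟩, x, ⟨0, hκ⟩))), rfl, rfl⟩

theorem conn_all {κ T : ℕ} (hκ : 0 < κ) (hT : 0 < T) (v : Vx m r L) :
    Relation.EqvGen (fun a b : Vx m r L => ∃ e : Ex m r L κ T, esrc e = a ∧ etgt e = b)
      v (vH (nd 0 (fun _ => 0))) := by
  have hH : ∀ n : Node L r, Relation.EqvGen
      (fun a b : Vx m r L => ∃ e : Ex m r L κ T, esrc e = a ∧ etgt e = b)
      (vH n) (vH (nd 0 (fun _ => 0))) := by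
    intro n
    have h1 := nd_surj n
    have h2 := conn_root (m := m) (κ := κ) (T := T) hκ hT n.1.1 (by omega) n.1.2
    rwa [h1] at h2
  rcases v with n | n | ⟨μ, b⟩
  · exact hH n
  · refine Relation.EqvGen.trans _ (vH n) _ ?_ (hH n)
    apply Relation.EqvGen.rel
    exact ⟨Sum.inl (n, ⟨0, hT⟩), rfl, rfl⟩
  · refine Relation.EqvGen.trans _ (vH (en μ b)) _ ?_ (hH _)
    apply Relation.EqvGen.rel
    exact ⟨Sum.inr (Sum.inl ((μ, b), ⟨0, hT⟩)), rfl, rfl⟩

variable (m r L)

/-- The graphs with ratio close to two. -/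
noncomputable def theGraph (hκ : 0 < κ) (hT : 0 < T) : MGraph where
  V := Vx m r L
  E := Ex m r L κ T
  fintypeV := inferInstance
  fintypeE := inferInstance
  src := esrc
  tgt := etgt
  loopless := by
    intro e
    rcases e with ⟨n, k⟩ | ⟨⟨μ, b⟩, k⟩ | μ | ⟨c, x, k⟩ <;> simp [esrc, etgt, vH, vB, vX]
  nonempty := ⟨vH (nd 0 (fun _ => 0))⟩
  connected := fun u v => Relation.EqvGen.trans _ _ _ (conn_all hκ hT u)
    (Relation.EqvGen.symm _ _ (conn_all hκ hT v))

end construction

end Pool.Agent.H44.Gon
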