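import Pool.Agent.H44.Gon.Graph

set_option autoImplicit false

namespace Pool.Agent.H44.Gon

section lower

variable {m r L κ T : ℕ} [NeZero r] (hκ : 0 < κ) (hT : 0 < T)

/-- potentials that are constant along glue edges -/
def Glued (φ : Vx m r L → ℤ) : Prop :=
  (∀ n, φ (vB n) = φ (vH n)) ∧ ∀ μ b, φ (vX μ b) = φ (vH (en μ b))

/-- the Laplacian of `theGraph`, with unfolded types -/
noncomputable def lp (φ : Vx m r L → ℤ) (v : Vx m r L) : ℤ := (theGraph m r L κ T hκ hT).lap φ v

theorem wsum_glued {φ : Vx m r L → ℤ} (hφ : Glued φ) (w : Vx m r L → ℤ) :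
    ∑ v : Vx m r L, w v * lp hκ hT φ v =
      ∑ μ : MIdx m r L, (w (vX μ false) - w (vX μ true)) *
        (φ (vH (en μ false)) - φ (vH (en μ true))) +
      κ * ∑ c : Fin L, ∑ x : Wd L r, (w (vH (nd c x)) - w (vB (nd (c + 1) x))) *
        (φ (vH (nd c x)) - φ (vH (nd (c + 1) x))) := by
  have h := (theGraph m r L κ T hκ hT).wsum_lap w φ
  have h1 : ∑ v : Vx m r L, w v * lp hκ hT φ v =
    ∑ e : Ex m r L κ T, (w (esrc e) - w (etgt e)) * (φ (esrc e) - φ (etgt e)) := h
  rw [h1, Fintype.sum_sum_type, Fintype.sum_sum_type, Fintype.sum_sum_type]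
  have e1 : ∑ p : Node L r × Fin T, (w (esrc (m := m) (κ := κ) (Sum.inl p)) -
      w (etgt (m := m) (κ := κ) (Sum.inl p))) *
      (φ (esrc (m := m) (κ := κ) (Sum.inl p)) - φ (etgt (m := m) (κ := κ) (Sum.inl p))) = 0 := by
    refine Finset.sum_eq_zero (fun p _ => ?_)
    rcases p with ⟨n, k⟩
    simp only [esrc, etgt]
    rw [hφ.1 n]; ring
  have e2 : ∑ p : (MIdx m r L × Bool) × Fin T, (w (esrc (κ := κ) (Sum.inr (Sum.inl p))) -
      w (etgt (κ := κ) (Sum.inr (Sum.inl p)))) *
      (φ (esrc (κ := κ) (Sum.inr (Sum.inl p))) - φ (etgt (κ := κ) (Sum.inr (Sum.inl p)))) = 0 := by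
    refine Finset.sum_eq_zero (fun p _ => ?_)
    rcases p with ⟨⟨μ, b⟩, k⟩
    simp only [esrc, etgt]
    rw [hφ.2 μ b]; ring
  rw [e1, e2, zero_add, zero_add]
  congr 1
  · refine Finset.sum_congr rfl (fun μ _ => ?_)
    simp only [esrc, etgt]
    rw [hφ.2 μ false, hφ.2 μ true]
  · rw [Fintype.sum_prod_type, Finset.mul_sum]
    refine Finset.sum_congr rfl (fun c _ => ?_)
    rw [Fintype.sum_prod_type, Finset.mul_sum]
    refine Finset.sum_congr rfl (fun x _ => ?_)
    simp only [esrc, etgt]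
    rw [Finset.sum_const, hφ.1]
    simp

open Classical in
theorem lap_vX {φ : Vx m r L → ℤ} (hφ : Glued φ) (μ : MIdx m r L) :
    lp hκ hT φ (vX μ false) = φ (vH (en μ false)) - φ (vH (en μ true)) ∧
    lp hκ hT φ (vX μ true) = φ (vH (en μ true)) - φ (vH (en μ false)) := by
  constructor
  · have h := wsum_glued hκ hT hφ (fun v => if v = vX μ false then 1 else 0)
    simp only [ite_mul, one_mul, zero_mul, Finset.sum_ite_eq', Finset.mem_univ, if_true] at h
    rw [h]
    have e1 : ∀ n : Node L r, (vH n : Vx m r L) ≠ vX μ false := by intro n; simp [vH, vX]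
    have e2 : ∀ n : Node L r, (vB n : Vx m r L) ≠ vX μ false := by intro n; simp [vB, vX]
    have e3 : ∀ μ' : MIdx m r L, (vX μ' true) ≠ vX μ false := by intro μ'; simp [vX]
    have e4 : ∀ μ' : MIdx m r L, ((vX μ' false : Vx m r L) = vX μ false) ↔ μ' = μ := by
      intro μ'; simp [vX]
    simp only [e1, e2, e3, e4, if_false, sub_zero, sub_self, zero_mul, Finset.sum_const_zero,
      mul_zero, add_zero]
    rw [Finset.sum_eq_single μ]
    · rw [if_pos rfl, one_mul]
    · intro b _ hb
      rw [if_neg hb, zero_mul]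
    · intro h; exact absurd (Finset.mem_univ _) h
  · have h := wsum_glued hκ hT hφ (fun v => if v = vX μ true then 1 else 0)
    simp only [ite_mul, one_mul, zero_mul, Finset.sum_ite_eq', Finset.mem_univ, if_true] at h
    rw [h]
    have e1 : ∀ n : Node L r, (vH n : Vx m r L) ≠ vX μ true := by intro n; simp [vH, vX]
    have e2 : ∀ n : Node L r, (vB n : Vx m r L) ≠ vX μ true := by intro n; simp [vB, vX]
    have e3 : ∀ μ' : MIdx m r L, (vX μ' false) ≠ vX μ true := by intro μ'; simp [vX]
    have e4 : ∀ μ' : MIdx m r L, ((vX μ' true : Vx m r L) = vX μ true) ↔ μ' = μ := by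
      intro μ'; simp [vX]
    simp only [e1, e2, e3, e4, if_false, sub_zero, sub_self, zero_mul, Finset.sum_const_zero,
      mul_zero, add_zero]
    rw [Finset.sum_eq_single μ]
    · rw [if_pos rfl]; ring
    · intro b _ hb
      rw [if_neg hb]; ring
    · intro h; exact absurd (Finset.mem_univ _) h

/-- step of a potential on the tree -/
def step (φ : Vx m r L → ℤ) (c : ℕ) (x : Wd L r) : ℤ := φ (vH (nd (c + 1) x)) - φ (vH (nd c x))

open Classical in
theorem lap_vB {φ : Vx m r L → ℤ} (hφ : Glued φ) (c : Fin L) (x : Wd L r) :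
    lp hκ hT φ (vB (nd (c + 1) x)) =
      κ * (Finset.univ.filter (fun y : Wd L r => nd (c + 1) y = nd (c + 1) x)).card *
        step φ c x := by
  have h := wsum_glued hκ hT hφ (fun v => if v = vB (nd (c + 1) x) then 1 else 0)
  simp only [ite_mul, one_mul, zero_mul, Finset.sum_ite_eq', Finset.mem_univ, if_true] at h
  rw [h]
  have e1 : ∀ n : Node L r, (vH n : Vx m r L) ≠ vB (nd (c + 1) x) := by intro n; simp [vH, vB]
  have e2 : ∀ (μ' : MIdx m r L) b, (vX μ' b) ≠ vB (nd (c + 1) x) := by intro μ' b; simp [vX, vB]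
  have e4 : ∀ n : Node L r, ((vB n : Vx m r L) = vB (nd (c + 1) x)) ↔ n = nd (c + 1) x := by
    intro n; simp [vB]
  simp only [e1, e2, e4, if_false]
  simp only [sub_self, zero_mul, Finset.sum_const_zero, zero_add, zero_sub, neg_mul, ite_mul,
    one_mul]
  rw [mul_assoc]
  congr 1
  rw [Finset.sum_eq_single c]
  · rw [Finset.card_filter]
    push_cast
    rw [Finset.sum_mul]
    refine Finset.sum_congr rfl (fun y _ => ?_)
    by_cases hy : nd ((c : ℕ) + 1) y = nd (c + 1) x
    · rw [if_pos hy, if_pos hy, hy]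
      have h2 : nd (c : ℕ) y = nd c x := by
        apply nd_congr
        intro n hn
        exact (nd_eq_iff.1 hy).2 n (by omega)
      rw [h2]
      unfold step
      ring
    · rw [if_neg hy, if_neg hy]; simp
  · intro c' _ hc'
    refine Finset.sum_eq_zero (fun y _ => ?_)
    have : nd ((c' : ℕ) + 1) y ≠ nd (c + 1) x := by
      intro h
      have h1 := (nd_eq_iff.1 h).1
      apply hc'
      apply Fin.ext
      have := c.2
      have := c'.2
      omega
    rw [if_neg this]; simp
  · intro h; exact absurd (Finset.mem_univ _) h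

open Classical in
/-- indicator weight of the group consisting of the loaded vertex of a node and the gates of its
children -/
noncomputable def grp (c : ℕ) (P : Wd L r) : Vx m r L → ℤ
  | Sum.inl n => if n = nd c P then 1 else 0
  | Sum.inr (Sum.inl n) => if (n.1.1 : ℕ) = c + 1 ∧ trunc c n.1.2 = trunc c P then 1 else 0
  | Sum.inr (Sum.inr _) => 0

theorem grp_nonneg (c : ℕ) (P : Wd L r) (v : Vx m r L) : 0 ≤ grp c P v := by
  classical
  rcases v with n | n | p
  · simp only [grp]; split_ifs <;> norm_num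
  · simp only [grp]; split_ifs <;> norm_num
  · simp only [grp]; norm_num

theorem grp_conserved {φ : Vx m r L → ℤ} (hφ : Glued φ) (c : ℕ) (hc : c < L) (P : Wd L r) :
    ∑ v : Vx m r L, grp c P v * lp hκ hT φ v = 0 := by
  classical
  rw [wsum_glued hκ hT hφ]
  have e1 : ∀ (μ' : MIdx m r L) b, grp c P (vX μ' b) = 0 := by intro μ' b; rfl
  have e2 : ∀ (c' : Fin L) (x : Wd L r), grp (m := m) c P (vH (nd c' x)) -
      grp (m := m) c P (vB (nd (c' + 1) x)) = 0 := by
    intro c' x
    have h1 : grp (m := m) c P (vH (nd c' x)) = if nd (c' : ℕ) x = nd c P then 1 else 0 := rfl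
    have h2 : grp (m := m) c P (vB (nd (c' + 1) x)) =
      if min ((c' : ℕ) + 1) L = c + 1 ∧ trunc c (trunc (c' + 1) x) = trunc c P
        then 1 else 0 := rfl
    rw [h1, h2]
    have h3 : (nd (c' : ℕ) x = nd c P) ↔
        (min ((c' : ℕ) + 1) L = c + 1 ∧ trunc c (trunc (c' + 1) x) = trunc c P) := by
      rw [nd_eq_iff, trunc_trunc]
      have := c'.2
      constructor
      · rintro ⟨h4, h5⟩
        have h6 : (c' : ℕ) = c := by omega
        refine ⟨by omega, ?_⟩
        have h7 : min c ((c' : ℕ) + 1) = c := by omega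
        rw [h7, trunc_eq_iff]
        intro n hn
        exact h5 n (by omega)
      · rintro ⟨h4, h5⟩
        have h6 : (c' : ℕ) = c := by omega
        refine ⟨by omega, ?_⟩
        have h7 : min c ((c' : ℕ) + 1) = c := by omega
        rw [h7, trunc_eq_iff] at h5
        intro n hn
        exact h5 n (by omega)
    by_cases h : nd (c' : ℕ) x = nd c P
    · rw [if_pos h, if_pos (h3.1 h)]; ring
    · rw [if_neg h, if_neg (fun h' => h (h3.2 h'))]; ring
  simp only [e1, e2, sub_self, zero_mul, Finset.sum_const_zero, mul_zero, add_zero]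

/-- The state space of effective divisors equivalent to `D0`. -/
def St (D0 : Vx m r L → ℤ) : Set (Vx m r L → ℤ) :=
  {φ | ∀ v, 0 ≤ D0 v + lp hκ hT φ v}

/-- node raised in a state -/
def Raised (D0 : Vx m r L → ℤ) (φ : Vx m r L → ℤ) (c : ℕ) (x : Wd L r) : Prop :=
  ∃ φ' ∈ St (m := m) (r := r) (L := L) hκ hT D0, step φ' c x < step φ c x

/-- node raised in some state -/
def Mov (D0 : Vx m r L → ℤ) (c : ℕ) (x : Wd L r) : Prop :=
  ∃ φ ∈ St (m := m) (r := r) (L := L) hκ hT D0, Raised (m := m) (r := r) (L := L) hκ hT D0 φ c x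

theorem step_congr (φ : Vx m r L → ℤ) {c : ℕ} {x y : Wd L r}
    (h : ∀ n : Fin L, n.val ≤ c → x n = y n) : step φ c x = step φ c y := by
  unfold step
  rw [nd_congr (c := c + 1) (fun n hn => h n (by omega)),
    nd_congr (c := c) (x := x) (y := y) (fun n hn => h n (by omega))]

theorem step_ge (φ : Vx m r L → ℤ) {c : ℕ} (hc : L ≤ c) (x : Wd L r) : step φ c x = 0 := by
  unfold step
  have : nd (c + 1) x = nd c x := by
    rw [nd_eq_iff]
    exact ⟨by omega, fun n _ => rfl⟩
  rw [this, sub_self]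

theorem sum_step (φ : Vx m r L → ℤ) (j k : ℕ) (x : Wd L r) :
    ∑ c ∈ Finset.range k, step φ (j + c) x = φ (vH (nd (j + k) x)) - φ (vH (nd j x)) := by
  induction k with
  | zero => simp
  | succ k ih =>
    rw [Finset.sum_range_succ, ih]
    unfold step
    rw [show j + k + 1 = j + (k + 1) from by ring]
    ring

variable {D0 : Vx m r L → ℤ}

theorem St.glued (h0 : ∀ v, 0 ≤ D0 v) (hdeg : ∑ v, D0 v < T) {φ : Vx m r L → ℤ}
    (hφ : φ ∈ St hκ hT D0) : Glued φ := by
  constructor
  · intro n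
    exact (theGraph m r L κ T hκ hT).thick (D0 := D0) h0 hφ (T := T) hdeg
      (u := vB n) (w := vH n) (fun k => Sum.inl (n, k))
      (fun a b h => (Prod.mk.inj (Sum.inl.inj h)).2) (fun _ => rfl) (fun _ => rfl)
  · intro μ b
    exact (theGraph m r L κ T hκ hT).thick (D0 := D0) h0 hφ (T := T) hdeg
      (u := vX μ b) (w := vH (en μ b)) (fun k => Sum.inr (Sum.inl ((μ, b), k)))
      (fun a b h => (Prod.mk.inj (Sum.inl.inj (Sum.inr.inj h))).2) (fun _ => rfl) (fun _ => rfl)

open Classical in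
/-- the movable chips bound the number of raised children -/
theorem raised_bound (h0 : ∀ v, 0 ≤ D0 v) (hdeg : ∑ v, D0 v < T) {φ : Vx m r L → ℤ}
    (hφ : φ ∈ St hκ hT D0) (c : Fin L) (P : Wd L r) :
    (κ : ℤ) * (Finset.univ.filter (fun x : Wd L r => trunc c x = trunc c P ∧
      Raised hκ hT D0 φ c x)).card ≤ ∑ v, grp c P v * D0 v := by
  have hg := St.glued hκ hT h0 hdeg hφ
  have h1 : ∑ v, grp c P v * D0 v =
      ∑ v, grp c P v * (D0 v + lp hκ hT φ v) := by
    simp only [mul_add, Finset.sum_add_distrib]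
    rw [grp_conserved hκ hT hg c c.2 P, add_zero]
  rw [h1]
  -- restrict to the gates
  have h2 : ∑ n : Node L r, grp (m := m) c P (vB n) *
      (D0 (vB n) + lp hκ hT φ (vB n)) ≤
      ∑ v, grp c P v * (D0 v + lp hκ hT φ v) := by
    rw [Fintype.sum_sum_type, Fintype.sum_sum_type]
    have e1 : 0 ≤ ∑ n : Node L r, grp (m := m) c P (Sum.inl n) *
      (D0 (Sum.inl n) + lp hκ hT φ (Sum.inl n)) :=
      Finset.sum_nonneg (fun n _ => mul_nonneg (grp_nonneg _ _ _) (hφ _))
    have e2 : 0 ≤ ∑ p : MIdx m r L × Bool, grp (m := m) c P (Sum.inr (Sum.inr p)) *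
      (D0 (Sum.inr (Sum.inr p)) + lp hκ hT φ (Sum.inr (Sum.inr p))) :=
      Finset.sum_nonneg (fun n _ => mul_nonneg (grp_nonneg _ _ _) (hφ _))
    have e3 : ∑ n : Node L r, grp (m := m) c P (vB n) *
      (D0 (vB n) + lp hκ hT φ (vB n)) =
      ∑ n : Node L r, grp (m := m) c P (Sum.inr (Sum.inl n)) *
      (D0 (Sum.inr (Sum.inl n)) +
        lp hκ hT φ (Sum.inr (Sum.inl n))) := rfl
    rw [e3]
    linarith
  refine le_trans ?_ h2
  have h3 : (Finset.univ.filter (fun x : Wd L r => trunc c x = trunc c P ∧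
      Raised hκ hT D0 φ c x)).card = ∑ n : Node L r,
      ((Finset.univ.filter (fun x : Wd L r => trunc c x = trunc c P ∧
      Raised hκ hT D0 φ c x)).filter (fun x => nd (c + 1) x = n)).card :=
    Finset.card_eq_sum_card_fiberwise (fun x _ => Finset.mem_univ _)
  rw [h3]
  push_cast
  rw [Finset.mul_sum]
  refine Finset.sum_le_sum (fun n _ => ?_)
  by_cases hne : ((Finset.univ.filter (fun x : Wd L r => trunc c x = trunc c P ∧
      Raised hκ hT D0 φ c x)).filter (fun x => nd (c + 1) x = n)).Nonempty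
  · obtain ⟨x, hx⟩ := hne
    rw [Finset.mem_filter, Finset.mem_filter] at hx
    obtain ⟨⟨_, hx1, hx2⟩, rfl⟩ := hx
    have hw : grp (m := m) c P (vB (nd (c + 1) x)) = 1 := by
      have h4 : grp (m := m) c P (vB (nd (c + 1) x)) =
        if min ((c : ℕ) + 1) L = c + 1 ∧ trunc c (trunc (c + 1) x) = trunc c P
          then 1 else 0 := rfl
      rw [h4, if_pos]
      have := c.2
      refine ⟨by omega, ?_⟩
      rw [trunc_trunc]
      have : min (c : ℕ) (c + 1) = c := by omega
      rw [this, hx1]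
    rw [hw, one_mul]
    obtain ⟨φ', hφ', hlt⟩ := hx2
    have hg' := St.glued hκ hT h0 hdeg hφ'
    have h5 := lap_vB hκ hT hg c x
    have h6 := lap_vB hκ hT hg' c x
    have h7 := hφ' (vB (nd (c + 1) x))
    have h8 : (((Finset.univ.filter (fun x : Wd L r => trunc c x = trunc c P ∧
      Raised hκ hT D0 φ c x)).filter (fun y => nd (c + 1) y = nd (c + 1) x)).card : ℤ) ≤
      ((Finset.univ.filter (fun y : Wd L r => nd (c + 1) y = nd (c + 1) x)).card : ℤ) := by
      have : ((Finset.univ.filter (fun x : Wd L r => trunc c x = trunc c P ∧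
        Raised hκ hT D0 φ c x)).filter (fun y => nd (c + 1) y = nd (c + 1) x)).card ≤
        (Finset.univ.filter (fun y : Wd L r => nd (c + 1) y = nd (c + 1) x)).card := by
        apply Finset.card_le_card
        intro y hy
        rw [Finset.mem_filter] at hy ⊢
        exact ⟨Finset.mem_univ _, hy.2⟩
      exact_mod_cast this
    rw [h5]
    rw [h6] at h7
    set K := ((Finset.univ.filter (fun y : Wd L r => nd (c + 1) y = nd (c + 1) x)).card : ℤ)
    have hK : 0 ≤ (κ : ℤ) * K := by positivity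
    have h9 : (κ : ℤ) * K * 1 ≤ κ * K * (step φ c x - step φ' c x) :=
      mul_le_mul_of_nonneg_left (by omega) hK
    have h10 : (κ : ℤ) * (((Finset.univ.filter (fun x : Wd L r => trunc c x = trunc c P ∧
      Raised hκ hT D0 φ c x)).filter (fun y => nd (c + 1) y = nd (c + 1) x)).card : ℤ) ≤
      κ * K := mul_le_mul_of_nonneg_left h8 (by positivity)
    linarith
  · rw [Finset.not_nonempty_iff_eq_empty] at hne
    rw [hne]
    simp only [Finset.card_empty, Nat.cast_zero, mul_zero]
    exact mul_nonneg (grp_nonneg _ _ _) (hφ _)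

end lower

end Pool.Agent.H44.Gon
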