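import Pool.Agent.H44.Gon.Lower

set_option autoImplicit false

namespace Pool.Agent.H44.Gon

section lowerB

variable {m r L κ T : ℕ} [NeZero r] (hκ : 0 < κ) (hT : 0 < T)
variable {D0 : Vx m r L → ℤ}

theorem Raised.lt {φ : Vx m r L → ℤ} {c : ℕ} {x : Wd L r} (h : Raised hκ hT D0 φ c x) : c < L := by
  obtain ⟨φ', _, hlt⟩ := h
  by_contra hc
  push Not at hc
  rw [step_ge φ' hc, step_ge φ hc] at hlt
  exact lt_irrefl _ hlt

theorem Raised.congr {φ : Vx m r L → ℤ} {c : ℕ} {x y : Wd L r}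
    (hxy : ∀ n : Fin L, n.val ≤ c → x n = y n) (h : Raised hκ hT D0 φ c x) :
    Raised hκ hT D0 φ c y := by
  obtain ⟨φ', hφ', hlt⟩ := h
  refine ⟨φ', hφ', ?_⟩
  rwa [step_congr φ' hxy, step_congr φ hxy] at hlt

theorem Mov.congr {c : ℕ} {x y : Wd L r}
    (hxy : ∀ n : Fin L, n.val ≤ c → x n = y n) (h : Mov hκ hT D0 c x) : Mov hκ hT D0 c y := by
  obtain ⟨φ, hφ, h⟩ := h
  exact ⟨φ, hφ, Raised.congr hκ hT hxy h⟩

open Classical in
/-- total weight of the groups at depth `c` -/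
noncomputable def Sc (D0 : Vx m r L → ℤ) (c : ℕ) : ℤ :=
  ∑ P ∈ Finset.univ.filter (fun P : Wd L r => trunc c P = P), ∑ v, grp c P v * D0 v

theorem Sc_nonneg (h0 : ∀ v, 0 ≤ D0 v) (c : ℕ) : 0 ≤ Sc D0 c := by
  classical
  unfold Sc
  exact Finset.sum_nonneg (fun P _ => Finset.sum_nonneg (fun v _ =>
    mul_nonneg (grp_nonneg _ _ _) (h0 _)))

open Classical in
theorem bad_one (h0 : ∀ v, 0 ≤ D0 v) (hdeg : ∑ v, D0 v < T)
    (st : Wd L r → Vx m r L → ℤ) (hst : ∀ x, st x ∈ St hκ hT D0) (j : ℕ) (c : Fin L)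
    (hjc : j ≤ c) :
    (κ : ℤ) * (Finset.univ.filter (fun p : Wd L r × Wd L r =>
      Raised hκ hT D0 (st p.1) c (splice j p.1 p.2))).card ≤
      (Fintype.card (Wd L r) : ℤ) * Sc D0 c := by
  have h1 : (Finset.univ.filter (fun p : Wd L r × Wd L r =>
      Raised hκ hT D0 (st p.1) c (splice j p.1 p.2))).card =
      (Finset.univ.filter (fun q : Wd L r × Wd L r =>
      Raised hκ hT D0 (st (splice j q.1 q.2)) c q.1)).card := by
    rw [← card_swap j (fun q : Wd L r × Wd L r =>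
      Raised hκ hT D0 (st (splice j q.1 q.2)) c q.1)]
    congr 1
    ext p
    simp only [Finset.mem_filter, Finset.mem_univ, true_and]
    rw [show (swapTail j p).1 = splice j p.1 p.2 from rfl,
      show (swapTail j p).2 = splice j p.2 p.1 from rfl, splice_splice]
  have h2 : (Finset.univ.filter (fun q : Wd L r × Wd L r =>
      Raised hκ hT D0 (st (splice j q.1 q.2)) c q.1)).card =
      ∑ y : Wd L r, (Finset.univ.filter (fun z : Wd L r =>
      Raised hκ hT D0 (st (splice j z y)) c z)).card := by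
    simp only [Finset.card_filter]
    rw [Fintype.sum_prod_type_right]
  have h3 : ∀ y : Wd L r, (κ : ℤ) * (Finset.univ.filter (fun z : Wd L r =>
      Raised hκ hT D0 (st (splice j z y)) c z)).card ≤ Sc D0 c := by
    intro y
    have h4 : (Finset.univ.filter (fun z : Wd L r =>
      Raised hκ hT D0 (st (splice j z y)) c z)).card =
      ∑ P ∈ Finset.univ.filter (fun P : Wd L r => trunc c P = P),
        ((Finset.univ.filter (fun z : Wd L r =>
          Raised hκ hT D0 (st (splice j z y)) c z)).filter (fun z => trunc c z = P)).card := by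
      refine Finset.card_eq_sum_card_fiberwise (fun z _ => ?_)
      simp only [Finset.coe_filter, Finset.mem_univ, true_and, Set.mem_ofPred_eq]
      rw [trunc_trunc, min_self]
    rw [h4]
    push_cast
    rw [Finset.mul_sum]
    unfold Sc
    refine Finset.sum_le_sum (fun P hP => ?_)
    have hP' : trunc c P = P := (Finset.mem_filter.1 hP).2
    refine le_trans ?_ (raised_bound hκ hT h0 hdeg (hst (splice j P y)) c P)
    have h5 : ((Finset.univ.filter (fun z : Wd L r =>
          Raised hκ hT D0 (st (splice j z y)) c z)).filter (fun z => trunc c z = P)).card ≤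
        (Finset.univ.filter (fun z : Wd L r => trunc c z = trunc c P ∧
          Raised hκ hT D0 (st (splice j P y)) c z)).card := by
      apply Finset.card_le_card
      intro z hz
      rw [Finset.mem_filter, Finset.mem_filter] at hz
      obtain ⟨⟨_, hz1⟩, hz2⟩ := hz
      rw [Finset.mem_filter]
      have hz3 : trunc c z = trunc c P := by rw [hz2, hP']
      have hz4 : splice j z y = splice j P y := by
        funext n
        by_cases hn : n.val < j
        · rw [splice_lt hn, splice_lt hn]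
          exact trunc_eq_iff.1 hz3 n (by omega)
        · rw [splice_ge (by omega), splice_ge (by omega)]
      rw [hz4] at hz1
      exact ⟨Finset.mem_univ _, hz3, hz1⟩
    exact mul_le_mul_of_nonneg_left (by exact_mod_cast h5) (by positivity)
  rw [h1, h2]
  push_cast
  rw [Finset.mul_sum]
  calc _ ≤ ∑ _y : Wd L r, Sc D0 c := Finset.sum_le_sum (fun y _ => h3 y)
    _ = _ := by rw [Finset.sum_const, Finset.card_univ, nsmul_eq_mul]

open Classical in
theorem bad_count (h0 : ∀ v, 0 ≤ D0 v) (hdeg : ∑ v, D0 v < T)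
    (st : Wd L r → Vx m r L → ℤ) (hst : ∀ x, st x ∈ St hκ hT D0) (j i : ℕ) :
    (κ : ℤ) * (Finset.univ.filter (fun p : Wd L r × Wd L r =>
      ∃ c, j ≤ c ∧ c < i ∧ Raised hκ hT D0 (st p.1) c (splice j p.1 p.2))).card ≤
      (Fintype.card (Wd L r) : ℤ) * ∑ c : Fin L, Sc D0 c := by
  have h1 : (Finset.univ.filter (fun p : Wd L r × Wd L r =>
      ∃ c, j ≤ c ∧ c < i ∧ Raised hκ hT D0 (st p.1) c (splice j p.1 p.2))).card ≤
      ∑ c : Fin L, if j ≤ c then (Finset.univ.filter (fun p : Wd L r × Wd L r =>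
        Raised hκ hT D0 (st p.1) c (splice j p.1 p.2))).card else 0 := by
    calc _ ≤ ((Finset.univ : Finset (Fin L)).biUnion (fun c => if j ≤ (c : ℕ) then
        Finset.univ.filter (fun p : Wd L r × Wd L r =>
        Raised hκ hT D0 (st p.1) c (splice j p.1 p.2)) else ∅)).card := by
          apply Finset.card_le_card
          intro p hp
          rw [Finset.mem_filter] at hp
          obtain ⟨_, c, hc1, _, hc3⟩ := hp
          have hcL := Raised.lt hκ hT hc3
          rw [Finset.mem_biUnion]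
          refine ⟨⟨c, hcL⟩, Finset.mem_univ _, ?_⟩
          rw [if_pos hc1]
          rw [Finset.mem_filter]
          exact ⟨Finset.mem_univ _, hc3⟩
      _ ≤ ∑ c : Fin L, (if j ≤ (c : ℕ) then Finset.univ.filter (fun p : Wd L r × Wd L r =>
        Raised hκ hT D0 (st p.1) c (splice j p.1 p.2)) else ∅).card := Finset.card_biUnion_le
      _ = _ := by
        refine Finset.sum_congr rfl (fun c _ => ?_)
        split_ifs <;> simp
  calc _ ≤ (κ : ℤ) * (∑ c : Fin L, if j ≤ c then (Finset.univ.filter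
        (fun p : Wd L r × Wd L r =>
        Raised hκ hT D0 (st p.1) c (splice j p.1 p.2))).card else 0 : ℕ) :=
        mul_le_mul_of_nonneg_left (by exact_mod_cast h1) (by positivity)
    _ ≤ _ := by
      push_cast
      rw [Finset.mul_sum, Finset.mul_sum]
      refine Finset.sum_le_sum (fun c _ => ?_)
      split_ifs with h
      · exact bad_one hκ hT h0 hdeg st hst j c h
      · rw [mul_zero]
        exact mul_nonneg (by positivity) (Sc_nonneg h0 c)

/-- chips on the two ends of a crossing edge are conserved -/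
theorem conserve (h0 : ∀ v, 0 ≤ D0 v) (hdeg : ∑ v, D0 v < T) {φ : Vx m r L → ℤ}
    (hφ : φ ∈ St hκ hT D0) (μ : MIdx m r L) :
    lp hκ hT φ (vX μ false) = φ (vH (en μ false)) - φ (vH (en μ true)) ∧
    lp hκ hT φ (vX μ true) = φ (vH (en μ true)) - φ (vH (en μ false)) := by
  classical
  exact lap_vX hκ hT (St.glued hκ hT h0 hdeg hφ) μ

/-- difference of potentials across a crossing edge as a sum of steps -/
theorem diff_steps (φ : Vx m r L → ℤ) (μ : MIdx m r L) :
    φ (vH (en μ false)) - φ (vH (en μ true)) =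
      ∑ c ∈ Finset.range (m ^ (μ.1.1 : ℕ)), (step φ (sw μ + c) (wd μ false) -
        step φ (sw μ + c) (wd μ true)) := by
  rw [Finset.sum_sub_distrib, sum_step, sum_step]
  have : nd (sw μ) (wd μ false) = nd (sw μ) (wd μ true) :=
    nd_congr (fun n hn => wd_agree μ false true n hn)
  rw [this]
  unfold en
  have h : ew μ = sw μ + m ^ (μ.1.1 : ℕ) := rfl
  rw [h]
  ring

/-- the state chosen for a path in a window -/
noncomputable def cho (D0 : Vx m r L → ℤ) (j i : ℕ) (x : Wd L r) : Vx m r L → ℤ := by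
  classical
  exact if h : ∃ φ ∈ St hκ hT D0, ∃ c, j ≤ c ∧ c < i ∧ Raised hκ hT D0 φ c x then
    Classical.choose h else fun _ => 0

theorem zero_mem_St (h0 : ∀ v, 0 ≤ D0 v) : (fun _ => 0) ∈ St hκ hT D0 := by
  intro v
  have : lp hκ hT (fun _ => 0) v = 0 := (theGraph m r L κ T hκ hT).lap_zero v
  rw [this, add_zero]
  exact h0 v

theorem cho_mem (h0 : ∀ v, 0 ≤ D0 v) (j i : ℕ) (x : Wd L r) :
    cho hκ hT D0 j i x ∈ St hκ hT D0 := by
  unfold cho
  split_ifs with h
  · exact (Classical.choose_spec h).1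
  · exact zero_mem_St hκ hT h0

theorem cho_spec {j i : ℕ} {x : Wd L r} (h : Hit (Mov hκ hT D0) j i x) :
    ∃ c, j ≤ c ∧ c < i ∧ Raised hκ hT D0 (cho hκ hT D0 j i x) c x := by
  have h' : ∃ φ ∈ St hκ hT D0, ∃ c, j ≤ c ∧ c < i ∧ Raised hκ hT D0 φ c x := by
    obtain ⟨c, h1, h2, φ, hφ, h3⟩ := h
    exact ⟨φ, hφ, c, h1, h2, h3⟩
  unfold cho
  rw [dif_pos h']
  exact (Classical.choose_spec h').2

/-- The exceptional pairs. -/
def Exc (D0 : Vx m r L → ℤ) (j i : ℕ) (x z : Wd L r) : Prop :=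
  (¬ Hit (Mov hκ hT D0) j i x ∧ Hit (Mov hκ hT D0) j i z) ∨
  (Hit (Mov hκ hT D0) j i x ∧ ¬ Hit (Mov hκ hT D0) j i z) ∨
  (∃ c, j ≤ c ∧ c < i ∧ Raised hκ hT D0 (cho hκ hT D0 j i x) c z) ∨
  (∃ c, j ≤ c ∧ c < i ∧ Raised hκ hT D0 (cho hκ hT D0 j i z) c x)

theorem cover_ge_one (h0 : ∀ v, 0 ≤ D0 v) (hdeg : ∑ v, D0 v < T)
    (hcov : ∀ v, ∃ φ ∈ St hκ hT D0, 1 ≤ D0 v + lp hκ hT φ v) (μ : MIdx m r L) :
    1 ≤ D0 (vX μ false) + D0 (vX μ true) := by
  obtain ⟨φ, hφ, h1⟩ := hcov (vX μ false)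
  obtain ⟨h2, h3⟩ := conserve hκ hT h0 hdeg hφ μ
  have h4 := hφ (vX μ true)
  rw [h2] at h1
  rw [h3] at h4
  linarith

theorem cover_one_exc (h0 : ∀ v, 0 ≤ D0 v) (hdeg : ∑ v, D0 v < T)
    (hcov : ∀ v, ∃ φ ∈ St hκ hT D0, 1 ≤ D0 v + lp hκ hT φ v) (μ : MIdx m r L)
    (h : D0 (vX μ false) + D0 (vX μ true) = 1) :
    Exc hκ hT D0 (sw μ) (ew μ) (wd μ false) (wd μ true) := by
  by_contra hexc
  unfold Exc at hexc
  push Not at hexc
  obtain ⟨e1, e2, e3, e4⟩ := hexc
  set j := sw μ with hj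
  have hew : ew μ = j + m ^ (μ.1.1 : ℕ) := rfl
  by_cases hx : Hit (Mov hκ hT D0) j (ew μ) (wd μ false)
  · have hz := e2 hx
    obtain ⟨c1, h11, h12, h13⟩ := cho_spec hκ hT hx
    obtain ⟨c2, h21, h22, h23⟩ := cho_spec hκ hT hz
    set φ1 := cho hκ hT D0 j (ew μ) (wd μ false) with hφ1
    set φ2 := cho hκ hT D0 j (ew μ) (wd μ true) with hφ2
    have hm1 : φ1 ∈ St hκ hT D0 := cho_mem hκ hT h0 _ _ _
    have hm2 : φ2 ∈ St hκ hT D0 := cho_mem hκ hT h0 _ _ _
    -- comparison of steps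
    have k1 : ∀ c, j ≤ c → c < ew μ → step φ2 c (wd μ false) ≤ step φ1 c (wd μ false) := by
      intro c hc1 hc2
      by_contra hcon
      push Not at hcon
      exact e4 c hc1 hc2 ⟨φ1, hm1, hcon⟩
    have k2 : ∀ c, j ≤ c → c < ew μ → step φ1 c (wd μ true) ≤ step φ2 c (wd μ true) := by
      intro c hc1 hc2
      by_contra hcon
      push Not at hcon
      exact e3 c hc1 hc2 ⟨φ2, hm2, hcon⟩
    have k3 : step φ2 c1 (wd μ false) < step φ1 c1 (wd μ false) := by
      obtain ⟨φ', hφ', hlt⟩ := h13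
      have h5 : step φ2 c1 (wd μ false) ≤ step φ' c1 (wd μ false) := by
        by_contra hcon
        push Not at hcon
        exact e4 c1 h11 h12 ⟨φ', hφ', hcon⟩
      exact lt_of_le_of_lt h5 hlt
    have k4 : step φ1 c2 (wd μ true) < step φ2 c2 (wd μ true) := by
      obtain ⟨φ', hφ', hlt⟩ := h23
      have h5 : step φ1 c2 (wd μ true) ≤ step φ' c2 (wd μ true) := by
        by_contra hcon
        push Not at hcon
        exact e3 c2 h21 h22 ⟨φ', hφ', hcon⟩
      exact lt_of_le_of_lt h5 hlt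
    have hsum1 : ∑ c ∈ Finset.range (m ^ (μ.1.1 : ℕ)), step φ2 (j + c) (wd μ false) + 1 ≤
        ∑ c ∈ Finset.range (m ^ (μ.1.1 : ℕ)), step φ1 (j + c) (wd μ false) := by
      have : ∑ c ∈ Finset.range (m ^ (μ.1.1 : ℕ)), step φ2 (j + c) (wd μ false) <
        ∑ c ∈ Finset.range (m ^ (μ.1.1 : ℕ)), step φ1 (j + c) (wd μ false) := by
        refine Finset.sum_lt_sum (fun c hc => k1 _ (by omega) ?_) ⟨c1 - j, ?_, ?_⟩
        · rw [Finset.mem_range] at hc; omega
        · rw [Finset.mem_range]; omega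
        · have : j + (c1 - j) = c1 := by omega
          rw [this]; exact k3
      omega
    have hsum2 : ∑ c ∈ Finset.range (m ^ (μ.1.1 : ℕ)), step φ1 (j + c) (wd μ true) + 1 ≤
        ∑ c ∈ Finset.range (m ^ (μ.1.1 : ℕ)), step φ2 (j + c) (wd μ true) := by
      have : ∑ c ∈ Finset.range (m ^ (μ.1.1 : ℕ)), step φ1 (j + c) (wd μ true) <
        ∑ c ∈ Finset.range (m ^ (μ.1.1 : ℕ)), step φ2 (j + c) (wd μ true) := by
        refine Finset.sum_lt_sum (fun c hc => k2 _ (by omega) ?_) ⟨c2 - j, ?_, ?_⟩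
        · rw [Finset.mem_range] at hc; omega
        · rw [Finset.mem_range]; omega
        · have : j + (c2 - j) = c2 := by omega
          rw [this]; exact k4
      omega
    have d1 := diff_steps φ1 μ
    have d2 := diff_steps φ2 μ
    rw [Finset.sum_sub_distrib] at d1 d2
    have a1 := conserve hκ hT h0 hdeg hm1 μ
    have a2 := conserve hκ hT h0 hdeg hm2 μ
    have b1 := hm1 (vX μ true)
    have b2 := hm2 (vX μ false)
    rw [a1.2] at b1
    rw [a2.1] at b2
    linarith
  · have hz : ¬ Hit (Mov hκ hT D0) j (ew μ) (wd μ true) := fun hz => e1 hx hz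
    have key : ∀ φ ∈ St hκ hT D0, ∀ φ' ∈ St hκ hT D0,
        φ (vH (en μ false)) - φ (vH (en μ true)) =
        φ' (vH (en μ false)) - φ' (vH (en μ true)) := by
      intro φ hφ φ' hφ'
      rw [diff_steps φ μ, diff_steps φ' μ]
      refine Finset.sum_congr rfl (fun c hc => ?_)
      rw [Finset.mem_range] at hc
      have g1 : ∀ ψ ∈ St hκ hT D0, ∀ ψ' ∈ St hκ hT D0,
          step ψ (j + c) (wd μ false) ≤ step ψ' (j + c) (wd μ false) := by
        intro ψ hψ ψ' hψ'
        by_contra hcon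
        push Not at hcon
        exact hx ⟨j + c, by omega, by omega, ψ, hψ, ψ', hψ', hcon⟩
      have g2 : ∀ ψ ∈ St hκ hT D0, ∀ ψ' ∈ St hκ hT D0,
          step ψ (j + c) (wd μ true) ≤ step ψ' (j + c) (wd μ true) := by
        intro ψ hψ ψ' hψ'
        by_contra hcon
        push Not at hcon
        exact hz ⟨j + c, by omega, by omega, ψ, hψ, ψ', hψ', hcon⟩
      rw [le_antisymm (g1 φ hφ φ' hφ') (g1 φ' hφ' φ hφ),
        le_antisymm (g2 φ hφ φ' hφ') (g2 φ' hφ' φ hφ)]
    obtain ⟨φ, hφ, hc1⟩ := hcov (vX μ false)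
    obtain ⟨φ', hφ', hc2⟩ := hcov (vX μ true)
    have a1 := conserve hκ hT h0 hdeg hφ μ
    have a2 := conserve hκ hT h0 hdeg hφ' μ
    have hk := key φ hφ φ' hφ'
    rw [a1.1] at hc1
    rw [a2.2] at hc2
    linarith

end lowerB

end Pool.Agent.H44.Gon
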