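import Pool.Agent.H44.Gon.PL

set_option autoImplicit false

namespace Pool.Agent.H44.Gon

open Set Filter Topology

namespace MGraph

variable (G : MGraph)

/-- The point of the closed edge `e` at distance `t` from `src e`. -/
noncomputable def pt (e : G.E) (t : ℝ) : G.Pt :=
  if h : t ∈ Set.Ioo (0 : ℝ) 1 then Sum.inr (e, ⟨t, h⟩)
  else if t ≤ 0 then Sum.inl (G.src e) else Sum.inl (G.tgt e)

theorem onEdge_eq (f : G.Pt → ℝ) (e : G.E) (t : ℝ) : G.onEdge f e t = f (G.pt e t) := by
  unfold onEdge pt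
  split_ifs <;> rfl

theorem pt_zero (e : G.E) : G.pt e 0 = Sum.inl (G.src e) := by
  unfold pt; simp

theorem pt_one (e : G.E) : G.pt e 1 = Sum.inl (G.tgt e) := by
  unfold pt; simp

theorem pt_mem (e : G.E) {t : ℝ} (h : t ∈ Set.Ioo (0 : ℝ) 1) :
    G.pt e t = Sum.inr (e, ⟨t, h⟩) := by
  unfold pt; rw [dif_pos h]

/-- Principal divisors of `Γ(G)`. -/
def Princ (P : G.Pt →₀ ℤ) : Prop :=
  ∃ f : G.Pt → ℝ, G.IsRational f ∧ ∀ x, ((P x : ℤ) : ℝ) = G.divF f x

theorem mequiv_iff (D D' : G.Pt →₀ ℤ) : G.MEquiv D D' ↔ G.Princ (D - D') := by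
  unfold MEquiv Princ
  simp

theorem slopeR_add {F H : ℝ → ℝ} (hF : IsPL F) (hH : IsPL H) {t : ℝ} (ht : t ∈ Ico (0 : ℝ) 1) :
    slopeR (fun u => F u + H u) t = slopeR F t + slopeR H t := by
  obtain ⟨m, hm⟩ := hF.right ht
  obtain ⟨m', hm'⟩ := hH.right ht
  rw [slopeR_eq hm, slopeR_eq hm', slopeR_eq (hm.fun_add hm')]

theorem slopeL_add {F H : ℝ → ℝ} (hF : IsPL F) (hH : IsPL H) {t : ℝ} (ht : t ∈ Ioc (0 : ℝ) 1) :
    slopeL (fun u => F u + H u) t = slopeL F t + slopeL H t := by
  obtain ⟨m, hm⟩ := hF.left ht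
  obtain ⟨m', hm'⟩ := hH.left ht
  rw [slopeL_eq hm, slopeL_eq hm', slopeL_eq (hm.fun_add hm')]
  ring

theorem slopeR_zmul {F : ℝ → ℝ} (hF : IsPL F) (n : ℤ) {t : ℝ} (ht : t ∈ Ico (0 : ℝ) 1) :
    slopeR (fun u => (n : ℝ) * F u) t = n * slopeR F t := by
  obtain ⟨m, hm⟩ := hF.right ht
  rw [slopeR_eq hm, slopeR_eq (hm.const_mul (n : ℝ))]

theorem slopeL_zmul {F : ℝ → ℝ} (hF : IsPL F) (n : ℤ) {t : ℝ} (ht : t ∈ Ioc (0 : ℝ) 1) :
    slopeL (fun u => (n : ℝ) * F u) t = n * slopeL F t := by
  obtain ⟨m, hm⟩ := hF.left ht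
  rw [slopeL_eq hm, slopeL_eq (hm.const_mul (n : ℝ))]
  ring

theorem Princ.add {P Q : G.Pt →₀ ℤ} (hP : G.Princ P) (hQ : G.Princ Q) : G.Princ (P + Q) := by
  obtain ⟨f, hf, hfP⟩ := hP
  obtain ⟨g, hg, hgQ⟩ := hQ
  have hon : ∀ e, G.onEdge (fun x => f x + g x) e = fun t => G.onEdge f e t + G.onEdge g e t := by
    intro e; funext t
    simp only [onEdge_eq]
  refine ⟨fun x => f x + g x, fun e => ?_, fun x => ?_⟩
  · rw [hon]; exact (hf e).add (hg e)
  · rw [Finsupp.add_apply]
    push_cast
    rw [hfP x, hgQ x]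
    rcases x with v | ⟨e, t⟩
    · simp only [divF]
      rw [← Finset.sum_add_distrib]
      refine Finset.sum_congr rfl (fun e _ => ?_)
      rw [hon, slopeR_add (hf e) (hg e) ⟨le_refl _, zero_lt_one⟩,
        slopeL_add (hf e) (hg e) ⟨zero_lt_one, le_refl _⟩]
      split_ifs <;> ring
    · simp only [divF]
      rw [hon, slopeR_add (hf e) (hg e) ⟨t.2.1.le, t.2.2⟩,
        slopeL_add (hf e) (hg e) ⟨t.2.1, t.2.2.le⟩]
      ring

theorem Princ.neg {P : G.Pt →₀ ℤ} (hP : G.Princ P) : G.Princ (-P) := by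
  obtain ⟨f, hf, hfP⟩ := hP
  have hon : ∀ e, G.onEdge (fun x => ((-1 : ℤ) : ℝ) * f x) e =
      fun t => ((-1 : ℤ) : ℝ) * G.onEdge f e t := by
    intro e; funext t
    simp only [onEdge_eq]
  refine ⟨fun x => ((-1 : ℤ) : ℝ) * f x, fun e => ?_, fun x => ?_⟩
  · rw [hon]; exact (hf e).zmul (-1)
  · rw [Finsupp.neg_apply]
    push_cast
    rw [hfP x]
    rcases x with v | ⟨e, t⟩
    · simp only [divF]
      rw [← Finset.sum_neg_distrib]
      refine Finset.sum_congr rfl (fun e _ => ?_)
      have h1 := slopeR_zmul (hf e) (-1) (t := 0) ⟨le_refl _, zero_lt_one⟩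
      have h2 := slopeL_zmul (hf e) (-1) (t := 1) ⟨zero_lt_one, le_refl _⟩
      have := hon e
      push_cast at this h1 h2
      rw [this, h1, h2]
      split_ifs <;> ring
    · simp only [divF]
      have h1 := slopeR_zmul (hf e) (-1) (t := t) ⟨t.2.1.le, t.2.2⟩
      have h2 := slopeL_zmul (hf e) (-1) (t := t) ⟨t.2.1, t.2.2.le⟩
      have := hon e
      push_cast at this h1 h2
      rw [this, h1, h2]
      ring

theorem Princ.sub {P Q : G.Pt →₀ ℤ} (hP : G.Princ P) (hQ : G.Princ Q) : G.Princ (P - Q) := by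
  rw [sub_eq_add_neg]
  exact Princ.add G hP (Princ.neg G hQ)

/-- The basic family of rational functions: on each edge a sum of ramps. -/
theorem princ_ramps {I : Type} [Fintype I] (val : G.V → ℝ) (n : G.E → I → ℤ)
    (a b : G.E → I → ℝ) (ha : ∀ e i, 0 ≤ a e i) (hab : ∀ e i, a e i ≤ b e i)
    (hb : ∀ e i, b e i ≤ 1)
    (hval : ∀ e, val (G.tgt e) - val (G.src e) = ∑ i, (n e i : ℝ) * (b e i - a e i)) :
    G.Princ (∑ e, ∑ i, n e i • (Finsupp.single (G.pt e (a e i)) (1 : ℤ) -
      Finsupp.single (G.pt e (b e i)) 1)) := by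
  classical
  set f : G.Pt → ℝ := fun x => match x with
    | Sum.inl v => val v
    | Sum.inr (e, t) => val (G.src e) + ∑ i, (n e i : ℝ) * (ramp (a e i) (b e i) t - a e i)
    with hf
  have hon : ∀ e, ∀ t ∈ Icc (0 : ℝ) 1, G.onEdge f e t =
      val (G.src e) + ∑ i, (n e i : ℝ) * (ramp (a e i) (b e i) t - a e i) := by
    intro e t ht
    rw [onEdge_eq]
    by_cases h : t ∈ Ioo (0 : ℝ) 1
    · rw [G.pt_mem e h]
    · rcases eq_or_lt_of_le ht.1 with h0 | h0
      · rw [← h0, G.pt_zero]
        simp only [hf]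
        have : ∀ i, ramp (a e i) (b e i) 0 = a e i := fun i => ramp_of_le (hab e i) (ha e i)
        simp [this]
      · have h1 : t = 1 := by
          by_contra h1
          exact h ⟨h0, lt_of_le_of_ne ht.2 h1⟩
        rw [h1, G.pt_one]
        simp only [hf]
        have : ∀ i, ramp (a e i) (b e i) 1 = b e i := fun i => ramp_of_ge (hab e i) (hb e i)
        simp only [this]
        linarith [hval e]
  have hR : ∀ e, ∀ t ∈ Ico (0 : ℝ) 1, slopeR (G.onEdge f e) t =
      ∑ i, (n e i : ℝ) * (if a e i ≤ t ∧ t < b e i then 1 else 0) := by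
    intro e t ht
    apply slopeR_eq
    have h1 : HasDerivWithinAt (fun t => val (G.src e) +
        ∑ i, (n e i : ℝ) * (ramp (a e i) (b e i) t - a e i))
        (∑ i, (n e i : ℝ) * (if a e i ≤ t ∧ t < b e i then 1 else 0)) (Ici t) t := by
      refine HasDerivWithinAt.const_add _ ?_
      refine HasDerivWithinAt.fun_sum (fun i _ => ?_)
      exact ((ramp_right (hab e i)).sub_const _).const_mul _
    refine h1.congr_of_eventuallyEq ?_ (hon e t ⟨ht.1, ht.2.le⟩)
    have : Icc t 1 ∈ 𝓝[Ici t] t := Icc_mem_nhdsGE ht.2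
    filter_upwards [this] with u hu
    exact hon e u ⟨ht.1.trans hu.1, hu.2⟩
  have hL : ∀ e, ∀ t ∈ Ioc (0 : ℝ) 1, slopeL (G.onEdge f e) t =
      -∑ i, (n e i : ℝ) * (if a e i < t ∧ t ≤ b e i then 1 else 0) := by
    intro e t ht
    apply slopeL_eq
    have h1 : HasDerivWithinAt (fun t => val (G.src e) +
        ∑ i, (n e i : ℝ) * (ramp (a e i) (b e i) t - a e i))
        (∑ i, (n e i : ℝ) * (if a e i < t ∧ t ≤ b e i then 1 else 0)) (Iic t) t := by
      refine HasDerivWithinAt.const_add _ ?_
      refine HasDerivWithinAt.fun_sum (fun i _ => ?_)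
      exact ((ramp_left (hab e i)).sub_const _).const_mul _
    refine h1.congr_of_eventuallyEq ?_ (hon e t ⟨ht.1.le, ht.2⟩)
    have : Icc 0 t ∈ 𝓝[Iic t] t := Icc_mem_nhdsLE ht.1
    filter_upwards [this] with u hu
    exact hon e u ⟨hu.1, hu.2.trans ht.2⟩
  refine ⟨f, fun e => ?_, fun x => ?_⟩
  · refine IsPL.congr (F := fun t => val (G.src e) +
      ∑ i, (n e i : ℝ) * (ramp (a e i) (b e i) t - a e i)) ?_ (hon e)
    refine (IsPL.const _).add (IsPL.sum _ (fun i _ => ?_))
    have := ((ramp_isPL (hab e i)).add (IsPL.const (-(a e i)))).zmul (n e i)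
    refine this.congr (fun t _ => by ring)
  · have hsum : ∀ x : G.Pt, (∑ e, ∑ i, n e i • (Finsupp.single (G.pt e (a e i)) (1 : ℤ) -
      Finsupp.single (G.pt e (b e i)) 1) : G.Pt →₀ ℤ) x =
      ∑ e, ∑ i, n e i * ((if G.pt e (a e i) = x then 1 else 0) -
        (if G.pt e (b e i) = x then 1 else 0)) := by
      intro x
      simp only [Finsupp.finsetSum_apply, Finsupp.smul_apply, Finsupp.sub_apply,
        Finsupp.single_apply, smul_eq_mul]
    rw [hsum x]
    push_cast
    rcases x with v | ⟨e0, t, ht⟩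
    · simp only [divF]
      refine Finset.sum_congr rfl (fun e _ => ?_)
      rw [hR e 0 ⟨le_refl _, zero_lt_one⟩, hL e 1 ⟨zero_lt_one, le_refl _⟩]
      have hsplit : ∀ (P Q : Prop) [Decidable P] [Decidable Q] (A B : ℝ),
          ((if P then A else 0) + (if Q then -B else 0)) =
          (if P then (1 : ℝ) else 0) * A - (if Q then (1 : ℝ) else 0) * B := by
        intro P Q _ _ A B; split_ifs <;> ring
      rw [hsplit, Finset.mul_sum, Finset.mul_sum, ← Finset.sum_sub_distrib]
      refine Finset.sum_congr rfl (fun i _ => ?_)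
      have hne := G.loopless e
      have key : ∀ s : ℝ, 0 ≤ s → s ≤ 1 →
          (if G.pt e s = Sum.inl v then (1 : ℝ) else 0) =
          (if G.src e = v then (1 : ℝ) else 0) * (if s = 0 then 1 else 0) +
          (if G.tgt e = v then (1 : ℝ) else 0) * (if s = 1 then 1 else 0) := by
        intro s hs0 hs1
        by_cases h0 : s = 0
        · subst h0
          rw [G.pt_zero]
          simp
        · by_cases h1 : s = 1
          · subst h1
            rw [G.pt_one]
            simp
          · rw [G.pt_mem e ⟨lt_of_le_of_ne hs0 (Ne.symm h0), lt_of_le_of_ne hs1 h1⟩]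
            simp [h0, h1]
      rw [key _ (ha e i) ((hab e i).trans (hb e i)), key _ ((ha e i).trans (hab e i)) (hb e i)]
      have e1 : (if a e i ≤ 0 ∧ 0 < b e i then (1 : ℝ) else 0) =
          (if a e i = 0 then 1 else 0) - (if b e i = 0 then 1 else 0) := by
        have h1 := ha e i
        have h2 := hab e i
        by_cases h0 : b e i = 0
        · have : a e i = 0 := le_antisymm (h2.trans h0.le) h1
          simp [h0, this]
        · have hbpos : 0 < b e i := lt_of_le_of_ne (h1.trans h2) (Ne.symm h0)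
          by_cases h3 : a e i = 0
          · simp [h3, h0, hbpos]
          · have : ¬ (a e i ≤ 0) := fun h => h3 (le_antisymm h h1)
            simp [h3, h0, this]
      have e2 : (if a e i < 1 ∧ 1 ≤ b e i then (1 : ℝ) else 0) =
          (if b e i = 1 then 1 else 0) - (if a e i = 1 then 1 else 0) := by
        have h1 := hb e i
        have h2 := hab e i
        by_cases h0 : a e i = 1
        · have : b e i = 1 := le_antisymm h1 (h0 ▸ h2)
          simp [h0, this]
        · have hbpos : a e i < 1 := lt_of_le_of_ne (h2.trans h1) h0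
          by_cases h3 : b e i = 1
          · simp [h3, h0, hbpos]
          · have : ¬ (1 ≤ b e i) := fun h => h3 (le_antisymm h1 h)
            simp [h3, h0, this]
      rw [e1, e2]
      ring
    · simp only [divF]
      rw [hR e0 t ⟨ht.1.le, ht.2⟩, hL e0 t ⟨ht.1, ht.2.le⟩]
      have key : ∀ e (s : ℝ), 0 ≤ s → s ≤ 1 →
          (if G.pt e s = Sum.inr (e0, ⟨t, ht⟩) then (1 : ℝ) else 0) =
          (if e = e0 then (1 : ℝ) else 0) * (if s = t then 1 else 0) := by
        intro e s hs0 hs1
        by_cases h0 : s = 0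
        · subst h0
          rw [G.pt_zero]
          have : (0 : ℝ) ≠ t := ne_of_lt ht.1
          simp [this]
        · by_cases h1 : s = 1
          · subst h1
            rw [G.pt_one]
            have : (1 : ℝ) ≠ t := ne_of_gt ht.2
            simp [this]
          · rw [G.pt_mem e ⟨lt_of_le_of_ne hs0 (Ne.symm h0), lt_of_le_of_ne hs1 h1⟩]
            by_cases he : e = e0
            · subst he
              by_cases hs : s = t
              · subst hs; simp
              · have : (⟨s, lt_of_le_of_ne hs0 (Ne.symm h0), lt_of_le_of_ne hs1 h1⟩ :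
                    Set.Ioo (0 : ℝ) 1) ≠ ⟨t, ht⟩ := fun h => hs (congrArg Subtype.val h)
                simp [hs, this]
            · simp [he]
      have : ∀ e, ∑ i, (n e i : ℝ) * ((if G.pt e (a e i) = Sum.inr (e0, ⟨t, ht⟩) then (1 : ℝ) else 0)
          - (if G.pt e (b e i) = Sum.inr (e0, ⟨t, ht⟩) then 1 else 0)) =
          if e = e0 then ∑ i, (n e i : ℝ) * ((if a e i = t then 1 else 0) -
            (if b e i = t then 1 else 0)) else 0 := by
        intro e
        by_cases he : e = e0
        · rw [if_pos he]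
          refine Finset.sum_congr rfl (fun i _ => ?_)
          rw [key _ _ (ha e i) ((hab e i).trans (hb e i)),
            key _ _ ((ha e i).trans (hab e i)) (hb e i)]
          simp [he]
        · rw [if_neg he]
          refine Finset.sum_eq_zero (fun i _ => ?_)
          rw [key _ _ (ha e i) ((hab e i).trans (hb e i)),
            key _ _ ((ha e i).trans (hab e i)) (hb e i)]
          simp [he]
      rw [Finset.sum_congr rfl (fun e _ => this e), Finset.sum_ite_eq' Finset.univ e0,
        if_pos (Finset.mem_univ _), ← sub_eq_add_neg, ← Finset.sum_sub_distrib]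
      refine Finset.sum_congr rfl (fun i _ => ?_)
      have e1 : (if a e0 i ≤ t ∧ t < b e0 i then (1 : ℝ) else 0) -
          (if a e0 i < t ∧ t ≤ b e0 i then 1 else 0) =
          (if a e0 i = t then 1 else 0) - (if b e0 i = t then 1 else 0) := by
        have h2 := hab e0 i
        by_cases h3 : a e0 i = t
        · by_cases h4 : b e0 i = t
          · simp [h3, h4]
          · have : t < b e0 i := lt_of_le_of_ne (h3 ▸ h2) (Ne.symm h4)
            simp [h3, h4, this]
        · by_cases h4 : b e0 i = t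
          · have : a e0 i < t := lt_of_le_of_ne (h4 ▸ h2) h3
            simp [h3, h4, this]
          · have e3 : (a e0 i ≤ t) ↔ a e0 i < t := ⟨fun h => lt_of_le_of_ne h h3, le_of_lt⟩
            have e4 : (t ≤ b e0 i) ↔ t < b e0 i := ⟨fun h => lt_of_le_of_ne h (Ne.symm h4), le_of_lt⟩
            simp [h3, h4, e3, e4]
      rw [← e1]
      ring

theorem Princ.zero : G.Princ 0 := by
  have h := G.princ_ramps (I := Empty) (fun _ => 0) (fun _ i => i.elim) (fun _ i => i.elim)
    (fun _ i => i.elim) (fun _ i => i.elim) (fun _ i => i.elim) (fun _ i => i.elim)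
    (fun _ => by simp)
  simpa using h

/-- Two chips at the ends of an edge can be moved symmetrically towards each other. -/
theorem princ_tent (e : G.E) (t : ℝ) (ht : t ∈ Ioo (0 : ℝ) 1) :
    G.Princ (Finsupp.single (Sum.inl (G.src e)) (1 : ℤ) + Finsupp.single (Sum.inl (G.tgt e)) 1
      - Finsupp.single (G.pt e t) 1 - Finsupp.single (G.pt e (1 - t)) 1) := by
  classical
  set τ := min t (1 - t) with hτ
  have hτ0 : 0 < τ := lt_min ht.1 (by linarith [ht.2])
  have hτ1 : τ ≤ 1 - τ := by
    rcases le_total t (1 - t) with h | h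
    · rw [hτ, min_eq_left h]; exact h
    · rw [hτ, min_eq_right h]; linarith
  have h := G.princ_ramps (I := Bool) (fun _ => 0)
    (fun e' i => if e' = e then (if i then 1 else -1) else 0)
    (fun _ i => if i then 0 else 1 - τ) (fun _ i => if i then τ else 1)
    (by intro _ i; cases i <;> simp; linarith)
    (by intro _ i; cases i <;> simp <;> linarith)
    (by intro _ i; cases i <;> simp; linarith)
    (by
      intro e'
      by_cases he : e' = e
      · simp [he]
      · simp [he])
  have heq : (∑ e', ∑ i : Bool, (if e' = e then (if i then (1 : ℤ) else -1) else 0) •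
      (Finsupp.single (G.pt e' (if i then 0 else 1 - τ)) (1 : ℤ) -
      Finsupp.single (G.pt e' (if i then τ else 1)) 1)) =
      Finsupp.single (Sum.inl (G.src e)) (1 : ℤ) + Finsupp.single (Sum.inl (G.tgt e)) 1
      - Finsupp.single (G.pt e t) 1 - Finsupp.single (G.pt e (1 - t)) 1 := by
    rw [Finset.sum_eq_single e]
    · simp only [Fintype.sum_bool, if_true, Bool.false_eq_true, if_false]
      rw [G.pt_zero, G.pt_one]
      rcases le_total t (1 - t) with h | h
      · rw [hτ, min_eq_left h]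
        simp only [one_smul, neg_smul]
        abel
      · rw [hτ, min_eq_right h]
        simp only [one_smul, neg_smul, sub_sub_cancel]
        abel
    · intro e' _ he
      simp [he]
    · simp
  rw [← heq]
  exact h

end MGraph

end Pool.Agent.H44.Gon
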