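import Pool.Agent.H44.Gon.Metric

set_option autoImplicit false

namespace Pool.Agent.H44.Gon

open Set Filter Topology

namespace MGraph

variable (G : MGraph)

/-- The parameters of the interior points of `e` in the support of `D`. -/
noncomputable def supp (D : G.Pt →₀ ℤ) (e : G.E) : Finset ℝ :=
  (D.support.preimage (fun t : Ioo (0 : ℝ) 1 => (Sum.inr (e, t) : G.Pt))
    (by intro a _ b _ h; simpa using h)).map ⟨Subtype.val, Subtype.val_injective⟩

/-- The coefficient of `D` at the point `t` of the edge `e`, for `0 < t < 1`. -/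
noncomputable def coef (D : G.Pt →₀ ℤ) (e : G.E) (t : ℝ) : ℤ :=
  if h : t ∈ Ioo (0 : ℝ) 1 then D (Sum.inr (e, ⟨t, h⟩)) else 0

theorem supp_mem {D : G.Pt →₀ ℤ} {e : G.E} {t : ℝ} (h : t ∈ G.supp D e) : t ∈ Ioo (0 : ℝ) 1 := by
  unfold supp at h
  rw [Finset.mem_map] at h
  obtain ⟨s, _, rfl⟩ := h
  exact s.2

theorem mem_supp {D : G.Pt →₀ ℤ} {e : G.E} {t : ℝ} (h : G.coef D e t ≠ 0) : t ∈ G.supp D e := by
  unfold coef at h
  split_ifs at h with h1
  · unfold supp
    rw [Finset.mem_map]
    exact ⟨⟨t, h1⟩, Finset.mem_preimage.2 (Finsupp.mem_support_iff.2 h), rfl⟩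
  · exact absurd rfl h

/-- The number of chips of `D` in the interior of `e`. -/
noncomputable def cnt (D : G.Pt →₀ ℤ) (e : G.E) : ℤ := ∑ t ∈ G.supp D e, G.coef D e t

/-- degree as a homomorphism -/
noncomputable def mdegHom : (G.Pt →₀ ℤ) →+ ℤ := Finsupp.liftAddHom fun _ => AddMonoidHom.id ℤ

theorem mdeg_eq (D : G.Pt →₀ ℤ) : G.mdeg D = G.mdegHom D := rfl

theorem mdegHom_single (x : G.Pt) (n : ℤ) : G.mdegHom (Finsupp.single x n) = n := by
  unfold mdegHom
  simp

theorem mdeg_decomp (D : G.Pt →₀ ℤ) :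
    G.mdeg D = ∑ v, D (Sum.inl v) + ∑ e, G.cnt D e := by
  classical
  have h : D = ∑ v, Finsupp.single (Sum.inl v) (D (Sum.inl v)) +
      ∑ e, ∑ t ∈ G.supp D e, Finsupp.single (G.pt e t) (G.coef D e t) := by
    ext x
    rw [Finsupp.add_apply, Finsupp.finsetSum_apply, Finsupp.finsetSum_apply]
    simp only [Finsupp.finsetSum_apply, Finsupp.single_apply]
    rcases x with v | ⟨e0, t0⟩
    · have h1 : ∀ e, ∑ t ∈ G.supp D e, (if G.pt e t = Sum.inl v then G.coef D e t else 0) = 0 := by
        intro e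
        refine Finset.sum_eq_zero (fun t ht => ?_)
        rw [G.pt_mem e (G.supp_mem ht)]
        simp
      rw [Finset.sum_congr rfl (fun e _ => h1 e)]
      simp
    · have h1 : ∀ e, ∑ t ∈ G.supp D e, (if G.pt e t = Sum.inr (e0, t0) then G.coef D e t else 0) =
          if e = e0 then D (Sum.inr (e0, t0)) else 0 := by
        intro e
        by_cases he : e = e0
        · subst he
          rw [if_pos rfl]
          have h2 : G.coef D e t0 = D (Sum.inr (e, t0)) := by
            unfold coef; rw [dif_pos t0.2]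
          by_cases h3 : D (Sum.inr (e, t0)) = 0
          · rw [h3]
            refine Finset.sum_eq_zero (fun t ht => ?_)
            rw [G.pt_mem e (G.supp_mem ht)]
            split_ifs with h4
            · have : t = (t0 : ℝ) := by
                simpa [Subtype.ext_iff] using h4
              rw [this, h2, h3]
            · rfl
          · rw [Finset.sum_eq_single (t0 : ℝ)]
            · rw [G.pt_mem e t0.2, h2]; simp
            · intro t ht hne
              rw [G.pt_mem e (G.supp_mem ht)]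
              have : (⟨t, G.supp_mem ht⟩ : Ioo (0 : ℝ) 1) ≠ t0 := fun h => hne (by rw [← h])
              simp [this]
            · intro h
              exact absurd (G.mem_supp (by rw [h2]; exact h3)) h
        · rw [if_neg he]
          refine Finset.sum_eq_zero (fun t ht => ?_)
          rw [G.pt_mem e (G.supp_mem ht)]
          simp [he]
      rw [Finset.sum_congr rfl (fun e _ => h1 e)]
      simp
  conv_lhs => rw [h]
  rw [mdeg_eq, map_add, map_sum, map_sum]
  simp only [map_sum, mdegHom_single]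
  rfl

/-- The degree of a principal divisor is zero. -/
theorem Princ.mdeg_zero {P : G.Pt →₀ ℤ} (hP : G.Princ P) : G.mdeg P = 0 := by
  classical
  obtain ⟨f, hf, hfP⟩ := hP
  rw [mdeg_decomp]
  have h1 : ((∑ v, P (Sum.inl v) : ℤ) : ℝ) =
      ∑ e, (slopeR (G.onEdge f e) 0 + slopeL (G.onEdge f e) 1) := by
    push_cast
    simp only [hfP, divF]
    rw [Finset.sum_comm]
    refine Finset.sum_congr rfl (fun e _ => ?_)
    rw [Finset.sum_add_distrib]
    simp
  have h2 : ∀ e, ((G.cnt P e : ℤ) : ℝ) =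
      -(slopeR (G.onEdge f e) 0 + slopeL (G.onEdge f e) 1) := by
    intro e
    obtain ⟨S, hS⟩ := hf e
    have htel := telescope S hS _ 0 1 (le_refl _) zero_lt_one (le_refl _) rfl
    have hco : ∀ t ∈ Ioo (0 : ℝ) 1, ((G.coef P e t : ℤ) : ℝ) =
        slopeR (G.onEdge f e) t + slopeL (G.onEdge f e) t := by
      intro t ht
      unfold coef
      rw [dif_pos ht, hfP]
      rfl
    have hzero : ∀ t ∈ Ioo (0 : ℝ) 1, t ∉ S →
        slopeR (G.onEdge f e) t + slopeL (G.onEdge f e) t = 0 := by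
      intro t ht htS
      obtain ⟨a, b, hat, htb, ha, hb, hab⟩ : ∃ a b, a < t ∧ t < b ∧ 0 ≤ a ∧ b ≤ 1 ∧
          ∀ s ∈ S, s ∉ Ioo a b := by
        have hfin : ((S : Set ℝ)ᶜ ∩ Ioo 0 1) ∈ 𝓝 t := by
          refine Filter.inter_mem ?_ (Ioo_mem_nhds ht.1 ht.2)
          exact S.finite_toSet.isClosed.isOpen_compl.mem_nhds htS
        obtain ⟨a, b, hab, hsub⟩ := mem_nhds_iff_exists_Ioo_subset.1 hfin
        refine ⟨a, b, hab.1, hab.2, ?_, ?_, ?_⟩
        · by_contra h
          push Not at h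
          have h1 : (max a 0 + min b t) / 2 ∈ Ioo a b := by
            constructor
            · have : a ≤ max a 0 := le_max_left _ _
              have h2 : 0 ≤ max a 0 := le_max_right _ _
              have h3 : max a 0 = 0 := max_eq_right h.le
              have h4 : min b t = t := min_eq_right hab.2.le
              rw [h3, h4]; linarith [ht.1]
            · have h3 : max a 0 = 0 := max_eq_right h.le
              have h4 : min b t = t := min_eq_right hab.2.le
              rw [h3, h4]; linarith [ht.1, hab.2]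
          -- the point a/2 < 0 lies in (a,b)
          have h5 : a / 2 ∈ Ioo a b := ⟨by linarith, by linarith [hab.2, ht.1]⟩
          have h6 := (hsub h5).2
          linarith [h6.1]
        · by_contra h
          push Not at h
          have h5 : (1 + b) / 2 ∈ Ioo a b := ⟨by linarith [hab.1, ht.2], by linarith⟩
          have h6 := (hsub h5).2
          linarith [h6.2]
        · intro s hs hs'
          exact (hsub hs').1 hs
      obtain ⟨m, hm⟩ := hS a b ha (hat.trans htb) hb hab
      rw [slopeR_eq (affine_slopeR hm ⟨hat.le, htb⟩), slopeL_eq (affine_slopeL hm ⟨hat, htb.le⟩)]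
      ring
    have hcnt : ((G.cnt P e : ℤ) : ℝ) = ∑ t ∈ S.filter (fun s => 0 < s ∧ s < 1),
        (slopeR (G.onEdge f e) t + slopeL (G.onEdge f e) t) := by
      unfold cnt
      push_cast
      have e1 : ∑ t ∈ G.supp P e, ((G.coef P e t : ℤ) : ℝ) =
          ∑ t ∈ G.supp P e ∪ S.filter (fun s => 0 < s ∧ s < 1), ((G.coef P e t : ℤ) : ℝ) := by
        refine Finset.sum_subset Finset.subset_union_left (fun t _ ht => ?_)
        by_contra h
        exact ht (G.mem_supp (by exact_mod_cast h))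
      have e2 : ∑ t ∈ S.filter (fun s => 0 < s ∧ s < 1),
          (slopeR (G.onEdge f e) t + slopeL (G.onEdge f e) t) =
          ∑ t ∈ G.supp P e ∪ S.filter (fun s => 0 < s ∧ s < 1),
          (slopeR (G.onEdge f e) t + slopeL (G.onEdge f e) t) := by
        refine Finset.sum_subset Finset.subset_union_right (fun t ht ht' => ?_)
        rcases Finset.mem_union.1 ht with h | h
        · refine hzero t (G.supp_mem h) (fun hS' => ht' ?_)
          exact Finset.mem_filter.2 ⟨hS', (G.supp_mem h).1, (G.supp_mem h).2⟩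
        · exact absurd h ht'
      rw [e1, e2]
      refine Finset.sum_congr rfl (fun t ht => ?_)
      refine hco t ?_
      rcases Finset.mem_union.1 ht with h | h
      · exact G.supp_mem h
      · exact ⟨(Finset.mem_filter.1 h).2.1, (Finset.mem_filter.1 h).2.2⟩
    rw [hcnt]
    linarith
  have h3 : ((∑ v, P (Sum.inl v) + ∑ e, G.cnt P e : ℤ) : ℝ) = 0 := by
    rw [Int.cast_add, h1, Int.cast_sum, Finset.sum_congr rfl (fun e _ => h2 e),
      Finset.sum_neg_distrib]
    ring
  exact_mod_cast h3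

/-- The discretisation of a divisor: every interior chip is replaced by one chip at each of the two
ends of its edge. -/
noncomputable def disc (D : G.Pt →₀ ℤ) (v : G.V) : ℤ := by
  classical
  exact D (Sum.inl v) + ∑ e, ((if G.src e = v then G.cnt D e else 0) +
    (if G.tgt e = v then G.cnt D e else 0))

theorem sum_disc (D : G.Pt →₀ ℤ) :
    ∑ v, G.disc D v = ∑ v, D (Sum.inl v) + 2 * ∑ e, G.cnt D e := by
  classical
  unfold disc
  rw [Finset.sum_add_distrib, Finset.sum_comm]
  congr 1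
  rw [Finset.mul_sum]
  refine Finset.sum_congr rfl (fun e _ => ?_)
  rw [Finset.sum_add_distrib]
  simp
  ring

theorem cnt_nonneg {D : G.Pt →₀ ℤ} (hD : ∀ x, 0 ≤ D x) (e : G.E) : 0 ≤ G.cnt D e := by
  unfold cnt
  refine Finset.sum_nonneg (fun t _ => ?_)
  unfold coef
  split_ifs
  · exact hD _
  · exact le_refl _

theorem sum_coef_le {D : G.Pt →₀ ℤ} (hD : ∀ x, 0 ≤ D x) (e : G.E) (S : Finset ℝ) :
    ∑ t ∈ S.filter (fun s => 0 < s ∧ s < 1), ((G.coef D e t : ℤ) : ℝ) ≤ (G.cnt D e : ℤ) := by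
  classical
  unfold cnt
  push_cast
  have hnn : ∀ t, (0 : ℝ) ≤ ((G.coef D e t : ℤ) : ℝ) := by
    intro t
    have : 0 ≤ G.coef D e t := by
      unfold coef
      split_ifs
      · exact hD _
      · exact le_refl _
    exact_mod_cast this
  have e1 : ∑ t ∈ G.supp D e, ((G.coef D e t : ℤ) : ℝ) =
      ∑ t ∈ G.supp D e ∪ S.filter (fun s => 0 < s ∧ s < 1), ((G.coef D e t : ℤ) : ℝ) := by
    refine Finset.sum_subset Finset.subset_union_left (fun t _ ht => ?_)
    by_contra h
    exact ht (G.mem_supp (by exact_mod_cast h))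
  rw [e1]
  exact Finset.sum_le_sum_of_subset_of_nonneg Finset.subset_union_right (fun t _ _ => hnn t)

theorem onEdge_zero (f : G.Pt → ℝ) (e : G.E) : G.onEdge f e 0 = f (Sum.inl (G.src e)) := by
  rw [onEdge_eq, pt_zero]

theorem onEdge_one (f : G.Pt → ℝ) (e : G.E) : G.onEdge f e 1 = f (Sum.inl (G.tgt e)) := by
  rw [onEdge_eq, pt_one]

/-- Key rounding step. -/
theorem round_edge {D E : G.Pt →₀ ℤ} (hD : ∀ x, 0 ≤ D x) (hE : ∀ x, 0 ≤ E x)
    {f : G.Pt → ℝ} (hf : G.IsRational f) (hfD : ∀ x, ((E x - D x : ℤ) : ℝ) = G.divF f x)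
    (e : G.E) :
    slopeR (G.onEdge f e) 0 ≤ ((⌊f (Sum.inl (G.tgt e))⌋ - ⌊f (Sum.inl (G.src e))⌋ + G.cnt D e : ℤ) : ℝ)
    ∧ slopeL (G.onEdge f e) 1 ≤
      ((⌊f (Sum.inl (G.src e))⌋ - ⌊f (Sum.inl (G.tgt e))⌋ + G.cnt D e : ℤ) : ℝ) := by
  classical
  obtain ⟨S, hS⟩ := hf e
  have hnn : ∀ t, (0 : ℝ) ≤ ((G.coef D e t : ℤ) : ℝ) := by
    intro t
    have : 0 ≤ G.coef D e t := by
      unfold coef
      split_ifs
      · exact hD _
      · exact le_refl _
    exact_mod_cast this
  have hDF : ∀ t ∈ S, 0 < t → t < 1 → 0 ≤ ((G.coef D e t : ℤ) : ℝ) +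
      slopeR (G.onEdge f e) t + slopeL (G.onEdge f e) t := by
    intro t _ h0 h1
    have h2 := hfD (Sum.inr (e, ⟨t, h0, h1⟩))
    have h3 : G.coef D e t = D (Sum.inr (e, ⟨t, h0, h1⟩)) := by
      unfold coef
      rw [dif_pos ⟨h0, h1⟩]
    have h4 : G.divF f (Sum.inr (e, ⟨t, h0, h1⟩)) =
      slopeR (G.onEdge f e) t + slopeL (G.onEdge f e) t := rfl
    rw [h3, add_assoc, ← h4, ← h2]
    have h5 := hE (Sum.inr (e, ⟨t, h0, h1⟩))
    push_cast
    have : (0 : ℝ) ≤ (E (Sum.inr (e, ⟨t, h0, h1⟩)) : ℝ) := by exact_mod_cast h5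
    linarith
  have hinc := increase S hS (fun t => ((G.coef D e t : ℤ) : ℝ)) (fun t _ _ _ => hnn t) hDF _
    0 1 (le_refl _) zero_lt_one (le_refl _) rfl
  have hdec := decrease S hS (fun t => ((G.coef D e t : ℤ) : ℝ)) (fun t _ _ _ => hnn t) hDF _
    0 1 (le_refl _) zero_lt_one (le_refl _) rfl
  have hle := G.sum_coef_le hD e S
  have hF : IsPL (G.onEdge f e) := ⟨S, hS⟩
  rw [G.onEdge_zero, G.onEdge_one] at hinc hdec
  obtain ⟨m, hm⟩ := hF.right (t := 0) ⟨le_refl _, zero_lt_one⟩
  obtain ⟨k, hk⟩ := hF.left (t := 1) ⟨zero_lt_one, le_refl _⟩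
  rw [slopeR_eq hm] at hinc ⊢
  rw [slopeL_eq hk] at hdec ⊢
  constructor
  · have h1 : f (Sum.inl (G.src e)) + ((m - G.cnt D e : ℤ) : ℝ) ≤ f (Sum.inl (G.tgt e)) := by
      push_cast; linarith
    have h2 := Int.floor_le_floor h1
    rw [Int.floor_add_intCast] at h2
    have h3 : m ≤ ⌊f (Sum.inl (G.tgt e))⌋ - ⌊f (Sum.inl (G.src e))⌋ + G.cnt D e := by omega
    exact_mod_cast h3
  · have h1 : f (Sum.inl (G.tgt e)) + ((-k - G.cnt D e : ℤ) : ℝ) ≤ f (Sum.inl (G.src e)) := by
      push_cast; linarith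
    have h2 := Int.floor_le_floor h1
    rw [Int.floor_add_intCast] at h2
    have h3 : -k ≤ ⌊f (Sum.inl (G.src e))⌋ - ⌊f (Sum.inl (G.tgt e))⌋ + G.cnt D e := by omega
    exact_mod_cast h3

/-- There are divisors of rank at least one on `Γ(G)`. -/
theorem exists_mrankPos : ∃ (d : ℕ) (D : G.Pt →₀ ℤ), G.mdeg D = (d : ℤ) ∧ G.MRankPos D := by
  classical
  refine ⟨Fintype.card G.V, ∑ v, Finsupp.single (Sum.inl v) (1 : ℤ), ?_, ?_⟩
  · rw [mdeg_eq, map_sum]
    simp [mdegHom_single]
  · have hval : ∀ y : G.Pt, (∑ v, Finsupp.single (Sum.inl v) (1 : ℤ) : G.Pt →₀ ℤ) y =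
        match y with
        | Sum.inl _ => 1
        | Sum.inr _ => 0 := by
      intro y
      rw [Finsupp.finsetSum_apply]
      simp only [Finsupp.single_apply]
      rcases y with v | y
      · simp
      · simp
    intro x
    rcases x with v | ⟨e, t⟩
    · refine ⟨∑ v, Finsupp.single (Sum.inl v) (1 : ℤ) - Finsupp.single (Sum.inl v) 1, ?_, ?_⟩
      · intro y
        rw [Finsupp.sub_apply, hval, Finsupp.single_apply]
        rcases y with w | y
        · simp only; split_ifs <;> norm_num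
        · simp
      · rw [mequiv_iff, sub_self]; exact Princ.zero G
    · refine ⟨∑ v, Finsupp.single (Sum.inl v) (1 : ℤ) - Finsupp.single (Sum.inl (G.src e)) 1 -
        Finsupp.single (Sum.inl (G.tgt e)) 1 + Finsupp.single (G.pt e (1 - t)) 1, ?_, ?_⟩
      · intro y
        rw [Finsupp.add_apply, Finsupp.sub_apply, Finsupp.sub_apply, hval, Finsupp.single_apply,
          Finsupp.single_apply, Finsupp.single_apply]
        have hne := G.loopless e
        rcases y with w | y
        · simp only [Sum.inl.injEq]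
          by_cases h1 : G.src e = w
          · have h2 : G.tgt e ≠ w := fun h => hne (h1.trans h.symm)
            rw [if_pos h1, if_neg h2]; split_ifs <;> norm_num
          · rw [if_neg h1]; split_ifs <;> norm_num
        · simp only [reduceCtorEq, if_false]; split_ifs <;> norm_num
      · rw [mequiv_iff]
        have h := G.princ_tent e t t.2
        rw [G.pt_mem e t.2] at h
        convert h using 1
        simp only [Subtype.coe_eta]
        abel

theorem dgonMetric_mem : ∃ D : G.Pt →₀ ℤ, G.mdeg D = (G.dgonMetric : ℤ) ∧ G.MRankPos D := by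
  obtain ⟨d, D, h1, h2⟩ := G.exists_mrankPos
  exact Nat.sInf_mem (s := {d : ℕ | ∃ D : G.Pt →₀ ℤ, G.mdeg D = (d : ℤ) ∧ G.MRankPos D})
    ⟨d, D, h1, h2⟩

/-- The known upper bound: the constant `2` works. -/
theorem dgon_le_two_mul : (G.dgon : ℝ) ≤ 2 * G.dgonMetric := by
  classical
  obtain ⟨D0, hdeg, hrank⟩ := G.dgonMetric_mem
  obtain ⟨v0⟩ := G.nonempty
  obtain ⟨E0, hE0, hE0'⟩ := hrank (Sum.inl v0)
  rw [mequiv_iff] at hE0'
  set D : G.Pt →₀ ℤ := E0 + Finsupp.single (Sum.inl v0) 1 with hDdef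
  have hDnn : ∀ x, 0 ≤ D x := by
    intro x
    rw [hDdef, Finsupp.add_apply, Finsupp.single_apply]
    have := hE0 x
    split_ifs <;> omega
  have hDD0 : G.Princ (D0 - D) := by
    have : D0 - D = D0 - Finsupp.single (Sum.inl v0) 1 - E0 := by rw [hDdef]; abel
    rw [this]; exact hE0'
  have hDdeg : G.mdeg D = G.dgonMetric := by
    have h1 := Princ.mdeg_zero G hDD0
    rw [mdeg_eq, map_sub, ← mdeg_eq, ← mdeg_eq, hdeg] at h1
    omega
  -- the discretisation
  have hdisc : G.RankPos (G.disc D) := by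
    intro v
    obtain ⟨E, hE, hE'⟩ := hrank (Sum.inl v)
    rw [mequiv_iff] at hE'
    -- E + v - D is principal
    have hP : G.Princ (E + Finsupp.single (Sum.inl v) 1 - D) := by
      have h1 := Princ.sub G hDD0 hE'
      have : D0 - D - (D0 - Finsupp.single (Sum.inl v) 1 - E) =
        E + Finsupp.single (Sum.inl v) 1 - D := by abel
      rwa [this] at h1
    obtain ⟨f, hf, hfP⟩ := hP
    set E1 : G.Pt →₀ ℤ := E + Finsupp.single (Sum.inl v) 1 with hE1
    have hE1nn : ∀ x, 0 ≤ E1 x := by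
      intro x
      rw [hE1, Finsupp.add_apply, Finsupp.single_apply]
      have := hE x
      split_ifs <;> omega
    have hfP' : ∀ x, ((E1 x - D x : ℤ) : ℝ) = G.divF f x := by
      intro x
      have := hfP x
      rwa [Finsupp.sub_apply] at this
    set g : G.V → ℤ := fun v => ⌊f (Sum.inl v)⌋ with hg
    refine ⟨fun u => G.disc D u - (if u = v then 1 else 0) - G.lap g u, ?_, g, fun u => rfl⟩
    intro u
    have hkey : ((E1 (Sum.inl u) : ℤ) : ℝ) ≤ ((G.disc D u - G.lap g u : ℤ) : ℝ) := by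
      have h1 := hfP' (Sum.inl u)
      simp only [divF] at h1
      have h2 : ((E1 (Sum.inl u) : ℤ) : ℝ) = (D (Sum.inl u) : ℝ) +
        ∑ e : G.E, ((if G.src e = u then slopeR (G.onEdge f e) 0 else 0) +
          (if G.tgt e = u then slopeL (G.onEdge f e) 1 else 0)) := by
        rw [← h1]; push_cast; ring
      rw [h2]
      unfold disc lap
      push_cast
      rw [add_sub_assoc, ← Finset.sum_sub_distrib]
      refine add_le_add (le_refl _) (Finset.sum_le_sum (fun e _ => ?_))
      obtain ⟨k1, k2⟩ := G.round_edge hDnn hE1nn hf hfP' e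
      push_cast at k1 k2
      have hne := G.loopless e
      by_cases h3 : G.src e = u
      · have h4 : G.tgt e ≠ u := fun h => hne (h3.trans h.symm)
        rw [if_pos h3, if_neg h4, if_pos h3, if_neg h4, if_pos h3, if_neg h4]
        subst h3
        simp only [hg]
        linarith
      · by_cases h4 : G.tgt e = u
        · rw [if_neg h3, if_pos h4, if_neg h3, if_pos h4, if_neg h3, if_pos h4]
          subst h4
          simp only [hg]
          linarith
        · rw [if_neg h3, if_neg h4, if_neg h3, if_neg h4, if_neg h3, if_neg h4]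
          simp
    have hkey' : E1 (Sum.inl u) ≤ G.disc D u - G.lap g u := by exact_mod_cast hkey
    have h3 : (if u = v then 1 else 0) ≤ E1 (Sum.inl u) := by
      rw [hE1, Finsupp.add_apply, Finsupp.single_apply]
      have := hE (Sum.inl u)
      by_cases h : u = v
      · subst h; simp; omega
      · have h' : (Sum.inl v : G.Pt) ≠ Sum.inl u := fun h2 => h (Sum.inl.inj h2).symm
        rw [if_neg h, if_neg h']; omega
    show 0 ≤ G.disc D u - (if u = v then 1 else 0) - G.lap g u
    omega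
  have hsum : ∑ v, G.disc D v ≤ 2 * G.dgonMetric := by
    rw [sum_disc]
    have h1 := G.mdeg_decomp D
    rw [hDdeg] at h1
    have h2 : 0 ≤ ∑ v, D (Sum.inl v) := Finset.sum_nonneg (fun v _ => hDnn _)
    linarith
  have hsum0 : 0 ≤ ∑ v, G.disc D v := by
    rw [sum_disc]
    have h2 : 0 ≤ ∑ v, D (Sum.inl v) := Finset.sum_nonneg (fun v _ => hDnn _)
    have h3 : 0 ≤ ∑ e, G.cnt D e := Finset.sum_nonneg (fun e _ => G.cnt_nonneg hDnn e)
    linarith
  have hle : G.dgon ≤ (∑ v, G.disc D v).toNat :=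
    Nat.sInf_le ⟨G.disc D, by rw [Int.toNat_of_nonneg hsum0], hdisc⟩
  have h4 : ((∑ v, G.disc D v).toNat : ℤ) ≤ 2 * G.dgonMetric := by
    rw [Int.toNat_of_nonneg hsum0]; exact hsum
  have h5 : G.dgon ≤ 2 * G.dgonMetric := by
    have : (G.dgon : ℤ) ≤ 2 * G.dgonMetric := le_trans (by exact_mod_cast hle) h4
    exact_mod_cast this
  exact_mod_cast h5

end MGraph

end Pool.Agent.H44.Gon
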