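import Pool.Agent.H44.Gon.Graph
import Pool.Agent.H44.Gon.Metric
import Pool.Agent.H44.Gon.Upper

set_option autoImplicit false

namespace Pool.Agent.H44.Gon

open Set

namespace MGraph

variable (G : MGraph)

theorem cover_point {D P : G.Pt →₀ ℤ} (hP : G.Princ P) (hnn : ∀ y, 0 ≤ (D - P) y) {x : G.Pt}
    (hx : 1 ≤ (D - P) x) :
    ∃ D' : G.Pt →₀ ℤ, (∀ y, 0 ≤ D' y) ∧ G.MEquiv (D - Finsupp.single x 1) D' := by
  classical
  refine ⟨D - P - Finsupp.single x 1, ?_, ?_⟩
  · intro y
    rw [Finsupp.sub_apply, Finsupp.single_apply]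
    have := hnn y
    split_ifs with h
    · rw [← h]; omega
    · omega
  · rw [mequiv_iff]
    have : D - Finsupp.single x 1 - (D - P - Finsupp.single x 1) = P := by abel
    rw [this]
    exact hP

theorem cover_edge {D P : G.Pt →₀ ℤ} (hP : G.Princ P) (hnn : ∀ y, 0 ≤ (D - P) y) {e : G.E}
    (h1 : 1 ≤ (D - P) (Sum.inl (G.src e))) (h2 : 1 ≤ (D - P) (Sum.inl (G.tgt e)))
    (t : Ioo (0 : ℝ) 1) :
    ∃ D' : G.Pt →₀ ℤ, (∀ y, 0 ≤ D' y) ∧ G.MEquiv (D - Finsupp.single (Sum.inr (e, t)) 1) D' := by
  classical
  refine ⟨D - P - Finsupp.single (Sum.inl (G.src e)) 1 - Finsupp.single (Sum.inl (G.tgt e)) 1 +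
    Finsupp.single (G.pt e (1 - t)) 1, ?_, ?_⟩
  · intro y
    rw [Finsupp.add_apply, Finsupp.sub_apply, Finsupp.sub_apply, Finsupp.single_apply,
      Finsupp.single_apply, Finsupp.single_apply]
    have h3 := hnn y
    have hne := G.loopless e
    by_cases ha : (Sum.inl (G.src e) : G.Pt) = y
    · have hb : (Sum.inl (G.tgt e) : G.Pt) ≠ y := by
        rw [← ha]; intro h; exact hne (Sum.inl.inj h).symm
      rw [if_pos ha, if_neg hb]
      rw [ha] at h1
      split_ifs <;> omega
    · rw [if_neg ha]
      by_cases hb : (Sum.inl (G.tgt e) : G.Pt) = y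
      · rw [if_pos hb]
        rw [hb] at h2
        split_ifs <;> omega
      · rw [if_neg hb]
        split_ifs <;> omega
  · rw [mequiv_iff]
    have h := Princ.add G hP (G.princ_tent e t t.2)
    rw [G.pt_mem e t.2] at h
    convert h using 1
    simp only [Subtype.coe_eta]
    abel

end MGraph

section metricC

variable {m r L κ T : ℕ} [NeZero r] (hκ : 0 < κ) (hT : 0 < T)

/-- number of chips on a loaded vertex -/
def chips (κ : ℕ) (n : Node L r) : ℕ := if (n.1.1 : ℕ) < L then κ * r ^ (L - 1 - n.1.1) else 1

omit hT in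
include hκ in
theorem chips_pos (n : Node L r) : 1 ≤ chips κ n := by
  unfold chips
  split_ifs
  · have : 0 < r := Nat.pos_of_ne_zero (NeZero.ne r)
    exact Nat.mul_pos hκ (Nat.pow_pos this)
  · exact le_refl _

/-- the crossing edge as an edge of the graph -/
def eM (μ : MIdx m r L) : Ex m r L κ T := Sum.inr (Sum.inr (Sum.inl μ))

/-- vertices as points -/
def pV (v : Vx m r L) : (theGraph m r L κ T hκ hT).Pt := Sum.inl v

/-- points on edges -/
noncomputable def pE (e : Ex m r L κ T) (t : ℝ) : (theGraph m r L κ T hκ hT).Pt :=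
  (theGraph m r L κ T hκ hT).pt e t

/-- the base divisor on the metric graph -/
noncomputable def baseD : (theGraph m r L κ T hκ hT).Pt →₀ ℤ :=
  ∑ n : Node L r, Finsupp.single (pV hκ hT (vH n)) (chips κ n : ℤ) +
  ∑ n : Node L r, Finsupp.single (pV hκ hT (vB n)) (1 : ℤ) +
  ∑ μ : MIdx m r L, Finsupp.single (pE hκ hT (eM μ) (1 / 2)) (1 : ℤ)

/-- the nodes below the node at depth `c + 1` on the path `w` -/
def below (c : ℕ) (w : Wd L r) (n : Node L r) : Prop :=
  c + 1 ≤ (n.1.1 : ℕ) ∧ ∀ k : Fin L, k.val ≤ c → n.1.2 k = w k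

theorem below_nd {c d : ℕ} {w x : Wd L r} :
    below c w (nd d x) ↔ c + 1 ≤ min d L ∧ ∀ k : Fin L, k.val ≤ c → x k = w k := by
  unfold below nd
  simp only
  constructor
  · rintro ⟨h1, h2⟩
    refine ⟨h1, fun k hk => ?_⟩
    rw [← h2 k hk]
    unfold trunc
    rw [if_pos (by omega)]
  · rintro ⟨h1, h2⟩
    refine ⟨h1, fun k hk => ?_⟩
    rw [← h2 k hk]
    unfold trunc
    rw [if_pos (by omega)]

open Classical in
/-- slopes of the raising function -/
noncomputable def nE (c : ℕ) (w : Wd L r) : Ex m r L κ T → ℤ
  | Sum.inl _ => 0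
  | Sum.inr (Sum.inl _) => 0
  | Sum.inr (Sum.inr (Sum.inl μ)) => (if below c w (en μ true) then 1 else 0) -
      (if below c w (en μ false) then 1 else 0)
  | Sum.inr (Sum.inr (Sum.inr (d, x, _))) => (if below c w (nd (d + 1) x) then 1 else 0) -
      (if below c w (nd d x) then 1 else 0)

open Classical in
/-- starting points of the ramps -/
noncomputable def aE (c : ℕ) (w : Wd L r) (s : ℝ) : Ex m r L κ T → ℝ
  | Sum.inl _ => 0
  | Sum.inr (Sum.inl _) => 0
  | Sum.inr (Sum.inr (Sum.inl μ)) => if below c w (en μ true) then 1 / 2 else 1 / 2 - s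
  | Sum.inr (Sum.inr (Sum.inr _)) => 0

open Classical in
/-- end points of the ramps -/
noncomputable def bE (c : ℕ) (w : Wd L r) (s : ℝ) : Ex m r L κ T → ℝ
  | Sum.inl _ => 0
  | Sum.inr (Sum.inl _) => 0
  | Sum.inr (Sum.inr (Sum.inl μ)) => if below c w (en μ true) then 1 / 2 + s else 1 / 2
  | Sum.inr (Sum.inr (Sum.inr _)) => s

open Classical in
/-- values of the raising function at the vertices -/
noncomputable def vE (c : ℕ) (w : Wd L r) (s : ℝ) : Vx m r L → ℝ
  | Sum.inl n => if below c w n then s else 0
  | Sum.inr (Sum.inl n) => if below c w n then s else 0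
  | Sum.inr (Sum.inr (μ, b)) => if below c w (en μ b) then s else 0

/-- the principal divisor of the raising function -/
noncomputable def raiseP (c : ℕ) (w : Wd L r) (s : ℝ) : (theGraph m r L κ T hκ hT).Pt →₀ ℤ :=
  ∑ e : Ex m r L κ T, nE c w e • (Finsupp.single (pE hκ hT e (aE c w s e)) 1 -
    Finsupp.single (pE hκ hT e (bE c w s e)) 1)

theorem raiseP_princ (c : ℕ) (w : Wd L r) {s : ℝ} (hs0 : 0 ≤ s) (hs1 : s ≤ 1 / 2) :
    (theGraph m r L κ T hκ hT).Princ (raiseP hκ hT c w s) := by
  classical
  have h := (theGraph m r L κ T hκ hT).princ_ramps (I := Unit) (vE c w s)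
    (fun e _ => nE c w e) (fun e _ => aE c w s e) (fun e _ => bE c w s e)
    (by
      rintro (e | e | μ | e) _
      · exact le_refl _
      · exact le_refl _
      · show 0 ≤ (if below c w (en μ true) then 1 / 2 else 1 / 2 - s)
        split_ifs <;> linarith
      · exact le_refl _)
    (by
      rintro (e | e | μ | e) _
      · exact le_refl _
      · exact le_refl _
      · show (if below c w (en μ true) then 1 / 2 else 1 / 2 - s) ≤
          (if below c w (en μ true) then 1 / 2 + s else 1 / 2)
        split_ifs <;> linarith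
      · exact hs0)
    (by
      rintro (e | e | μ | e) _
      · exact zero_le_one
      · exact zero_le_one
      · show (if below c w (en μ true) then 1 / 2 + s else 1 / 2) ≤ 1
        split_ifs <;> linarith
      · show s ≤ 1
        linarith)
    (by
      rintro (⟨n, k⟩ | ⟨⟨μ, b⟩, k⟩ | μ | ⟨d, x, k⟩)
      · show (if below c w n then s else 0) - (if below c w n then s else 0) = _
        simp [nE]
      · show (if below c w (en μ b) then s else 0) - (if below c w (en μ b) then s else 0) = _
        simp [nE]
      · show (if below c w (en μ true) then s else 0) -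
          (if below c w (en μ false) then s else 0) = _
        simp only [Finset.univ_unique, Finset.sum_const, Finset.card_singleton, one_smul]
        unfold nE aE bE
        simp only
        by_cases h1 : below c w (en μ true)
        · by_cases h2 : below c w (en μ false)
          · simp [h1, h2]
          · simp [h1, h2]
        · by_cases h2 : below c w (en μ false)
          · simp [h1, h2]
          · simp [h1, h2]
      · show (if below c w (nd (d + 1) x) then s else 0) -
          (if below c w (nd d x) then s else 0) = _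
        simp only [Finset.univ_unique, Finset.sum_const, Finset.card_singleton, one_smul]
        unfold nE aE bE
        simp only
        by_cases h1 : below c w (nd (d + 1) x)
        · by_cases h2 : below c w (nd d x)
          · simp [h1, h2]
          · simp [h1, h2]
        · by_cases h2 : below c w (nd d x)
          · exfalso
            rw [below_nd] at h1 h2
            exact h1 ⟨by omega, h2.2⟩
          · simp [h1, h2])
  have h2 : raiseP (m := m) hκ hT c w s = ∑ e : (theGraph m r L κ T hκ hT).E, ∑ _i : Unit,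
      nE c w e • (Finsupp.single ((theGraph m r L κ T hκ hT).pt e (aE c w s e)) (1 : ℤ) -
      Finsupp.single ((theGraph m r L κ T hκ hT).pt e (bE c w s e)) 1) := by
    unfold raiseP
    simp only [Finset.univ_unique, Finset.sum_const, Finset.card_singleton, one_smul]
    rfl
  rw [h2]
  exact h

end metricC

end Pool.Agent.H44.Gon
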