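import Pool.Agent.H44.Gon.MetricC

set_option autoImplicit false

namespace Pool.Agent.H44.Gon

open Set

section metricD

variable {m r L κ T : ℕ} [NeZero r] (hκ : 0 < κ) (hT : 0 < T)

open Classical in
theorem card_agree (c : ℕ) (w : Wd L r) :
    (Finset.univ.filter (fun x : Wd L r => ∀ k : Fin L, k.val ≤ c → x k = w k)).card ≤
      r ^ (L - 1 - c) := by
  have h1 : Fintype.card (Fin (L - 1 - c) → Fin r) = r ^ (L - 1 - c) := by simp
  rw [← h1, ← Finset.card_univ]
  refine Finset.card_le_card_of_injOn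
    (fun x => fun k : Fin (L - 1 - c) => x ⟨c + 1 + k, by omega⟩) (fun _ _ => Finset.mem_univ _) ?_
  intro x hx y hy h
  have hx' := (Finset.mem_filter.1 hx).2
  have hy' := (Finset.mem_filter.1 hy).2
  funext n
  by_cases hn : n.val ≤ c
  · rw [hx' n hn, hy' n hn]
  · have h2 := congrFun h ⟨n.val - (c + 1), by omega⟩
    have h3 : (⟨c + 1 + (n.val - (c + 1)), by omega⟩ : Fin L) = n := Fin.ext (by
      show c + 1 + (n.val - (c + 1)) = n.val
      omega)
    simp only [h3] at h2
    exact h2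

open Classical in
theorem leg_nE {c : ℕ} (hc : c < L) (w : Wd L r) (d : Fin L) (x : Wd L r) (k : Fin κ) :
    nE (m := m) (T := T) c w (Sum.inr (Sum.inr (Sum.inr (d, x, k)))) =
      if (d : ℕ) = c ∧ ∀ k : Fin L, k.val ≤ c → x k = w k then 1 else 0 := by
  have h : nE (m := m) (T := T) c w (Sum.inr (Sum.inr (Sum.inr (d, x, k)))) =
    (if below c w (nd (d + 1) x) then 1 else 0) - (if below c w (nd d x) then 1 else 0) := rfl
  rw [h]
  have hd := d.2
  by_cases h1 : below c w (nd (d + 1) x)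
  · by_cases h2 : below c w (nd d x)
    · rw [if_pos h1, if_pos h2, if_neg]
      · ring
      · rintro ⟨h3, _⟩
        rw [below_nd] at h2
        omega
    · rw [if_pos h1, if_neg h2, if_pos]
      · ring
      · rw [below_nd] at h1 h2
        refine ⟨?_, h1.2⟩
        by_contra h3
        exact h2 ⟨by omega, h1.2⟩
  · by_cases h2 : below c w (nd d x)
    · exfalso
      rw [below_nd] at h1 h2
      exact h1 ⟨by omega, h2.2⟩
    · rw [if_neg h1, if_neg h2, if_neg]
      · ring
      · rintro ⟨h3, h4⟩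
        rw [below_nd] at h1
        exact h1 ⟨by omega, h4⟩

open Classical in
/-- number of legs cut at a loaded vertex -/
noncomputable def cc (κ c : ℕ) (w : Wd L r) (n : Node L r) : ℤ :=
  ∑ l : Fin L × Wd L r × Fin κ,
    (if (l.1 : ℕ) = c ∧ ∀ k : Fin L, k.val ≤ c → l.2.1 k = w k then (1 : ℤ) else 0) *
      (if nd l.1 l.2.1 = n then 1 else 0)

theorem cc_ne {c : ℕ} (w : Wd L r) (n : Node L r) (h : n ≠ nd c w) : cc κ c w n = 0 := by
  classical
  unfold cc
  refine Finset.sum_eq_zero (fun l _ => ?_)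
  by_cases h1 : (l.1 : ℕ) = c ∧ ∀ k : Fin L, k.val ≤ c → l.2.1 k = w k
  · have h2 : nd (l.1 : ℕ) l.2.1 = nd c w := by
      rw [h1.1]
      exact nd_congr (fun k hk => h1.2 k (by omega))
    rw [if_pos h1, if_neg (fun h3 => h (by rw [← h3]; exact h2)), mul_zero]
  · rw [if_neg h1, zero_mul]

theorem cc_le {c : ℕ} (hc : c < L) (w : Wd L r) (n : Node L r) :
    cc κ c w n ≤ (chips κ n : ℤ) := by
  classical
  by_cases h : n = nd c w
  · subst h
    have h1 : chips κ (nd c w) = κ * r ^ (L - 1 - c) := by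
      have h2 : (((nd c w : Node L r).1.1 : Fin (L + 1)) : ℕ) = min c L := rfl
      have h3 : min c L = c := by omega
      unfold chips
      rw [h2, h3, if_pos hc]
    rw [h1]
    unfold cc
    rw [Fintype.sum_prod_type, Finset.sum_eq_single ⟨c, hc⟩]
    · rw [Fintype.sum_prod_type]
      have h4 : ∀ x : Wd L r, ∑ k : Fin κ,
          (if c = c ∧ ∀ k : Fin L, k.val ≤ c → x k = w k then (1 : ℤ) else 0) *
          (if nd c x = nd c w then 1 else 0) ≤
          if (∀ k : Fin L, k.val ≤ c → x k = w k) then (κ : ℤ) else 0 := by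
        intro x
        rw [Finset.sum_const, Finset.card_univ, Fintype.card_fin, nsmul_eq_mul]
        have hκ0 : (0 : ℤ) ≤ κ := by positivity
        by_cases h5 : ∀ k : Fin L, k.val ≤ c → x k = w k
        · rw [if_pos h5, if_pos ⟨rfl, h5⟩]
          split_ifs <;> linarith
        · rw [if_neg h5, if_neg (fun h => h5 h.2)]
          simp
      calc _ ≤ ∑ x : Wd L r, (if (∀ k : Fin L, k.val ≤ c → x k = w k) then (κ : ℤ) else 0) :=
            Finset.sum_le_sum (fun x _ => h4 x)
        _ = κ * ((Finset.univ.filter (fun x : Wd L r =>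
              ∀ k : Fin L, k.val ≤ c → x k = w k)).card : ℤ) := by
            rw [Finset.card_filter]
            push_cast
            rw [Finset.mul_sum]
            refine Finset.sum_congr rfl (fun x _ => ?_)
            split_ifs <;> simp
        _ ≤ κ * (r ^ (L - 1 - c) : ℕ) :=
            mul_le_mul_of_nonneg_left (by exact_mod_cast card_agree c w) (by positivity)
        _ = _ := by push_cast; ring
    · intro d _ hd
      refine Finset.sum_eq_zero (fun l _ => ?_)
      rw [if_neg (fun h => hd (Fin.ext h.1)), zero_mul]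
    · intro h; exact absurd (Finset.mem_univ _) h
  · rw [cc_ne w n h]
    positivity

open Classical in
/-- position of the chip on a crossing edge after raising -/
noncomputable def qq (c : ℕ) (w : Wd L r) (s : ℝ) (μ : MIdx m r L) : ℝ :=
  if below c w (en μ true) then (if below c w (en μ false) then 1 / 2 else 1 / 2 + s)
  else (if below c w (en μ false) then 1 / 2 - s else 1 / 2)

open Classical in
/-- the effective divisor reached by raising -/
theorem raised_eq {c : ℕ} (hc : c < L) (w : Wd L r) (s : ℝ) :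
    baseD (m := m) hκ hT - raiseP hκ hT c w s =
      ∑ n : Node L r, Finsupp.single (pV hκ hT (vH n)) ((chips κ n : ℤ) - cc κ c w n) +
      ∑ n : Node L r, Finsupp.single (pV hκ hT (vB n)) (1 : ℤ) +
      ∑ μ : MIdx m r L, Finsupp.single (pE hκ hT (eM μ) (qq c w s μ)) (1 : ℤ) +
      ∑ l : Fin L × Wd L r × Fin κ, Finsupp.single
        (pE hκ hT (Sum.inr (Sum.inr (Sum.inr l))) s)
        (if (l.1 : ℕ) = c ∧ ∀ k : Fin L, k.val ≤ c → l.2.1 k = w k then (1 : ℤ) else 0) := by
  have h1 : raiseP (m := m) hκ hT c w s =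
      ∑ μ : MIdx m r L, (Finsupp.single (pE hκ hT (eM μ) (1 / 2)) (1 : ℤ) -
        Finsupp.single (pE hκ hT (eM μ) (qq c w s μ)) (1 : ℤ)) +
      ∑ l : Fin L × Wd L r × Fin κ,
        (Finsupp.single (pV hκ hT (vH (nd l.1 l.2.1)))
          (if (l.1 : ℕ) = c ∧ ∀ k : Fin L, k.val ≤ c → l.2.1 k = w k then (1 : ℤ) else 0) -
        Finsupp.single (pE hκ hT (Sum.inr (Sum.inr (Sum.inr l))) s)
          (if (l.1 : ℕ) = c ∧ ∀ k : Fin L, k.val ≤ c → l.2.1 k = w k then (1 : ℤ) else 0)) := by
    unfold raiseP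
    set F : Ex m r L κ T → ((theGraph m r L κ T hκ hT).Pt →₀ ℤ) := fun e => nE c w e •
      (Finsupp.single (pE hκ hT e (aE c w s e)) 1 -
        Finsupp.single (pE hκ hT e (bE c w s e)) 1) with hF
    have e0 : ∑ e : Ex m r L κ T, nE c w e • (Finsupp.single (pE hκ hT e (aE c w s e)) (1 : ℤ) -
        Finsupp.single (pE hκ hT e (bE c w s e)) 1) = ∑ e : Ex m r L κ T, F e := rfl
    rw [e0, Fintype.sum_sum_type, Fintype.sum_sum_type, Fintype.sum_sum_type]
    have e1 : ∑ e : Node L r × Fin T, F (Sum.inl e) = 0 := by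
      refine Finset.sum_eq_zero (fun e _ => ?_)
      have h4 : nE (m := m) (κ := κ) c w (Sum.inl e) = 0 := rfl
      rw [hF]
      simp only [h4, zero_smul]
    have e2 : ∑ e : (MIdx m r L × Bool) × Fin T, F (Sum.inr (Sum.inl e)) = 0 := by
      refine Finset.sum_eq_zero (fun e _ => ?_)
      have h4 : nE (κ := κ) c w (Sum.inr (Sum.inl e)) = 0 := rfl
      rw [hF]
      simp only [h4, zero_smul]
    rw [e1, e2, zero_add, zero_add]
    congr 1
    · refine Finset.sum_congr rfl (fun μ _ => ?_)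
      have h2 : nE (κ := κ) (T := T) c w (Sum.inr (Sum.inr (Sum.inl μ))) =
        (if below c w (en μ true) then 1 else 0) - (if below c w (en μ false) then 1 else 0) := rfl
      have h3 : aE (κ := κ) (T := T) c w s (Sum.inr (Sum.inr (Sum.inl μ))) =
        if below c w (en μ true) then 1 / 2 else 1 / 2 - s := rfl
      have h4 : bE (κ := κ) (T := T) c w s (Sum.inr (Sum.inr (Sum.inl μ))) =
        if below c w (en μ true) then 1 / 2 + s else 1 / 2 := rfl
      rw [hF]
      simp only [h2, h3, h4]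
      unfold qq eM
      by_cases g1 : below c w (en μ true)
      · by_cases g2 : below c w (en μ false)
        · simp [g1, g2]
        · simp [g1, g2]
      · by_cases g2 : below c w (en μ false)
        · simp [g1, g2]
        · simp [g1, g2]
    · refine Finset.sum_congr rfl (fun l _ => ?_)
      rcases l with ⟨d, x, k⟩
      rw [hF]
      simp only
      rw [leg_nE hc]
      have h3 : aE (m := m) (κ := κ) (T := T) c w s (Sum.inr (Sum.inr (Sum.inr (d, x, k)))) = 0 := rfl
      have h4 : bE (m := m) (κ := κ) (T := T) c w s (Sum.inr (Sum.inr (Sum.inr (d, x, k)))) = s := rfl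
      have h5 : pE (m := m) hκ hT (Sum.inr (Sum.inr (Sum.inr (d, x, k)))) 0 =
        pV hκ hT (vH (nd d x)) := (theGraph m r L κ T hκ hT).pt_zero _
      rw [h3, h4, h5]
      by_cases g : (d : ℕ) = c ∧ ∀ k : Fin L, k.val ≤ c → x k = w k
      · simp only [if_pos g, one_smul]
      · simp only [if_neg g, zero_smul, Finsupp.single_zero, sub_zero]
  have h2 : ∑ n : Node L r, Finsupp.single (pV (m := m) (κ := κ) (T := T) hκ hT (vH n)) (cc κ c w n) =
      ∑ l : Fin L × Wd L r × Fin κ,
        Finsupp.single (pV hκ hT (vH (nd l.1 l.2.1)))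
          (if (l.1 : ℕ) = c ∧ ∀ k : Fin L, k.val ≤ c → l.2.1 k = w k then (1 : ℤ) else 0) := by
    unfold cc
    have h3 : ∀ n : Node L r, Finsupp.single (pV (m := m) (κ := κ) (T := T) hκ hT (vH n))
        (∑ l : Fin L × Wd L r × Fin κ,
        (if (l.1 : ℕ) = c ∧ ∀ k : Fin L, k.val ≤ c → l.2.1 k = w k then (1 : ℤ) else 0) *
          (if nd l.1 l.2.1 = n then 1 else 0)) =
        ∑ l : Fin L × Wd L r × Fin κ, Finsupp.single (pV (m := m) (κ := κ) (T := T) hκ hT (vH n))
        ((if (l.1 : ℕ) = c ∧ ∀ k : Fin L, k.val ≤ c → l.2.1 k = w k then (1 : ℤ) else 0) *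
          (if nd l.1 l.2.1 = n then 1 else 0)) := by
      intro n
      exact map_sum (Finsupp.singleAddHom (pV (m := m) (κ := κ) (T := T) hκ hT (vH n))) _ _
    rw [Finset.sum_congr rfl (fun n _ => h3 n), Finset.sum_comm]
    refine Finset.sum_congr rfl (fun l _ => ?_)
    rw [Finset.sum_eq_single (nd l.1 l.2.1)]
    · rw [if_pos rfl, mul_one]
    · intro n _ hn
      rw [if_neg (Ne.symm hn), mul_zero, Finsupp.single_zero]
    · intro h; exact absurd (Finset.mem_univ _) h
  have h3 : ∑ n : Node L r, Finsupp.single (pV (m := m) (κ := κ) (T := T) hκ hT (vH n))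
      ((chips κ n : ℤ) - cc κ c w n) =
      ∑ n : Node L r, Finsupp.single (pV (m := m) (κ := κ) (T := T) hκ hT (vH n)) (chips κ n : ℤ) -
      ∑ n : Node L r, Finsupp.single (pV (m := m) (κ := κ) (T := T) hκ hT (vH n)) (cc κ c w n) := by
    rw [← Finset.sum_sub_distrib]
    refine Finset.sum_congr rfl (fun n _ => ?_)
    rw [Finsupp.single_sub]
  rw [h1, h3, h2]
  unfold baseD
  rw [Finset.sum_sub_distrib, Finset.sum_sub_distrib]
  abel

theorem sum_single_nonneg {α : Type*} {ι : Type*} (I : Finset ι) (p : ι → α) (c : ι → ℤ)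
    (hc : ∀ i ∈ I, 0 ≤ c i) (y : α) : 0 ≤ (∑ i ∈ I, Finsupp.single (p i) (c i)) y := by
  classical
  rw [Finsupp.finsetSum_apply]
  refine Finset.sum_nonneg (fun i hi => ?_)
  rw [Finsupp.single_apply]
  split_ifs
  · exact hc i hi
  · exact le_refl _

theorem sum_single_ge {α : Type*} {ι : Type*} (I : Finset ι) (p : ι → α) (c : ι → ℤ)
    (hc : ∀ i ∈ I, 0 ≤ c i) {i : ι} (hi : i ∈ I) :
    c i ≤ (∑ i ∈ I, Finsupp.single (p i) (c i)) (p i) := by
  classical
  rw [Finsupp.finsetSum_apply]
  have h1 : c i = (Finsupp.single (p i) (c i)) (p i) := by simp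
  rw [h1]
  refine Finset.single_le_sum (f := fun j => (Finsupp.single (p j) (c j)) (p i)) ?_ hi
  intro j hj
  show 0 ≤ (Finsupp.single (p j) (c j)) (p i)
  rw [Finsupp.single_apply]
  split_ifs
  · exact hc j hj
  · exact le_refl _

/-- the base divisor after raising -/
noncomputable def raisedD (c : ℕ) (w : Wd L r) (s : ℝ) :
    (theGraph m r L κ T hκ hT).Pt →₀ ℤ := baseD hκ hT - raiseP hκ hT c w s

theorem raised_nonneg {c : ℕ} (hc : c < L) (w : Wd L r) (s : ℝ)
    (y : (theGraph m r L κ T hκ hT).Pt) : 0 ≤ raisedD hκ hT c w s y := by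
  classical
  unfold raisedD
  rw [raised_eq hκ hT hc w s, Finsupp.add_apply, Finsupp.add_apply, Finsupp.add_apply]
  have h1 := sum_single_nonneg Finset.univ (fun n : Node L r => pV (m := m) hκ hT (vH n))
    (fun n => (chips κ n : ℤ) - cc κ c w n) (fun n _ => by have := cc_le (κ := κ) hc w n; omega) y
  have h2 := sum_single_nonneg Finset.univ (fun n : Node L r => pV (m := m) hκ hT (vB n))
    (fun _ => (1 : ℤ)) (fun n _ => by norm_num) y
  have h3 := sum_single_nonneg Finset.univ (fun μ : MIdx m r L => pE hκ hT (eM μ) (qq c w s μ))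
    (fun _ => (1 : ℤ)) (fun n _ => by norm_num) y
  have h4 := sum_single_nonneg Finset.univ (fun l : Fin L × Wd L r × Fin κ =>
      pE (m := m) hκ hT (Sum.inr (Sum.inr (Sum.inr l))) s)
    (fun l => if (l.1 : ℕ) = c ∧ ∀ k : Fin L, k.val ≤ c → l.2.1 k = w k then (1 : ℤ) else 0)
    (fun n _ => by split_ifs <;> norm_num) y
  linarith

theorem raised_vH {c : ℕ} (hc : c < L) (w : Wd L r) (s : ℝ) (n : Node L r) (hn : n ≠ nd c w) :
    1 ≤ raisedD (m := m) hκ hT c w s (pV hκ hT (vH n)) := by
  classical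
  unfold raisedD
  rw [raised_eq hκ hT hc w s, Finsupp.add_apply, Finsupp.add_apply, Finsupp.add_apply]
  set y := pV (m := m) hκ hT (vH n)
  have h1 := sum_single_ge Finset.univ (fun n : Node L r => pV (m := m) hκ hT (vH n))
    (fun n => (chips κ n : ℤ) - cc κ c w n) (fun n _ => by have := cc_le (κ := κ) hc w n; omega)
    (Finset.mem_univ n)
  have h2 := sum_single_nonneg Finset.univ (fun n : Node L r => pV (m := m) hκ hT (vB n))
    (fun _ => (1 : ℤ)) (fun n _ => by norm_num) y
  have h3 := sum_single_nonneg Finset.univ (fun μ : MIdx m r L => pE hκ hT (eM μ) (qq c w s μ))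
    (fun _ => (1 : ℤ)) (fun n _ => by norm_num) y
  have h4 := sum_single_nonneg Finset.univ (fun l : Fin L × Wd L r × Fin κ =>
      pE (m := m) hκ hT (Sum.inr (Sum.inr (Sum.inr l))) s)
    (fun l => if (l.1 : ℕ) = c ∧ ∀ k : Fin L, k.val ≤ c → l.2.1 k = w k then (1 : ℤ) else 0)
    (fun n _ => by split_ifs <;> norm_num) y
  have h5 := chips_pos hκ n
  rw [cc_ne w n hn] at h1
  have h6 : (1 : ℤ) ≤ (chips κ n : ℤ) - 0 := by
    have : (1 : ℤ) ≤ chips κ n := by exact_mod_cast h5
    linarith
  have h1' : (chips κ n : ℤ) - 0 ≤ (∑ n : Node L r, Finsupp.single (pV (m := m) hκ hT (vH n))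
    ((chips κ n : ℤ) - cc κ c w n)) y := h1
  linarith

theorem raised_eM {c : ℕ} (hc : c < L) (w : Wd L r) (s : ℝ) (μ : MIdx m r L) :
    1 ≤ raisedD (m := m) hκ hT c w s (pE hκ hT (eM μ) (qq c w s μ)) := by
  classical
  unfold raisedD
  rw [raised_eq hκ hT hc w s, Finsupp.add_apply, Finsupp.add_apply, Finsupp.add_apply]
  set y := pE (m := m) hκ hT (eM μ) (qq c w s μ)
  have h1 := sum_single_nonneg Finset.univ (fun n : Node L r => pV (m := m) hκ hT (vH n))
    (fun n => (chips κ n : ℤ) - cc κ c w n) (fun n _ => by have := cc_le (κ := κ) hc w n; omega) y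
  have h2 := sum_single_nonneg Finset.univ (fun n : Node L r => pV (m := m) hκ hT (vB n))
    (fun _ => (1 : ℤ)) (fun n _ => by norm_num) y
  have h3 := sum_single_ge Finset.univ (fun μ : MIdx m r L => pE hκ hT (eM μ) (qq c w s μ))
    (fun _ => (1 : ℤ)) (fun n _ => by norm_num) (Finset.mem_univ μ)
  have h4 := sum_single_nonneg Finset.univ (fun l : Fin L × Wd L r × Fin κ =>
      pE (m := m) hκ hT (Sum.inr (Sum.inr (Sum.inr l))) s)
    (fun l => if (l.1 : ℕ) = c ∧ ∀ k : Fin L, k.val ≤ c → l.2.1 k = w k then (1 : ℤ) else 0)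
    (fun n _ => by split_ifs <;> norm_num) y
  have h3' : (1 : ℤ) ≤ (∑ μ : MIdx m r L, Finsupp.single (pE hκ hT (eM μ) (qq c w s μ)) (1 : ℤ)) y :=
    h3
  linarith

theorem base_nonneg (y : (theGraph m r L κ T hκ hT).Pt) : 0 ≤ baseD hκ hT y := by
  unfold baseD
  rw [Finsupp.add_apply, Finsupp.add_apply]
  have h1 := sum_single_nonneg Finset.univ (fun n : Node L r => pV (m := m) hκ hT (vH n))
    (fun n => (chips κ n : ℤ)) (fun n _ => by positivity) y
  have h2 := sum_single_nonneg Finset.univ (fun n : Node L r => pV (m := m) hκ hT (vB n))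
    (fun _ => (1 : ℤ)) (fun n _ => by norm_num) y
  have h3 := sum_single_nonneg Finset.univ (fun μ : MIdx m r L => pE hκ hT (eM μ) (1 / 2))
    (fun _ => (1 : ℤ)) (fun n _ => by norm_num) y
  linarith

theorem base_vH (n : Node L r) : 1 ≤ baseD (m := m) hκ hT (pV hκ hT (vH n)) := by
  unfold baseD
  rw [Finsupp.add_apply, Finsupp.add_apply]
  set y := pV (m := m) hκ hT (vH n)
  have h1 := sum_single_ge Finset.univ (fun n : Node L r => pV (m := m) hκ hT (vH n))
    (fun n => (chips κ n : ℤ)) (fun n _ => by positivity) (Finset.mem_univ n)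
  have h2 := sum_single_nonneg Finset.univ (fun n : Node L r => pV (m := m) hκ hT (vB n))
    (fun _ => (1 : ℤ)) (fun n _ => by norm_num) y
  have h3 := sum_single_nonneg Finset.univ (fun μ : MIdx m r L => pE hκ hT (eM μ) (1 / 2))
    (fun _ => (1 : ℤ)) (fun n _ => by norm_num) y
  have h5 : (1 : ℤ) ≤ chips κ n := by exact_mod_cast chips_pos hκ n
  have h1' : (chips κ n : ℤ) ≤ (∑ n : Node L r, Finsupp.single (pV (m := m) hκ hT (vH n))
    (chips κ n : ℤ)) y := h1
  linarith

theorem base_vB (n : Node L r) : 1 ≤ baseD (m := m) hκ hT (pV hκ hT (vB n)) := by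
  unfold baseD
  rw [Finsupp.add_apply, Finsupp.add_apply]
  set y := pV (m := m) hκ hT (vB n)
  have h1 := sum_single_nonneg Finset.univ (fun n : Node L r => pV (m := m) hκ hT (vH n))
    (fun n => (chips κ n : ℤ)) (fun n _ => by positivity) y
  have h2 := sum_single_ge Finset.univ (fun n : Node L r => pV (m := m) hκ hT (vB n))
    (fun _ => (1 : ℤ)) (fun n _ => by norm_num) (Finset.mem_univ n)
  have h3 := sum_single_nonneg Finset.univ (fun μ : MIdx m r L => pE hκ hT (eM μ) (1 / 2))
    (fun _ => (1 : ℤ)) (fun n _ => by norm_num) y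
  have h2' : (1 : ℤ) ≤ (∑ n : Node L r, Finsupp.single (pV (m := m) hκ hT (vB n))
    (1 : ℤ)) y := h2
  linarith

end metricD

end Pool.Agent.H44.Gon
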