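import Pool.Agent.H44.Gon.MetricD

set_option autoImplicit false

namespace Pool.Agent.H44.Gon

open Set

section metricE

theorem sw_lt {m r L : ℕ} (μ : MIdx m r L) : sw μ < L :=
  lt_of_le_of_lt (wst_le _ _ _) μ.1.2.1.2

theorem sw_lt_ew {m r L : ℕ} (μ : MIdx m r L) : sw μ + 1 ≤ ew μ := by
  unfold ew sw
  have h1 : 0 < m := Fin.pos μ.1.1
  have h2 : 0 < m ^ (μ.1.1 : ℕ) := Nat.pow_pos h1
  omega

variable {m r L κ T : ℕ} [NeZero r] (hκ : 0 < κ) (hT : 0 < T)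

theorem below_self (μ : MIdx m r L) (b : Bool) : below (sw μ) (wd μ b) (en μ b) := by
  rw [en, below_nd]
  exact ⟨by have := sw_lt μ; have := sw_lt_ew μ; omega, fun _ _ => rfl⟩

theorem not_below_other (μ : MIdx m r L) {b b' : Bool} (h : b ≠ b') :
    ¬ below (sw μ) (wd μ b) (en μ b') := by
  rw [en, below_nd]
  rintro ⟨_, h2⟩
  exact wd_diff μ b b' h (h2 (jw μ.1.1 μ.1.2.1) (le_refl _)).symm

theorem en_ne (μ : MIdx m r L) (b : Bool) : en μ b ≠ nd (sw μ) (wd μ b) := by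
  intro h
  unfold en at h
  rw [nd_eq_iff] at h
  have := sw_lt μ
  have := sw_lt_ew μ
  omega

theorem qq_true (s : ℝ) (μ : MIdx m r L) : qq (sw μ) (wd μ true) s μ = 1 / 2 + s := by
  unfold qq
  rw [if_pos (below_self μ true), if_neg (not_below_other μ (by simp))]

theorem qq_false (s : ℝ) (μ : MIdx m r L) : qq (sw μ) (wd μ false) s μ = 1 / 2 - s := by
  unfold qq
  rw [if_neg (not_below_other μ (by simp)), if_pos (below_self μ false)]

theorem raised_vX (μ : MIdx m r L) (b : Bool) :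
    1 ≤ raisedD (m := m) hκ hT (sw μ) (wd μ b) (1 / 2) (pV hκ hT (vX μ b)) := by
  have h1 := raised_eM hκ hT (sw_lt μ) (wd μ b) (1 / 2) μ
  cases b
  · rw [qq_false] at h1
    have h2 : pE hκ hT (eM μ) (1 / 2 - 1 / 2) = pV hκ hT (vX μ false) := by
      rw [sub_self]
      exact (theGraph m r L κ T hκ hT).pt_zero _
    rwa [h2] at h1
  · rw [qq_true] at h1
    have h2 : pE hκ hT (eM μ) (1 / 2 + 1 / 2) = pV hκ hT (vX μ true) := by
      have : (1 / 2 + 1 / 2 : ℝ) = 1 := by norm_num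
      rw [this]
      exact (theGraph m r L κ T hκ hT).pt_one _
    rwa [h2] at h1

theorem raised_en (μ : MIdx m r L) (b : Bool) :
    1 ≤ raisedD (m := m) hκ hT (sw μ) (wd μ b) (1 / 2) (pV hκ hT (vH (en μ b))) :=
  raised_vH hκ hT (sw_lt μ) (wd μ b) (1 / 2) (en μ b) (en_ne μ b)

/-- covering a vertex -/
def CovP (x : (theGraph m r L κ T hκ hT).Pt) : Prop :=
  ∃ D' : (theGraph m r L κ T hκ hT).Pt →₀ ℤ, (∀ y, 0 ≤ D' y) ∧
    (theGraph m r L κ T hκ hT).MEquiv (baseD hκ hT - Finsupp.single x 1) D'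

theorem covP_base {x : (theGraph m r L κ T hκ hT).Pt} (hx : 1 ≤ baseD hκ hT x) :
    CovP hκ hT x := by
  refine MGraph.cover_point _ (MGraph.Princ.zero _) (fun y => ?_) ?_
  · rw [sub_zero]
    exact base_nonneg hκ hT y
  · rw [sub_zero]
    exact hx

theorem covE_base (e : Ex m r L κ T) (h1 : 1 ≤ baseD hκ hT (pV hκ hT (esrc e)))
    (h2 : 1 ≤ baseD hκ hT (pV hκ hT (etgt e))) (t : Ioo (0 : ℝ) 1) :
    CovP hκ hT (Sum.inr (e, t)) := by
  refine MGraph.cover_edge (theGraph m r L κ T hκ hT) (MGraph.Princ.zero _) (fun y => ?_) ?_ ?_ t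
  · rw [sub_zero]
    exact base_nonneg hκ hT y
  · rw [sub_zero]
    exact h1
  · rw [sub_zero]
    exact h2

theorem covP_raise {c : ℕ} (hc : c < L) (w : Wd L r) {s : ℝ} (hs0 : 0 ≤ s) (hs1 : s ≤ 1 / 2)
    {x : (theGraph m r L κ T hκ hT).Pt} (hx : 1 ≤ raisedD hκ hT c w s x) :
    CovP hκ hT x :=
  MGraph.cover_point _ (raiseP_princ hκ hT c w hs0 hs1) (raised_nonneg hκ hT hc w s) hx

theorem covE_raise {c : ℕ} (hc : c < L) (w : Wd L r) {s : ℝ} (hs0 : 0 ≤ s) (hs1 : s ≤ 1 / 2)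
    (e : Ex m r L κ T) (h1 : 1 ≤ raisedD hκ hT c w s (pV hκ hT (esrc e)))
    (h2 : 1 ≤ raisedD hκ hT c w s (pV hκ hT (etgt e))) (t : Ioo (0 : ℝ) 1) :
    CovP hκ hT (Sum.inr (e, t)) :=
  MGraph.cover_edge (theGraph m r L κ T hκ hT) (raiseP_princ hκ hT c w hs0 hs1)
    (raised_nonneg hκ hT hc w s) h1 h2 t

theorem covM (μ : MIdx m r L) (t : Ioo (0 : ℝ) 1) :
    CovP hκ hT (Sum.inr ((eM μ : Ex m r L κ T), t)) := by
  have ht := t.2
  have hpt : pE hκ hT (eM μ) (t : ℝ) = Sum.inr ((eM μ : Ex m r L κ T), t) :=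
    (theGraph m r L κ T hκ hT).pt_mem _ t.2
  rcases le_total (t : ℝ) (1 / 2) with h | h
  · have h1 := raised_eM hκ hT (sw_lt μ) (wd μ false) (1 / 2 - t) μ
    rw [qq_false, sub_sub_cancel, hpt] at h1
    exact covP_raise hκ hT (sw_lt μ) (wd μ false) (s := 1 / 2 - t) (by linarith)
        (by linarith [ht.1]) h1
  · have h1 := raised_eM hκ hT (sw_lt μ) (wd μ true) (t - 1 / 2) μ
    rw [qq_true, add_sub_cancel, hpt] at h1
    exact covP_raise hκ hT (sw_lt μ) (wd μ true) (s := t - 1 / 2) (by linarith)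
        (by linarith [ht.2]) h1

theorem base_rank : (theGraph m r L κ T hκ hT).MRankPos (baseD hκ hT) := by
  have h : ∀ x, CovP (m := m) (r := r) (L := L) hκ hT x := by
    intro x
    rcases x with v | ⟨e, t⟩
    · rcases v with n | n | ⟨μ, b⟩
      · exact covP_base hκ hT (base_vH hκ hT n)
      · exact covP_base hκ hT (base_vB hκ hT n)
      · exact covP_raise hκ hT (sw_lt μ) (wd μ b) (s := 1 / 2) (by norm_num) (le_refl _)
          (raised_vX hκ hT μ b)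
    · rcases e with ⟨n, k⟩ | ⟨⟨μ, b⟩, k⟩ | μ | ⟨d, y, k⟩
      · exact covE_base hκ hT (Sum.inl (n, k)) (base_vB hκ hT n) (base_vH hκ hT n) t
      · exact covE_raise hκ hT (sw_lt μ) (wd μ b) (s := 1 / 2) (by norm_num) (le_refl _)
          (Sum.inr (Sum.inl ((μ, b), k))) (raised_vX hκ hT μ b) (raised_en hκ hT μ b) t
      · exact covM hκ hT μ t
      · exact covE_base hκ hT (Sum.inr (Sum.inr (Sum.inr (d, y, k)))) (base_vH hκ hT (nd d y))
          (base_vB hκ hT (nd (d + 1) y)) t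
  exact h

end metricE

end Pool.Agent.H44.Gon
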