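import Pool.Agent.H44.Gon.MetricE

set_option autoImplicit false

namespace Pool.Agent.H44.Gon

open Set

section metricF

theorem card_eq_letter {L r : ℕ} (j : Fin L) (v : Fin r) :
    (Finset.univ.filter (fun y : Wd L r => y j = v)).card = r ^ (L - 1) := by
  have h := Fintype.card_filter_piFinset_const_eq_of_mem (ι := Fin L)
    (Finset.univ : Finset (Fin r)) j (Finset.mem_univ v)
  rw [Finset.card_univ, Fintype.card_fin, Fintype.card_fin] at h
  rw [← h]
  congr 1

theorem card_MIdx (m r L : ℕ) :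
    Fintype.card (MIdx m r L) + m * L * r ^ L * r ^ (L - 1) = m * L * r ^ L * r ^ L := by
  have h1 : Fintype.card (MIdx m r L) = (Finset.univ.filter
      (fun p : Fin m × Fin L × Wd L r × Wd L r =>
        ¬ p.2.2.1 (jw p.1 p.2.1) = p.2.2.2 (jw p.1 p.2.1))).card := Fintype.card_subtype _
  have h2 := Finset.card_filter_add_card_filter_not
    (s := (Finset.univ : Finset (Fin m × Fin L × Wd L r × Wd L r)))
    (fun p => p.2.2.1 (jw p.1 p.2.1) = p.2.2.2 (jw p.1 p.2.1))
  have h3 : (Finset.univ : Finset (Fin m × Fin L × Wd L r × Wd L r)).card =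
      m * L * r ^ L * r ^ L := by
    rw [Finset.card_univ]
    simp only [Fintype.card_prod, Fintype.card_fin, Fintype.card_fun, Wd]
    ring
  have h4 : (Finset.univ.filter
      (fun p : Fin m × Fin L × Wd L r × Wd L r =>
        p.2.2.1 (jw p.1 p.2.1) = p.2.2.2 (jw p.1 p.2.1))).card = m * L * r ^ L * r ^ (L - 1) := by
    rw [Finset.card_filter, Fintype.sum_prod_type]
    have h5 : ∀ a : Fin m, ∀ t : Fin L, ∀ x : Wd L r,
        ∑ y : Wd L r, (if x (jw a t) = y (jw a t) then 1 else 0) = r ^ (L - 1) := by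
      intro a t x
      rw [← card_eq_letter (jw a t) (x (jw a t)), Finset.card_filter]
      refine Finset.sum_congr rfl (fun y _ => ?_)
      by_cases h : x (jw a t) = y (jw a t)
      · rw [if_pos h, if_pos h.symm]
      · rw [if_neg h, if_neg (Ne.symm h)]
    have h6 : ∀ a : Fin m, ∑ q : Fin L × Wd L r × Wd L r,
        (if q.2.1 (jw a q.1) = q.2.2 (jw a q.1) then 1 else 0) = L * (r ^ L * r ^ (L - 1)) := by
      intro a
      rw [Fintype.sum_prod_type]
      have h7 : ∀ t : Fin L, ∑ q : Wd L r × Wd L r,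
          (if q.1 (jw a t) = q.2 (jw a t) then 1 else 0) = r ^ L * r ^ (L - 1) := by
        intro t
        rw [Fintype.sum_prod_type, Finset.sum_congr rfl (fun x _ => h5 a t x)]
        rw [Finset.sum_const, Finset.card_univ, smul_eq_mul]
        simp [Wd]
      rw [Finset.sum_congr rfl (fun t _ => h7 t), Finset.sum_const, Finset.card_univ,
        Fintype.card_fin, smul_eq_mul]
    rw [Finset.sum_congr rfl (fun a _ => h6 a), Finset.sum_const, Finset.card_univ,
      Fintype.card_fin, smul_eq_mul]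
    ring
  rw [h4, h3] at h2
  rw [h1]
  have h8 : (Finset.univ.filter
      (fun p : Fin m × Fin L × Wd L r × Wd L r =>
        ¬ p.2.2.1 (jw p.1 p.2.1) = p.2.2.2 (jw p.1 p.2.1))).card = (Finset.univ.filter
      (fun p : Fin m × Fin L × Wd L r × Wd L r =>
        ¬ (fun p : Fin m × Fin L × Wd L r × Wd L r =>
          p.2.2.1 (jw p.1 p.2.1) = p.2.2.2 (jw p.1 p.2.1)) p)).card := rfl
  omega

variable {m r L κ T : ℕ} [NeZero r] (hκ : 0 < κ) (hT : 0 < T)

theorem card_depth (c : Fin (L + 1)) :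
    (Finset.univ.filter (fun n : Node L r => n.1.1 = c)).card ≤ r ^ (c : ℕ) := by
  have h1 : Fintype.card (Fin (c : ℕ) → Fin r) = r ^ (c : ℕ) := by simp
  rw [← h1, ← Finset.card_univ]
  refine Finset.card_le_card_of_injOn
    (fun n => fun k : Fin (c : ℕ) => n.1.2 ⟨k, by omega⟩) (fun _ _ => Finset.mem_univ _) ?_
  intro x hx y hy h
  have hx' := (Finset.mem_filter.1 hx).2
  have hy' := (Finset.mem_filter.1 hy).2
  apply Subtype.ext
  apply Prod.ext
  · rw [hx', hy']
  · rw [← x.2, ← y.2, hx', hy', trunc_eq_iff]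
    intro n hn
    exact congrFun h ⟨n, hn⟩

theorem sum_depth (f : ℕ → ℕ) :
    ∑ n : Node L r, f n.1.1 ≤ ∑ c : Fin (L + 1), r ^ (c : ℕ) * f c := by
  rw [← Finset.sum_fiberwise (Finset.univ : Finset (Node L r)) (fun n => n.1.1)]
  refine Finset.sum_le_sum (fun c _ => ?_)
  have h1 : ∑ n ∈ Finset.univ.filter (fun n : Node L r => n.1.1 = c), f n.1.1 =
      ∑ n ∈ Finset.univ.filter (fun n : Node L r => n.1.1 = c), f c := by
    refine Finset.sum_congr rfl (fun n hn => ?_)
    rw [(Finset.mem_filter.1 hn).2]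
  rw [h1, Finset.sum_const, smul_eq_mul]
  exact Nat.mul_le_mul_right _ (card_depth c)

theorem card_node : Fintype.card (Node L r) ≤ (L + 1) * r ^ L := by
  have h := sum_depth (L := L) (r := r) (fun _ => 1)
  rw [Finset.sum_const, Finset.card_univ, smul_eq_mul, mul_one] at h
  refine h.trans ?_
  have hr : 0 < r := Nat.pos_of_ne_zero (NeZero.ne r)
  calc ∑ c : Fin (L + 1), r ^ (c : ℕ) * 1 ≤ ∑ c : Fin (L + 1), r ^ L := by
        refine Finset.sum_le_sum (fun c _ => ?_)
        rw [mul_one]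
        exact Nat.pow_le_pow_right hr (by omega)
    _ = (L + 1) * r ^ L := by simp

theorem sum_chips : ∑ n : Node L r, chips κ n ≤ L * (κ * r ^ (L - 1)) + r ^ L := by
  have h := sum_depth (L := L) (r := r) (fun c => if c < L then κ * r ^ (L - 1 - c) else 1)
  have h0 : ∑ n : Node L r, chips κ n =
      ∑ n : Node L r, (fun c => if c < L then κ * r ^ (L - 1 - c) else 1) (n.1.1 : ℕ) := rfl
  rw [h0]
  refine h.trans ?_
  rw [Fin.sum_univ_castSucc]
  have h1 : ∀ c : Fin L, r ^ ((Fin.castSucc c : Fin (L + 1)) : ℕ) *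
      (if ((Fin.castSucc c : Fin (L + 1)) : ℕ) < L then
        κ * r ^ (L - 1 - ((Fin.castSucc c : Fin (L + 1)) : ℕ)) else 1) = κ * r ^ (L - 1) := by
    intro c
    have hc := c.2
    rw [Fin.val_castSucc, if_pos hc]
    have h2 : r ^ (c : ℕ) * (κ * r ^ (L - 1 - c)) = κ * r ^ ((c : ℕ) + (L - 1 - c)) := by
      rw [pow_add]; ring
    rw [h2]
    congr 2
    omega
  rw [Finset.sum_congr rfl (fun c _ => h1 c)]
  rw [Fin.val_last, if_neg (lt_irrefl _), mul_one, Finset.sum_const, Finset.card_univ,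
    Fintype.card_fin, smul_eq_mul]

theorem mdeg_base : (theGraph m r L κ T hκ hT).mdeg (baseD hκ hT) =
    ((∑ n : Node L r, chips κ n + Fintype.card (Node L r) + Fintype.card (MIdx m r L) : ℕ) : ℤ) := by
  rw [MGraph.mdeg_eq]
  unfold baseD
  rw [map_add, map_add, map_sum, map_sum, map_sum]
  simp only [MGraph.mdegHom_single]
  push_cast
  simp

theorem dgonMetric_theGraph : (theGraph m r L κ T hκ hT).dgonMetric ≤
    L * (κ * r ^ (L - 1)) + r ^ L + (L + 1) * r ^ L + Fintype.card (MIdx m r L) := by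
  have h1 : (theGraph m r L κ T hκ hT).dgonMetric ≤
      ∑ n : Node L r, chips κ n + Fintype.card (Node L r) + Fintype.card (MIdx m r L) :=
    Nat.sInf_le ⟨baseD hκ hT, mdeg_base hκ hT, base_rank hκ hT⟩
  have h2 := sum_chips (L := L) (r := r) (κ := κ)
  have h3 := card_node (L := L) (r := r)
  omega

end metricF

end Pool.Agent.H44.Gon
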