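import Pool.Agent.H44.Gon.Defs

set_option autoImplicit false

namespace Pool.Agent.H44.Gon

open Set Filter Topology

namespace MGraph

theorem affine_slopeR {F : ℝ → ℝ} {a b : ℝ} {m : ℝ}
    (h : ∀ t ∈ Icc a b, F t = F a + m * (t - a)) {t : ℝ} (ht : t ∈ Ico a b) :
    HasDerivWithinAt F m (Ici t) t := by
  have h1 : HasDerivWithinAt (fun u => F a + m * (u - a)) m (Ici t) t := by
    have : HasDerivWithinAt (fun u : ℝ => F a + m * (u - a)) (m * 1) (Ici t) t :=
      (((hasDerivWithinAt_id t (Ici t)).sub_const a).const_mul m).const_add (F a)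
    simpa using this
  refine h1.congr_of_eventuallyEq ?_ (h t ⟨ht.1, ht.2.le⟩)
  have : Icc t b ∈ 𝓝[Ici t] t := Icc_mem_nhdsGE ht.2
  filter_upwards [this] with u hu
  exact h u ⟨ht.1.trans hu.1, hu.2⟩

theorem affine_slopeL {F : ℝ → ℝ} {a b : ℝ} {m : ℝ}
    (h : ∀ t ∈ Icc a b, F t = F a + m * (t - a)) {t : ℝ} (ht : t ∈ Ioc a b) :
    HasDerivWithinAt F m (Iic t) t := by
  have h1 : HasDerivWithinAt (fun u => F a + m * (u - a)) m (Iic t) t := by
    have : HasDerivWithinAt (fun u : ℝ => F a + m * (u - a)) (m * 1) (Iic t) t :=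
      (((hasDerivWithinAt_id t (Iic t)).sub_const a).const_mul m).const_add (F a)
    simpa using this
  refine h1.congr_of_eventuallyEq ?_ (h t ⟨ht.1.le, ht.2⟩)
  have : Icc a t ∈ 𝓝[Iic t] t := Icc_mem_nhdsLE ht.1
  filter_upwards [this] with u hu
  exact h u ⟨hu.1, hu.2.trans ht.2⟩

theorem slopeR_eq {F : ℝ → ℝ} {t m : ℝ} (h : HasDerivWithinAt F m (Ici t) t) : slopeR F t = m :=
  h.derivWithin (uniqueDiffOn_Ici t t self_mem_Ici)

theorem slopeL_eq {F : ℝ → ℝ} {t m : ℝ} (h : HasDerivWithinAt F m (Iic t) t) :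
    slopeL F t = -m := by
  unfold slopeL
  rw [h.derivWithin (uniqueDiffOn_Iic t t self_mem_Iic)]

/-- Right derivative of a piecewise linear function. -/
theorem IsPL.right {F : ℝ → ℝ} (hF : IsPL F) {t : ℝ} (ht : t ∈ Ico (0 : ℝ) 1) :
    ∃ m : ℤ, HasDerivWithinAt F m (Ici t) t := by
  obtain ⟨S, hS⟩ := hF
  -- choose b > t with no point of S in (t, b)
  have : ∃ b, t < b ∧ b ≤ 1 ∧ ∀ s ∈ S, s ∉ Ioo t b := by
    by_cases hne : (S.filter (fun s => t < s)).Nonempty
    · refine ⟨min ((S.filter (fun s => t < s)).min' hne) 1, ?_, min_le_right _ _, ?_⟩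
      · refine lt_min ?_ ht.2
        have := Finset.min'_mem _ hne
        exact (Finset.mem_filter.1 this).2
      · intro s hs hs'
        have h1 : s ∈ S.filter (fun s => t < s) := Finset.mem_filter.2 ⟨hs, hs'.1⟩
        have h2 := Finset.min'_le _ _ h1
        have h3 := hs'.2
        have h4 := min_le_left ((S.filter (fun s => t < s)).min' hne) 1
        linarith
    · refine ⟨1, ht.2, le_refl _, ?_⟩
      intro s hs hs'
      exact hne ⟨s, Finset.mem_filter.2 ⟨hs, hs'.1⟩⟩
  obtain ⟨b, hb, hb1, hSb⟩ := this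
  obtain ⟨m, hm⟩ := hS t b ht.1 hb hb1 hSb
  exact ⟨m, affine_slopeR hm ⟨le_refl _, hb⟩⟩

/-- Left derivative of a piecewise linear function. -/
theorem IsPL.left {F : ℝ → ℝ} (hF : IsPL F) {t : ℝ} (ht : t ∈ Ioc (0 : ℝ) 1) :
    ∃ m : ℤ, HasDerivWithinAt F m (Iic t) t := by
  obtain ⟨S, hS⟩ := hF
  have : ∃ a, a < t ∧ 0 ≤ a ∧ ∀ s ∈ S, s ∉ Ioo a t := by
    by_cases hne : (S.filter (fun s => s < t)).Nonempty
    · refine ⟨max ((S.filter (fun s => s < t)).max' hne) 0, ?_, le_max_right _ _, ?_⟩
      · refine max_lt ?_ ht.1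
        have := Finset.max'_mem _ hne
        exact (Finset.mem_filter.1 this).2
      · intro s hs hs'
        have h1 : s ∈ S.filter (fun s => s < t) := Finset.mem_filter.2 ⟨hs, hs'.2⟩
        have h2 := Finset.le_max' _ _ h1
        have h3 := hs'.1
        have h4 := le_max_left ((S.filter (fun s => s < t)).max' hne) 0
        linarith
    · refine ⟨0, ht.1, le_refl _, ?_⟩
      intro s hs hs'
      exact hne ⟨s, Finset.mem_filter.2 ⟨hs, hs'.2⟩⟩
  obtain ⟨a, ha, ha0, hSa⟩ := this
  obtain ⟨m, hm⟩ := hS a t ha0 ha ht.2 hSa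
  exact ⟨m, affine_slopeL hm ⟨ha, le_refl _⟩⟩

theorem IsPL.congr {F H : ℝ → ℝ} (hF : IsPL F) (h : ∀ t ∈ Icc (0 : ℝ) 1, H t = F t) : IsPL H := by
  obtain ⟨S, hS⟩ := hF
  refine ⟨S, fun a b ha hab hb hSab => ?_⟩
  obtain ⟨m, hm⟩ := hS a b ha hab hb hSab
  refine ⟨m, fun t ht => ?_⟩
  rw [h t ⟨ha.trans ht.1, ht.2.trans hb⟩, h a ⟨ha, hab.le.trans hb⟩]
  exact hm t ht

theorem IsPL.const (c : ℝ) : IsPL (fun _ => c) :=
  ⟨∅, fun _ _ _ _ _ _ => ⟨0, fun _ _ => by simp⟩⟩

theorem IsPL.add {F H : ℝ → ℝ} (hF : IsPL F) (hH : IsPL H) : IsPL (fun t => F t + H t) := by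
  classical
  obtain ⟨S, hS⟩ := hF
  obtain ⟨S', hS'⟩ := hH
  refine ⟨S ∪ S', fun a b ha hab hb hSab => ?_⟩
  obtain ⟨m, hm⟩ := hS a b ha hab hb (fun s hs => hSab s (Finset.mem_union_left _ hs))
  obtain ⟨m', hm'⟩ := hS' a b ha hab hb (fun s hs => hSab s (Finset.mem_union_right _ hs))
  refine ⟨m + m', fun t ht => ?_⟩
  simp only [hm t ht, hm' t ht]
  push_cast
  ring

theorem IsPL.zmul {F : ℝ → ℝ} (hF : IsPL F) (n : ℤ) : IsPL (fun t => (n : ℝ) * F t) := by
  obtain ⟨S, hS⟩ := hF
  refine ⟨S, fun a b ha hab hb hSab => ?_⟩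
  obtain ⟨m, hm⟩ := hS a b ha hab hb hSab
  refine ⟨n * m, fun t ht => ?_⟩
  simp only [hm t ht]
  push_cast
  ring

theorem IsPL.sum {ι : Type} (I : Finset ι) {F : ι → ℝ → ℝ} (hF : ∀ i ∈ I, IsPL (F i)) :
    IsPL (fun t => ∑ i ∈ I, F i t) := by
  classical
  induction I using Finset.induction_on with
  | empty => simpa using IsPL.const 0
  | insert i I hi ih =>
    have h1 := hF i (Finset.mem_insert_self _ _)
    have h2 := ih (fun j hj => hF j (Finset.mem_insert_of_mem hj))
    refine (h1.add h2).congr (fun t _ => ?_)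
    rw [Finset.sum_insert hi]

/-- The ramp function: clamps `t` to `[a,b]`. -/
noncomputable def ramp (a b t : ℝ) : ℝ := max a (min b t)

theorem ramp_of_le {a b t : ℝ} (h : a ≤ b) (ht : t ≤ a) : ramp a b t = a := by
  unfold ramp
  rw [max_eq_left]
  exact (min_le_right _ _).trans ht

theorem ramp_of_ge {a b t : ℝ} (h : a ≤ b) (ht : b ≤ t) : ramp a b t = b := by
  unfold ramp
  rw [min_eq_left ht, max_eq_right h]

theorem ramp_of_mem {a b t : ℝ} (ht : t ∈ Icc a b) : ramp a b t = t := by
  unfold ramp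
  rw [min_eq_right ht.2, max_eq_right ht.1]

theorem ramp_isPL {a b : ℝ} (hab : a ≤ b) : IsPL (ramp a b) := by
  classical
  refine ⟨{a, b}, fun c d hc hcd hd hS => ?_⟩
  have ha : a ≤ c ∨ d ≤ a := by
    by_contra hcon
    push Not at hcon
    exact hS a (by simp) ⟨hcon.1, hcon.2⟩
  have hb : b ≤ c ∨ d ≤ b := by
    by_contra hcon
    push Not at hcon
    exact hS b (by simp) ⟨hcon.1, hcon.2⟩
  rcases ha with ha | ha
  · rcases hb with hb | hb
    · refine ⟨0, fun t ht => ?_⟩
      rw [ramp_of_ge hab (hb.trans ht.1), ramp_of_ge hab hb]; simp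
    · refine ⟨1, fun t ht => ?_⟩
      rw [ramp_of_mem ⟨ha.trans ht.1, ht.2.trans hb⟩, ramp_of_mem ⟨ha, hcd.le.trans hb⟩]
      push_cast; ring
  · refine ⟨0, fun t ht => ?_⟩
    rw [ramp_of_le hab (ht.2.trans ha), ramp_of_le hab (hcd.le.trans ha)]; simp

theorem ramp_right {a b t : ℝ} (hab : a ≤ b) :
    HasDerivWithinAt (ramp a b) (if a ≤ t ∧ t < b then 1 else 0) (Ici t) t := by
  by_cases h1 : t < a
  · rw [if_neg (by intro h; exact absurd h.1 (not_le.2 h1))]
    refine affine_slopeR (a := t) (b := a) (fun u hu => ?_) ⟨le_refl _, h1⟩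
    rw [ramp_of_le hab hu.2, ramp_of_le hab h1.le]; simp
  · push Not at h1
    by_cases h2 : t < b
    · rw [if_pos ⟨h1, h2⟩]
      refine affine_slopeR (a := t) (b := b) (fun u hu => ?_) ⟨le_refl _, h2⟩
      rw [ramp_of_mem ⟨h1.trans hu.1, hu.2⟩, ramp_of_mem ⟨h1, h2.le⟩]; ring
    · rw [if_neg (by intro h; exact h2 h.2)]
      push Not at h2
      refine affine_slopeR (a := t) (b := t + 1) (fun u hu => ?_) ⟨le_refl _, by linarith⟩
      rw [ramp_of_ge hab (h2.trans hu.1), ramp_of_ge hab h2]; simp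

theorem ramp_left {a b t : ℝ} (hab : a ≤ b) :
    HasDerivWithinAt (ramp a b) (if a < t ∧ t ≤ b then 1 else 0) (Iic t) t := by
  by_cases h1 : b < t
  · rw [if_neg (by intro h; exact absurd h.2 (not_le.2 h1))]
    refine affine_slopeL (a := b) (b := t) (fun u hu => ?_) ⟨h1, le_refl _⟩
    rw [ramp_of_ge hab hu.1, ramp_of_ge hab le_rfl]; simp
  · push Not at h1
    by_cases h2 : a < t
    · rw [if_pos ⟨h2, h1⟩]
      refine affine_slopeL (a := a) (b := t) (fun u hu => ?_) ⟨h2, le_refl _⟩
      rw [ramp_of_mem ⟨hu.1, hu.2.trans h1⟩, ramp_of_mem ⟨le_refl _, hab⟩]; ring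
    · rw [if_neg (by intro h; exact h2 h.1)]
      push Not at h2
      refine affine_slopeL (a := t - 1) (b := t) (fun u hu => ?_) ⟨by linarith, le_refl _⟩
      rw [ramp_of_le hab (hu.2.trans h2), ramp_of_le hab (by linarith)]; simp

/-- Telescoping of slopes. -/
theorem telescope {F : ℝ → ℝ} (S : Finset ℝ)
    (hS : ∀ a b : ℝ, 0 ≤ a → a < b → b ≤ 1 → (∀ s ∈ S, s ∉ Set.Ioo a b) →
      ∃ m : ℤ, ∀ t ∈ Set.Icc a b, F t = F a + m * (t - a)) :
    ∀ (n : ℕ) (a b : ℝ), 0 ≤ a → a < b → b ≤ 1 →
      (S.filter (fun s => a < s ∧ s < b)).card = n →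
      (∑ t ∈ S.filter (fun s => a < s ∧ s < b), (slopeR F t + slopeL F t)) +
        slopeR F a + slopeL F b = 0 := by
  intro n
  induction n using Nat.strong_induction_on with
  | _ n ih =>
    intro a b ha hab hb hn
    by_cases hne : (S.filter (fun s => a < s ∧ s < b)).Nonempty
    · obtain ⟨c, hc⟩ := hne
      have hcS := (Finset.mem_filter.1 hc).1
      have hac := (Finset.mem_filter.1 hc).2.1
      have hcb := (Finset.mem_filter.1 hc).2.2
      have hsplit : S.filter (fun s => a < s ∧ s < b) =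
          insert c ((S.filter (fun s => a < s ∧ s < c)) ∪ (S.filter (fun s => c < s ∧ s < b))) := by
        ext s
        simp only [Finset.mem_filter, Finset.mem_insert, Finset.mem_union]
        constructor
        · rintro ⟨h1, h2, h3⟩
          rcases lt_trichotomy s c with h | h | h
          · right; left; exact ⟨h1, h2, h⟩
          · left; exact h
          · right; right; exact ⟨h1, h, h3⟩
        · rintro (h | ⟨h1, h2, h3⟩ | ⟨h1, h2, h3⟩)
          · subst h; exact ⟨hcS, hac, hcb⟩
          · exact ⟨h1, h2, h3.trans hcb⟩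
          · exact ⟨h1, hac.trans h2, h3⟩
      have hdisj : Disjoint (S.filter (fun s => a < s ∧ s < c))
          (S.filter (fun s => c < s ∧ s < b)) := by
        rw [Finset.disjoint_left]
        intro s h1 h2
        have := (Finset.mem_filter.1 h1).2.2
        have := (Finset.mem_filter.1 h2).2.1
        linarith
      have hcnot : c ∉ (S.filter (fun s => a < s ∧ s < c)) ∪
          (S.filter (fun s => c < s ∧ s < b)) := by
        simp
      have hcard : (S.filter (fun s => a < s ∧ s < c)).card +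
          (S.filter (fun s => c < s ∧ s < b)).card + 1 = n := by
        rw [← hn, hsplit, Finset.card_insert_of_notMem hcnot, Finset.card_union_of_disjoint hdisj]
      have h1 := ih _ (by omega) a c ha hac (hcb.le.trans hb) rfl
      have h2 := ih _ (by omega) c b (ha.trans hac.le) hcb hb rfl
      rw [hsplit, Finset.sum_insert hcnot, Finset.sum_union hdisj]
      linarith
    · rw [Finset.not_nonempty_iff_eq_empty] at hne
      obtain ⟨m, hm⟩ := hS a b ha hab hb (fun s hs hs' => by
        have : s ∈ S.filter (fun s => a < s ∧ s < b) := Finset.mem_filter.2 ⟨hs, hs'.1, hs'.2⟩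
        rw [hne] at this
        exact absurd this (Finset.notMem_empty _))
      rw [hne, slopeR_eq (affine_slopeR hm ⟨le_refl _, hab⟩),
        slopeL_eq (affine_slopeL hm ⟨hab, le_refl _⟩)]
      simp

/-- Lower bound for the total increase of `F` from the first slope and the chips passed. -/
theorem increase {F : ℝ → ℝ} (S : Finset ℝ)
    (hS : ∀ a b : ℝ, 0 ≤ a → a < b → b ≤ 1 → (∀ s ∈ S, s ∉ Set.Ioo a b) →
      ∃ m : ℤ, ∀ t ∈ Set.Icc a b, F t = F a + m * (t - a))
    (D : ℝ → ℝ) (hD : ∀ t ∈ S, 0 < t → t < 1 → 0 ≤ D t)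
    (hDF : ∀ t ∈ S, 0 < t → t < 1 → 0 ≤ D t + slopeR F t + slopeL F t) :
    ∀ (n : ℕ) (a b : ℝ), 0 ≤ a → a < b → b ≤ 1 →
      (S.filter (fun s => a < s ∧ s < b)).card = n →
      (slopeR F a - ∑ t ∈ S.filter (fun s => a < s ∧ s < b), D t) * (b - a) ≤ F b - F a := by
  intro n
  induction n using Nat.strong_induction_on with
  | _ n ih =>
    intro a b ha hab hb hn
    by_cases hne : (S.filter (fun s => a < s ∧ s < b)).Nonempty
    · obtain ⟨c, hc⟩ := hne
      have hcS := (Finset.mem_filter.1 hc).1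
      have hac := (Finset.mem_filter.1 hc).2.1
      have hcb := (Finset.mem_filter.1 hc).2.2
      have hsplit : S.filter (fun s => a < s ∧ s < b) =
          insert c ((S.filter (fun s => a < s ∧ s < c)) ∪ (S.filter (fun s => c < s ∧ s < b))) := by
        ext s
        simp only [Finset.mem_filter, Finset.mem_insert, Finset.mem_union]
        constructor
        · rintro ⟨h1, h2, h3⟩
          rcases lt_trichotomy s c with h | h | h
          · right; left; exact ⟨h1, h2, h⟩
          · left; exact h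
          · right; right; exact ⟨h1, h, h3⟩
        · rintro (h | ⟨h1, h2, h3⟩ | ⟨h1, h2, h3⟩)
          · subst h; exact ⟨hcS, hac, hcb⟩
          · exact ⟨h1, h2, h3.trans hcb⟩
          · exact ⟨h1, hac.trans h2, h3⟩
      have hdisj : Disjoint (S.filter (fun s => a < s ∧ s < c))
          (S.filter (fun s => c < s ∧ s < b)) := by
        rw [Finset.disjoint_left]
        intro s h1 h2
        have := (Finset.mem_filter.1 h1).2.2
        have := (Finset.mem_filter.1 h2).2.1
        linarith
      have hcnot : c ∉ (S.filter (fun s => a < s ∧ s < c)) ∪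
          (S.filter (fun s => c < s ∧ s < b)) := by
        simp
      have hcard : (S.filter (fun s => a < s ∧ s < c)).card +
          (S.filter (fun s => c < s ∧ s < b)).card + 1 = n := by
        rw [← hn, hsplit, Finset.card_insert_of_notMem hcnot, Finset.card_union_of_disjoint hdisj]
      have h1 := ih _ (by omega) a c ha hac (hcb.le.trans hb) rfl
      have h2 := ih _ (by omega) c b (ha.trans hac.le) hcb hb rfl
      have h3 := telescope S hS _ a c ha hac (hcb.le.trans hb) rfl
      rw [hsplit, Finset.sum_insert hcnot, Finset.sum_union hdisj]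
      set A := ∑ t ∈ S.filter (fun s => a < s ∧ s < c), D t with hA
      set B := ∑ t ∈ S.filter (fun s => c < s ∧ s < b), D t with hB
      have hc0 : 0 ≤ D c + slopeR F c + slopeL F c :=
        hDF c hcS (lt_of_le_of_lt ha hac) (lt_of_lt_of_le hcb hb)
      have hDc : 0 ≤ D c := hD c hcS (lt_of_le_of_lt ha hac) (lt_of_lt_of_le hcb hb)
      have hsumA : ∑ t ∈ S.filter (fun s => a < s ∧ s < c), (slopeR F t + slopeL F t) ≥ -A := by
        rw [hA, ge_iff_le, ← Finset.sum_neg_distrib]
        refine Finset.sum_le_sum (fun t ht => ?_)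
        have ht' := Finset.mem_filter.1 ht
        have := hDF t ht'.1 (lt_of_le_of_lt ha ht'.2.1)
          (lt_of_lt_of_le (ht'.2.2.trans hcb) hb)
        linarith
      have hBnn : 0 ≤ B := Finset.sum_nonneg (fun t ht => by
        have ht' := Finset.mem_filter.1 ht
        exact hD t ht'.1 (lt_of_le_of_lt ha (hac.trans ht'.2.1)) (lt_of_lt_of_le ht'.2.2 hb))
      have hslope : slopeR F a - (D c + (A + B)) ≤ slopeR F c - B := by linarith
      have e1 : (slopeR F a - (D c + (A + B))) * (b - c) ≤ (slopeR F c - B) * (b - c) :=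
        mul_le_mul_of_nonneg_right hslope (by linarith)
      have e2 : (slopeR F a - (D c + (A + B))) * (c - a) ≤ (slopeR F a - A) * (c - a) :=
        mul_le_mul_of_nonneg_right (by linarith) (by linarith)
      have e3 : (slopeR F a - (D c + (A + B))) * (b - a) =
          (slopeR F a - (D c + (A + B))) * (b - c) + (slopeR F a - (D c + (A + B))) * (c - a) := by
        ring
      linarith
    · rw [Finset.not_nonempty_iff_eq_empty] at hne
      obtain ⟨m, hm⟩ := hS a b ha hab hb (fun s hs hs' => by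
        have : s ∈ S.filter (fun s => a < s ∧ s < b) := Finset.mem_filter.2 ⟨hs, hs'.1, hs'.2⟩
        rw [hne] at this
        exact absurd this (Finset.notMem_empty _))
      rw [hne, slopeR_eq (affine_slopeR hm ⟨le_refl _, hab⟩)]
      have := hm b ⟨hab.le, le_refl _⟩
      simp only [Finset.sum_empty, sub_zero]
      linarith

/-- Lower bound for the total decrease of `F` from the last slope and the chips passed. -/
theorem decrease {F : ℝ → ℝ} (S : Finset ℝ)
    (hS : ∀ a b : ℝ, 0 ≤ a → a < b → b ≤ 1 → (∀ s ∈ S, s ∉ Set.Ioo a b) →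
      ∃ m : ℤ, ∀ t ∈ Set.Icc a b, F t = F a + m * (t - a))
    (D : ℝ → ℝ) (hD : ∀ t ∈ S, 0 < t → t < 1 → 0 ≤ D t)
    (hDF : ∀ t ∈ S, 0 < t → t < 1 → 0 ≤ D t + slopeR F t + slopeL F t) :
    ∀ (n : ℕ) (a b : ℝ), 0 ≤ a → a < b → b ≤ 1 →
      (S.filter (fun s => a < s ∧ s < b)).card = n →
      (slopeL F b - ∑ t ∈ S.filter (fun s => a < s ∧ s < b), D t) * (b - a) ≤ F a - F b := by
  intro n
  induction n using Nat.strong_induction_on with
  | _ n ih =>
    intro a b ha hab hb hn
    by_cases hne : (S.filter (fun s => a < s ∧ s < b)).Nonempty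
    · obtain ⟨c, hc⟩ := hne
      have hcS := (Finset.mem_filter.1 hc).1
      have hac := (Finset.mem_filter.1 hc).2.1
      have hcb := (Finset.mem_filter.1 hc).2.2
      have hsplit : S.filter (fun s => a < s ∧ s < b) =
          insert c ((S.filter (fun s => a < s ∧ s < c)) ∪ (S.filter (fun s => c < s ∧ s < b))) := by
        ext s
        simp only [Finset.mem_filter, Finset.mem_insert, Finset.mem_union]
        constructor
        · rintro ⟨h1, h2, h3⟩
          rcases lt_trichotomy s c with h | h | h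
          · right; left; exact ⟨h1, h2, h⟩
          · left; exact h
          · right; right; exact ⟨h1, h, h3⟩
        · rintro (h | ⟨h1, h2, h3⟩ | ⟨h1, h2, h3⟩)
          · subst h; exact ⟨hcS, hac, hcb⟩
          · exact ⟨h1, h2, h3.trans hcb⟩
          · exact ⟨h1, hac.trans h2, h3⟩
      have hdisj : Disjoint (S.filter (fun s => a < s ∧ s < c))
          (S.filter (fun s => c < s ∧ s < b)) := by
        rw [Finset.disjoint_left]
        intro s h1 h2
        have := (Finset.mem_filter.1 h1).2.2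
        have := (Finset.mem_filter.1 h2).2.1
        linarith
      have hcnot : c ∉ (S.filter (fun s => a < s ∧ s < c)) ∪
          (S.filter (fun s => c < s ∧ s < b)) := by
        simp
      have hcard : (S.filter (fun s => a < s ∧ s < c)).card +
          (S.filter (fun s => c < s ∧ s < b)).card + 1 = n := by
        rw [← hn, hsplit, Finset.card_insert_of_notMem hcnot, Finset.card_union_of_disjoint hdisj]
      have h1 := ih _ (by omega) a c ha hac (hcb.le.trans hb) rfl
      have h2 := ih _ (by omega) c b (ha.trans hac.le) hcb hb rfl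
      have h3 := telescope S hS _ c b (ha.trans hac.le) hcb hb rfl
      rw [hsplit, Finset.sum_insert hcnot, Finset.sum_union hdisj]
      set A := ∑ t ∈ S.filter (fun s => a < s ∧ s < c), D t with hA
      set B := ∑ t ∈ S.filter (fun s => c < s ∧ s < b), D t with hB
      have hc0 : 0 ≤ D c + slopeR F c + slopeL F c :=
        hDF c hcS (lt_of_le_of_lt ha hac) (lt_of_lt_of_le hcb hb)
      have hDc : 0 ≤ D c := hD c hcS (lt_of_le_of_lt ha hac) (lt_of_lt_of_le hcb hb)
      have hsumB : ∑ t ∈ S.filter (fun s => c < s ∧ s < b), (slopeR F t + slopeL F t) ≥ -B := by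
        rw [hB, ge_iff_le, ← Finset.sum_neg_distrib]
        refine Finset.sum_le_sum (fun t ht => ?_)
        have ht' := Finset.mem_filter.1 ht
        have := hDF t ht'.1 (lt_of_le_of_lt ha (hac.trans ht'.2.1))
          (lt_of_lt_of_le ht'.2.2 hb)
        linarith
      have hAnn : 0 ≤ A := Finset.sum_nonneg (fun t ht => by
        have ht' := Finset.mem_filter.1 ht
        exact hD t ht'.1 (lt_of_le_of_lt ha ht'.2.1) (lt_of_lt_of_le (ht'.2.2.trans hcb) hb))
      have hslope : slopeL F b - (D c + (A + B)) ≤ slopeL F c - A := by linarith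
      have e1 : (slopeL F b - (D c + (A + B))) * (c - a) ≤ (slopeL F c - A) * (c - a) :=
        mul_le_mul_of_nonneg_right hslope (by linarith)
      have e2 : (slopeL F b - (D c + (A + B))) * (b - c) ≤ (slopeL F b - B) * (b - c) :=
        mul_le_mul_of_nonneg_right (by linarith) (by linarith)
      have e3 : (slopeL F b - (D c + (A + B))) * (b - a) =
          (slopeL F b - (D c + (A + B))) * (b - c) + (slopeL F b - (D c + (A + B))) * (c - a) := by
        ring
      linarith
    · rw [Finset.not_nonempty_iff_eq_empty] at hne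
      obtain ⟨m, hm⟩ := hS a b ha hab hb (fun s hs hs' => by
        have : s ∈ S.filter (fun s => a < s ∧ s < b) := Finset.mem_filter.2 ⟨hs, hs'.1, hs'.2⟩
        rw [hne] at this
        exact absurd this (Finset.notMem_empty _))
      rw [hne, slopeL_eq (affine_slopeL hm ⟨hab, le_refl _⟩)]
      have := hm b ⟨hab.le, le_refl _⟩
      simp only [Finset.sum_empty, sub_zero]
      linarith

end MGraph

end Pool.Agent.H44.Gon
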